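import Pool.Agent.Lib.MP_6947cd_al.Perm

set_option autoImplicit false
open scoped Matrix ComplexOrder
open Matrix Finset

namespace Pool.Agent.Lib.MP_6947cd_al

variable {ι κ : Type} [Fintype κ] [DecidableEq κ]

omit [DecidableEq κ] in
lemma factorial_pos_real : (0 : ℝ) < ((Fintype.card κ).factorial : ℝ) := by
  exact_mod_cast Nat.factorial_pos _

/-- Real version of the Gram expansion. -/
lemma permanent_gram_real [Fintype ι] (W : Matrix ι κ ℂ) :
    (Wᴴ * W).permanent
      = (((∑ f : κ → ι, Complex.normSq (selPer W f)) / ((Fintype.card κ).factorial : ℝ) : ℝ) : ℂ) := by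
  have h := permanent_gram_sq W
  have hn : ((Fintype.card κ).factorial : ℂ) ≠ 0 := by
    exact_mod_cast Nat.factorial_ne_zero _
  rw [Complex.ofReal_div, ← h]
  push_cast
  field_simp

lemma exists_gram {M : Matrix κ κ ℂ} (hM : M.PosSemidef) : ∃ Y : Matrix κ κ ℂ, M = Yᴴ * Y := by
  open scoped MatrixOrder in
  obtain ⟨a, ha⟩ := CStarAlgebra.nonneg_iff_eq_star_mul_self.mp hM.nonneg
  exact ⟨a, ha⟩

lemma permanent_nonneg_real {M : Matrix κ κ ℂ} (hM : M.PosSemidef) :
    0 ≤ M.permanent.re ∧ M.permanent = ((M.permanent.re : ℝ) : ℂ) := by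
  obtain ⟨Y, rfl⟩ := exists_gram hM
  rw [permanent_gram_real]
  constructor
  · rw [Complex.ofReal_re]
    exact div_nonneg (Finset.sum_nonneg fun f _ => Complex.normSq_nonneg _) factorial_pos_real.le
  · rw [Complex.ofReal_re]

/-- The permanent is monotone in the Loewner order on positive semidefinite matrices. -/
lemma permanent_mono {N D : Matrix κ κ ℂ} (hN : N.PosSemidef) (hD : D.PosSemidef) :
    N.permanent.re ≤ (N + D).permanent.re := by
  classical
  obtain ⟨Y, rfl⟩ := exists_gram hN
  obtain ⟨X, rfl⟩ := exists_gram hD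
  have e : Yᴴ * Y + Xᴴ * X = (fromRows Y X)ᴴ * fromRows Y X := by
    rw [conjTranspose_fromRows_eq_fromCols_conjTranspose, fromCols_mul_fromRows]
  rw [e, permanent_gram_real, permanent_gram_real, Complex.ofReal_re, Complex.ofReal_re]
  refine div_le_div_of_nonneg_right ?_ factorial_pos_real.le
  have h1 : ∀ f : κ → κ, selPer Y f = selPer (fromRows Y X) (fun i => Sum.inl (f i)) := fun f => rfl
  have hinj : Function.Injective (fun (f : κ → κ) => (fun i => (Sum.inl (f i) : κ ⊕ κ))) := by
    intro f g hfg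
    ext i
    have := congrFun hfg i
    simpa using this
  calc ∑ f : κ → κ, Complex.normSq (selPer Y f)
      = ∑ f : κ → κ, Complex.normSq (selPer (fromRows Y X) (fun i => Sum.inl (f i))) := rfl
    _ = ∑ g ∈ (Finset.univ : Finset (κ → κ)).map ⟨_, hinj⟩,
          Complex.normSq (selPer (fromRows Y X) g) := by
        rw [Finset.sum_map]; rfl
    _ ≤ ∑ g : κ → κ ⊕ κ, Complex.normSq (selPer (fromRows Y X) g) :=
        Finset.sum_le_sum_of_subset_of_nonneg (Finset.subset_univ _)
          (fun g _ _ => Complex.normSq_nonneg _)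

/-- Scale the row `none` by `t`. -/
noncomputable def scal {β : Type} (t : ℝ) (W : Matrix (Option β) κ ℂ) : Matrix (Option β) κ ℂ :=
  fun x j => if x.isNone then (t : ℂ) * W x j else W x j

lemma selPer_scal {β : Type} (t : ℝ) (W : Matrix (Option β) κ ℂ) (f : κ → Option β) :
    selPer (scal t W) f = (t : ℂ) ^ numNone f * selPer W f := by
  rw [selPer_eq, selPer_eq, Finset.mul_sum]
  refine Finset.sum_congr rfl fun σ _ => ?_
  have h1 : ∀ i, scal t W (f (σ i)) i
      = (t : ℂ) ^ (if (f (σ i)).isNone then 1 else 0) * W (f (σ i)) i := by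
    intro i
    unfold scal
    split_ifs <;> simp
  simp_rw [h1]
  rw [Finset.prod_mul_distrib, Finset.prod_pow_eq_pow_sum]
  congr 2
  exact Fintype.sum_equiv σ _ _ (fun i => rfl)

/-- The matrix `Y` with an additional row `star a`, indexed by `none`. -/
noncomputable def ext0 {β : Type} (a : κ → ℂ) (Y : Matrix β κ ℂ) : Matrix (Option β) κ ℂ :=
  Matrix.of fun x j => Option.elim x (star (a j)) (fun k => Y k j)

omit [Fintype κ] [DecidableEq κ] in
@[simp] lemma ext0_none {β : Type} (a : κ → ℂ) (Y : Matrix β κ ℂ) (j : κ) :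
    ext0 a Y none j = star (a j) := rfl

omit [Fintype κ] [DecidableEq κ] in
@[simp] lemma ext0_some {β : Type} (a : κ → ℂ) (Y : Matrix β κ ℂ) (k : β) (j : κ) :
    ext0 a Y (some k) j = Y k j := rfl

omit [Fintype κ] [DecidableEq κ] in
/-- Gram matrix of a matrix with a distinguished row. -/
lemma gram_option {β : Type} [Fintype β] (a : κ → ℂ) (Y : Matrix β κ ℂ)
    (t : ℝ) :
    (scal t (ext0 a Y))ᴴ * scal t (ext0 a Y)
      = Yᴴ * Y + ((t ^ 2 : ℝ) : ℂ) • vecMulVec a (star a) := by
  ext i j
  rw [Matrix.mul_apply, Fintype.sum_option, Matrix.add_apply, Matrix.mul_apply]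
  simp only [conjTranspose_apply, scal, Matrix.smul_apply, vecMulVec_apply, Pi.star_apply]
  simp
  ring

/-- Real form of the expansion of `per (YᴴY + t² a a*)`. -/
lemma permanent_gram_option {β : Type} [Fintype β] (a : κ → ℂ)
    (Y : Matrix β κ ℂ) (t : ℝ) :
    (Yᴴ * Y + ((t ^ 2 : ℝ) : ℂ) • vecMulVec a (star a)).permanent.re
      = (∑ f : κ → Option β, (t ^ 2) ^ numNone f * Complex.normSq
          (selPer (ext0 a Y) f))
        / ((Fintype.card κ).factorial : ℝ) := by
  rw [← gram_option, permanent_gram_real, Complex.ofReal_re]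
  congr 1
  refine Finset.sum_congr rfl fun f _ => ?_
  rw [selPer_scal, Complex.normSq_mul, map_pow, Complex.normSq_ofReal, ← pow_two]

omit [Fintype κ] [DecidableEq κ] in
/-- The bordered Gram matrix. -/
lemma gram_bord {β : Type} [Fintype β] (s : ℝ) (a : κ → ℂ) (Y : Matrix β κ ℂ)
    (M : Matrix (Option κ) (Option κ) ℂ) (hnn : M none none = ((s ^ 2 : ℝ) : ℂ))
    (hsn : ∀ j, M (some j) none = s * a j) (hns : ∀ j, M none (some j) = s * star (a j))
    (hss : ∀ i j, M (some i) (some j) = (Yᴴ * Y) i j + a i * star (a j)) :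
    M = (bord s (ext0 a Y))ᴴ * bord s (ext0 a Y) := by
  ext x y
  rw [Matrix.mul_apply, Fintype.sum_option]
  cases x with
  | none =>
    cases y with
    | none =>
      rw [hnn]
      simp [bord]
      ring
    | some j =>
      rw [hns]
      simp [bord]
  | some i =>
    cases y with
    | none =>
      rw [hsn]
      simp [bord]
      ring
    | some j =>
      rw [hss, Matrix.mul_apply]
      simp [bord]
      ring

lemma permanent_gram_bord {β : Type} [Fintype β] (s : ℝ) (a : κ → ℂ) (Y : Matrix β κ ℂ)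
    (M : Matrix (Option κ) (Option κ) ℂ) (hnn : M none none = ((s ^ 2 : ℝ) : ℂ))
    (hsn : ∀ j, M (some j) none = s * a j) (hns : ∀ j, M none (some j) = s * star (a j))
    (hss : ∀ i j, M (some i) (some j) = (Yᴴ * Y) i j + a i * star (a j)) :
    M.permanent.re = s ^ 2 * ((∑ f : κ → Option β, ((numNone f : ℝ) + 1) * Complex.normSq
          (selPer (ext0 a Y) f))
        / ((Fintype.card κ).factorial : ℝ)) := by
  have h := permanent_bord s (ext0 a Y)
  rw [← gram_bord s a Y M hnn hsn hns hss] at h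
  have hn : ((Fintype.card κ).factorial : ℝ) ≠ 0 := factorial_pos_real.ne'
  have h2 := congrArg Complex.re h
  rw [Complex.ofReal_re, ← Complex.ofReal_natCast, Complex.re_ofReal_mul] at h2
  rw [← mul_div_assoc, ← h2]
  field_simp

end Pool.Agent.Lib.MP_6947cd_al
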