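import Pool.Agent.Lib.MP_6947cd_al.Step

set_option autoImplicit false
open scoped Matrix ComplexOrder
open Matrix Finset

namespace Pool.Agent.Lib.MP_6947cd_al

variable {κ : Type} [Fintype κ] [DecidableEq κ]

/-- A zero diagonal entry of a positive semidefinite matrix forces a zero column. -/
lemma col_eq_zero {M : Matrix κ κ ℂ} (hM : M.PosSemidef) (k : κ) (hk : M k k = 0) (x : κ) :
    M x k = 0 := by
  obtain ⟨Y, rfl⟩ := exists_gram hM
  have h1 : ∀ i, Y i k = 0 := by
    have h2 : ∑ i, Complex.normSq (Y i k) = 0 := by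
      have h3 : ((∑ i, Complex.normSq (Y i k) : ℝ) : ℂ) = 0 := by
        rw [← hk, Matrix.mul_apply]
        push_cast
        refine Finset.sum_congr rfl fun i _ => ?_
        rw [conjTranspose_apply, Complex.normSq_eq_conj_mul_self]
        rfl
      exact_mod_cast h3
    intro i
    have h4 := (Finset.sum_eq_zero_iff_of_nonneg (fun i _ => Complex.normSq_nonneg (Y i k))).mp h2 i
      (Finset.mem_univ i)
    exact Complex.normSq_eq_zero.mp h4
  rw [Matrix.mul_apply]
  exact Finset.sum_eq_zero fun i _ => by rw [h1 i, mul_zero]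

/-- Schur complement of the corner `none`. -/
lemma schur_corner {M : Matrix (Option κ) (Option κ) ℂ} (hM : M.PosSemidef) (s : ℝ) (hs : s ≠ 0)
    (hnn : M none none = ((s ^ 2 : ℝ) : ℂ)) (a : κ → ℂ) (ha : ∀ j, M (some j) none = s * a j) :
    (Matrix.of fun i j => M (some i) (some j) - a i * star (a j) : Matrix κ κ ℂ).PosSemidef := by
  set P : Matrix (Option κ) κ ℂ :=
    Matrix.of fun x j => Option.elim x (-(star (a j)) / s) (fun i => if i = j then 1 else 0) with hP
  have h := hM.conjTranspose_mul_mul_same P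
  have hns : ∀ j, M none (some j) = s * star (a j) := by
    intro j
    have := hM.1.apply none (some j)
    rw [← this, ha]
    simp [star_mul']
  have hs' : (s : ℂ) ≠ 0 := by exact_mod_cast hs
  have hPn : ∀ j, P none j = -(star (a j)) / s := fun j => rfl
  have hPs : ∀ i j, P (some i) j = if i = j then 1 else 0 := fun i j => rfl
  convert h using 1
  ext i j
  rw [Matrix.mul_apply, Fintype.sum_option]
  simp_rw [Matrix.mul_apply, Fintype.sum_option, conjTranspose_apply, hPn, hPs]
  rw [Matrix.of_apply, hnn]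
  simp_rw [hns, ha]
  simp only [star_div₀, star_neg, Complex.star_def, Complex.conj_ofReal,
    apply_ite (starRingEnd ℂ), map_one, map_zero, ite_mul, one_mul, zero_mul,
    mul_ite, mul_one, mul_zero, Finset.sum_ite_eq', Finset.mem_univ, if_true,
    Complex.conj_conj]
  push_cast
  field_simp
  ring

/-- The permanent of `M ∘ Mᵀ` vanishes if `M` has a zero diagonal entry. -/
lemma permanent_hadamard_of_zero {M : Matrix (Option κ) (Option κ) ℂ} (hM : M.PosSemidef)
    (h0 : M none none = 0) : (M ⊙ Mᵀ).permanent = 0 := by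
  unfold permanent
  refine Finset.sum_eq_zero fun σ _ => Finset.prod_eq_zero (Finset.mem_univ none) ?_
  rw [hadamard_apply, col_eq_zero hM none h0, zero_mul]

/-- The induction step, in quantitative form. -/
theorem step (u K L C : ℝ) (hu : 1 ≤ u)
    (hK : ∀ m : ℕ, m ≤ Fintype.card κ → (m : ℝ) + 1 ≤ K * (u ^ 2) ^ m)
    (hL : ∀ m : ℕ, m ≤ Fintype.card κ → u ^ m ≤ L * ((m : ℝ) + 1))
    (hK0 : 0 ≤ K) (hC0 : 0 ≤ C)
    (hC : ∀ A : Matrix κ κ ℂ, A.PosSemidef → (A ⊙ Aᵀ).permanent.re ≤ C * A.permanent.re ^ 2)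
    (M : Matrix (Option κ) (Option κ) ℂ) (hM : M.PosSemidef) :
    (M ⊙ Mᵀ).permanent.re ≤ K * L ^ 2 * C * M.permanent.re ^ 2 := by
  by_cases h0 : M none none = 0
  · rw [permanent_hadamard_of_zero hM h0]
    have : 0 ≤ K * L ^ 2 * C * M.permanent.re ^ 2 := by positivity
    simpa using this
  -- normalisation of the corner
  have hd := hM.diag_nonneg (i := none)
  obtain ⟨hdre, hdim⟩ := Complex.nonneg_iff.mp hd
  have hre : M none none = ((M none none).re : ℂ) := by
    apply Complex.ext
    · simp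
    · simp [← hdim]
  set c : ℝ := (M none none).re with hc
  have hcpos : 0 < c := by
    rcases hdre.lt_or_eq with h | h
    · exact h
    · exfalso; apply h0; rw [hre, ← h]; simp
  set s : ℝ := Real.sqrt c with hs
  have hspos : 0 < s := Real.sqrt_pos.mpr hcpos
  have hs2 : s ^ 2 = c := Real.sq_sqrt hcpos.le
  have hs' : (s : ℂ) ≠ 0 := by exact_mod_cast hspos.ne'
  set a : κ → ℂ := fun j => M (some j) none / s with ha
  have hnn : M none none = ((s ^ 2 : ℝ) : ℂ) := by rw [hre, hs2]
  have hsn : ∀ j, M (some j) none = s * a j := by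
    intro j; simp only [ha]; field_simp
  have hns : ∀ j, M none (some j) = s * star (a j) := by
    intro j
    have := hM.1.apply none (some j)
    rw [← this, hsn]
    simp [star_mul']
  have hA' := schur_corner hM s hspos.ne' hnn a hsn
  set A' : Matrix κ κ ℂ := Matrix.of fun i j => M (some i) (some j) - a i * star (a j) with hA'def
  obtain ⟨Y, hY⟩ := exists_gram hA'
  have hss : ∀ i j, M (some i) (some j) = (Yᴴ * Y) i j + a i * star (a j) := by
    intro i j
    rw [← hY, hA'def, Matrix.of_apply]; ring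
  -- first expansion
  have hS := permanent_gram_bord s a Y M hnn hsn hns hss
  -- rank one part
  have hR : (vecMulVec a (star a) : Matrix κ κ ℂ).PosSemidef := posSemidef_vecMulVec_self_star a
  set R : Matrix κ κ ℂ := vecMulVec a (star a) with hRdef
  have hCr : (A' ⊙ Rᵀ + R ⊙ A'ᵀ).PosSemidef :=
    (hA'.hadamard hR.transpose).add (hR.hadamard hA'.transpose)
  have hE : (A' ⊙ A'ᵀ + (A' ⊙ Rᵀ + R ⊙ A'ᵀ)).PosSemidef :=
    (hA'.hadamard hA'.transpose).add hCr
  obtain ⟨Z, hZ⟩ := exists_gram hE
  set b : κ → ℂ := fun j => a j * star (a j) with hb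
  have hbstar : ∀ j, star (b j) = b j := by
    intro j; simp only [hb, star_mul', star_star]; ring
  have hT := permanent_gram_bord (s ^ 2) b Z (M ⊙ Mᵀ)
    (by rw [hadamard_apply, transpose_apply, hnn]; push_cast; ring)
    (fun j => by
      rw [hadamard_apply, transpose_apply, hsn, hns]; simp only [hb]; push_cast; ring)
    (fun j => by
      rw [hadamard_apply, transpose_apply, hsn, hns, hbstar]; simp only [hb]; push_cast; ring)
    (fun i j => by
      rw [← hZ, hadamard_apply, transpose_apply, hss, hss, ← hY]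
      simp only [hb, Matrix.add_apply, hadamard_apply, transpose_apply, hRdef, vecMulVec_apply,
        Pi.star_apply, star_mul', star_star]
      ring)
  -- comparison of the weights for the squared matrix
  have h1 : ∑ f : κ → Option κ, ((numNone f : ℝ) + 1) * Complex.normSq (selPer (ext0 b Z) f)
      ≤ K * ∑ f : κ → Option κ, (u ^ 2) ^ numNone f * Complex.normSq (selPer (ext0 b Z) f) := by
    rw [Finset.mul_sum]
    refine Finset.sum_le_sum fun f _ => ?_
    rw [← mul_assoc]
    exact mul_le_mul_of_nonneg_right (hK _ (numNone_le f)) (Complex.normSq_nonneg _)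
  have h2 := permanent_gram_option b Z u
  have h3 : (Zᴴ * Z + ((u ^ 2 : ℝ) : ℂ) • vecMulVec b (star b)).permanent.re
      ≤ ((Yᴴ * Y + ((u : ℝ) : ℂ) • R) ⊙ (Yᴴ * Y + ((u : ℝ) : ℂ) • R)ᵀ).permanent.re := by
    have e : (Yᴴ * Y + ((u : ℝ) : ℂ) • R) ⊙ (Yᴴ * Y + ((u : ℝ) : ℂ) • R)ᵀ
        = (Zᴴ * Z + ((u ^ 2 : ℝ) : ℂ) • vecMulVec b (star b))
          + ((u - 1 : ℝ) : ℂ) • (A' ⊙ Rᵀ + R ⊙ A'ᵀ) := by
      rw [← hY, ← hZ]
      ext i j
      simp only [hb, Matrix.add_apply, hadamard_apply, transpose_apply, Matrix.smul_apply, hRdef,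
        vecMulVec_apply, Pi.star_apply, star_mul', star_star, smul_eq_mul]
      push_cast
      ring
    rw [e]
    refine permanent_mono ?_ ?_
    · refine (posSemidef_conjTranspose_mul_self Z).add
        ((posSemidef_vecMulVec_self_star b).smul ?_)
      rw [Complex.zero_le_real]; positivity
    · refine hCr.smul ?_
      rw [Complex.zero_le_real]; linarith
  have hpsd : (Yᴴ * Y + ((u : ℝ) : ℂ) • R).PosSemidef := by
    refine (posSemidef_conjTranspose_mul_self Y).add (hR.smul ?_)
    rw [Complex.zero_le_real]; linarith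
  have h4 := hC _ hpsd
  have h5 : (Yᴴ * Y + ((u : ℝ) : ℂ) • R).permanent.re
      = (∑ f : κ → Option κ, u ^ numNone f * Complex.normSq (selPer (ext0 a Y) f))
        / ((Fintype.card κ).factorial : ℝ) := by
    have h6 := permanent_gram_option a Y (Real.sqrt u)
    rw [Real.sq_sqrt (by linarith)] at h6
    exact h6
  have h7 : ∑ f : κ → Option κ, u ^ numNone f * Complex.normSq (selPer (ext0 a Y) f)
      ≤ L * ∑ f : κ → Option κ, ((numNone f : ℝ) + 1) * Complex.normSq (selPer (ext0 a Y) f) := by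
    rw [Finset.mul_sum]
    refine Finset.sum_le_sum fun f _ => ?_
    rw [← mul_assoc]
    exact mul_le_mul_of_nonneg_right (hL _ (numNone_le f)) (Complex.normSq_nonneg _)
  have hN : (0 : ℝ) < ((Fintype.card κ).factorial : ℝ) := factorial_pos_real
  set N : ℝ := ((Fintype.card κ).factorial : ℝ) with hNdef
  set X1 : ℝ := ∑ f : κ → Option κ, ((numNone f : ℝ) + 1) * Complex.normSq (selPer (ext0 b Z) f)
  set X2 : ℝ := ∑ f : κ → Option κ, (u ^ 2) ^ numNone f * Complex.normSq (selPer (ext0 b Z) f)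
  set Y1 : ℝ := ∑ f : κ → Option κ, ((numNone f : ℝ) + 1) * Complex.normSq (selPer (ext0 a Y) f)
  set Y2 : ℝ := ∑ f : κ → Option κ, u ^ numNone f * Complex.normSq (selPer (ext0 a Y) f)
  have hY2 : 0 ≤ Y2 := Finset.sum_nonneg fun f _ =>
    mul_nonneg (pow_nonneg (by linarith) _) (Complex.normSq_nonneg _)
  have h8 : X2 / N ≤ C * (L * Y1 / N) ^ 2 := by
    calc X2 / N ≤ C * (Y2 / N) ^ 2 := by
          rw [← h2, ← h5]
          exact h3.trans h4
      _ ≤ C * (L * Y1 / N) ^ 2 := by
          refine mul_le_mul_of_nonneg_left ?_ hC0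
          refine pow_le_pow_left₀ (div_nonneg hY2 hN.le) ?_ 2
          exact div_le_div_of_nonneg_right h7 hN.le
  rw [hT, hS]
  calc (s ^ 2) ^ 2 * (X1 / N) ≤ (s ^ 2) ^ 2 * (K * (X2 / N)) := by
        refine mul_le_mul_of_nonneg_left ?_ (by positivity)
        rw [← mul_div_assoc]
        exact div_le_div_of_nonneg_right h1 hN.le
    _ ≤ (s ^ 2) ^ 2 * (K * (C * (L * Y1 / N) ^ 2)) := by
        refine mul_le_mul_of_nonneg_left ?_ (by positivity)
        exact mul_le_mul_of_nonneg_left h8 hK0
    _ = K * L ^ 2 * C * (s ^ 2 * (Y1 / N)) ^ 2 := by ring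

end Pool.Agent.Lib.MP_6947cd_al
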