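import Mathlib

set_option autoImplicit false
open scoped Matrix
open Matrix Finset

namespace Pool.Agent.Lib.MP_6947cd_al
namespace Ent

/-- The probability that a given set of `k` elements is the set of later elements of a fixed element in a
uniformly random order of `n` elements. -/
noncomputable def w (n k : ℕ) : ℝ :=
  (k.factorial : ℝ) * ((n - 1 - k).factorial : ℝ) / (n.factorial : ℝ)

/-- The average over a random order of the logarithm of the mass of the columns of `C` still available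
when the column `j` is chosen. -/
noncomputable def ell {α : Type} [DecidableEq α] (C : Finset α) (y : α → ℝ) (j : α) : ℝ :=
  ∑ K ∈ (C.erase j).powerset, w C.card K.card * Real.log (y j + ∑ k ∈ K, y k)

lemma w_top (m : ℕ) : w (m + 1) m = 1 / ((m : ℝ) + 1) := by
  unfold w
  have h : ((m.factorial : ℕ) : ℝ) ≠ 0 := by exact_mod_cast Nat.factorial_ne_zero m
  have h2 : ((m : ℝ) + 1) ≠ 0 := by positivity
  rw [show m + 1 - 1 - m = 0 by omega, Nat.factorial_succ]
  push_cast
  simp
  field_simp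

lemma w_rec (m k : ℕ) (hk : k < m) :
    w (m + 1) k = 1 / ((m : ℝ) + 1) * (((m - k : ℕ) : ℝ) * w m k) := by
  unfold w
  obtain ⟨d, rfl⟩ : ∃ d, m = k + d + 1 := ⟨m - k - 1, by omega⟩
  rw [show k + d + 1 + 1 - 1 - k = d + 1 by omega, show k + d + 1 - 1 - k = d by omega,
    show k + d + 1 - k = d + 1 by omega, Nat.factorial_succ d, Nat.factorial_succ (k + d + 1)]
  have h : (((k + d + 1).factorial : ℕ) : ℝ) ≠ 0 := by
    exact_mod_cast Nat.factorial_ne_zero _
  have h2 : ((k + d + 1 : ℕ) : ℝ) + 1 ≠ 0 := by positivity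
  push_cast at h2 ⊢
  field_simp

/-- Conditioning on the first element of the order. -/
lemma ell_rec {α : Type} [DecidableEq α] (C : Finset α) (y : α → ℝ) (j : α) (hj : j ∈ C) :
    ell C y j = 1 / (C.card : ℝ) *
      (Real.log (∑ k ∈ C, y k) + ∑ c ∈ C.erase j, ell (C.erase c) y j) := by
  obtain ⟨m, hm⟩ : ∃ m, C.card = m + 1 := ⟨C.card - 1, by
    have := Finset.card_pos.mpr ⟨j, hj⟩; omega⟩
  have hD : (C.erase j).card = m := by rw [Finset.card_erase_of_mem hj, hm]; omega
  have h1 : ∑ c ∈ C.erase j, ell (C.erase c) y j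
      = ∑ K ∈ (C.erase j).powerset,
          (((m - K.card : ℕ) : ℝ) * w m K.card) * Real.log (y j + ∑ k ∈ K, y k) := by
    have h2 : ∑ c ∈ C.erase j, ell (C.erase c) y j
        = ∑ c ∈ C.erase j, ∑ K ∈ ((C.erase c).erase j).powerset,
            w m K.card * Real.log (y j + ∑ k ∈ K, y k) := by
      refine Finset.sum_congr rfl fun c hc => ?_
      unfold ell
      rw [Finset.card_erase_of_mem (Finset.mem_of_mem_erase hc), hm]
      rfl
    rw [h2, Finset.sum_comm' (t' := (C.erase j).powerset) (s' := fun K => (C.erase j) \ K)]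
    · refine Finset.sum_congr rfl fun K hK => ?_
      rw [Finset.mem_powerset] at hK
      rw [Finset.sum_const, Finset.card_sdiff_of_subset hK, hD, nsmul_eq_mul, mul_assoc]
    · intro c K
      simp only [Finset.mem_erase, Finset.mem_powerset, Finset.mem_sdiff, Finset.subset_iff]
      constructor
      · rintro ⟨⟨h1, h2⟩, h3⟩
        refine ⟨⟨⟨h1, h2⟩, fun hcK => (h3 hcK).2.1 rfl⟩, fun a ha => ⟨(h3 ha).1, (h3 ha).2.2⟩⟩
      · rintro ⟨⟨⟨h1, h2⟩, h3⟩, h4⟩
        refine ⟨⟨h1, h2⟩, fun a ha => ⟨(h4 ha).1, ?_, (h4 ha).2⟩⟩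
        rintro rfl
        exact h3 ha
  rw [h1, hm]
  have h3 : Real.log (∑ k ∈ C, y k) = ∑ K ∈ (C.erase j).powerset,
      (if K = C.erase j then Real.log (y j + ∑ k ∈ K, y k) else 0) := by
    rw [Finset.sum_ite_eq' (C.erase j).powerset (C.erase j)
      (fun K => Real.log (y j + ∑ k ∈ K, y k)), if_pos (Finset.mem_powerset_self _),
      Finset.add_sum_erase C y hj]
  rw [h3, ← Finset.sum_add_distrib, Finset.mul_sum]
  unfold ell
  refine Finset.sum_congr rfl fun K hK => ?_
  rw [Finset.mem_powerset] at hK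
  rw [hm]
  by_cases hKD : K = C.erase j
  · rw [if_pos hKD]
    have : K.card = m := by rw [hKD, hD]
    rw [this, w_top]
    push_cast
    simp
  · rw [if_neg hKD]
    have : K.card < m := by
      rw [← hD]; exact Finset.card_lt_card (lt_of_le_of_ne hK hKD)
    rw [w_rec m K.card this]
    push_cast
    ring

lemma ell_map {α β : Type} [DecidableEq α] [DecidableEq β] (e : α ↪ β) (C : Finset α) (y : β → ℝ)
    (j : α) : ell (C.map e) y (e j) = ell C (fun a => y (e a)) j := by
  unfold ell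
  rw [Finset.card_map, ← Finset.map_erase]
  refine (Finset.sum_bij (fun K _ => K.map e) ?_ ?_ ?_ ?_).symm
  · intro K hK
    rw [Finset.mem_powerset] at hK ⊢
    exact Finset.map_subset_map.mpr hK
  · intro K _ K' _ h
    exact Finset.map_injective e h
  · intro K hK
    rw [Finset.mem_powerset] at hK
    obtain ⟨K', hK', rfl⟩ := Finset.subset_map_iff.mp hK
    exact ⟨K', Finset.mem_powerset.mpr hK', rfl⟩
  · intro K _
    rw [Finset.card_map, Finset.sum_map]

variable {κ : Type} [Fintype κ] [DecidableEq κ]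

/-- The embedding of `κ` into `Option κ` that misses `c`. -/
def emb (c : Option κ) : κ ↪ Option κ :=
  ⟨fun i => Equiv.swap none c (some i), fun i j h => by simpa using h⟩

lemma map_emb (c : Option κ) : (Finset.univ : Finset κ).map (emb c) = Finset.univ.erase c := by
  ext a
  simp only [Finset.mem_map, Finset.mem_univ, true_and, Finset.mem_erase, and_true]
  constructor
  · rintro ⟨i, rfl⟩ h
    have : Equiv.swap none c (some i) = Equiv.swap none c none := by
      rw [Equiv.swap_apply_left]; exact h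
    exact absurd ((Equiv.swap none c).injective this) (by simp)
  · intro h
    obtain ⟨b, hb⟩ : ∃ b, Equiv.swap none c b = a := (Equiv.swap none c).surjective a
    cases b with
    | none => rw [Equiv.swap_apply_left] at hb; exact absurd hb.symm h
    | some i => exact ⟨i, hb⟩

/-- The permutation of `Option κ` given by a permutation of `κ`, with `r` mapped to `c`. -/
def ins (r c : Option κ) (τ : Equiv.Perm κ) : Equiv.Perm (Option κ) :=
  Equiv.Perm.decomposeOption.symm (c, τ) * Equiv.swap none r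

omit [Fintype κ] in
lemma ins_r (r c : Option κ) (τ : Equiv.Perm κ) : ins r c τ r = c := by
  unfold ins
  rw [Equiv.Perm.mul_apply, Equiv.swap_apply_right]
  simp [Equiv.Perm.decomposeOption_symm_apply]

omit [Fintype κ] in
lemma ins_emb (r c : Option κ) (τ : Equiv.Perm κ) (i : κ) :
    ins r c τ (emb r i) = emb c (τ i) := by
  show (Equiv.Perm.decomposeOption.symm (c, τ)) (Equiv.swap none r (Equiv.swap none r (some i)))
    = Equiv.swap none c (some (τ i))
  simp [Equiv.Perm.decomposeOption_symm_apply]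

lemma sum_ins (r : Option κ) (f : Equiv.Perm (Option κ) → ℝ) :
    ∑ σ, f σ = ∑ c : Option κ, ∑ τ : Equiv.Perm κ, f (ins r c τ) := by
  have h1 : ∑ σ, f σ = ∑ σ : Equiv.Perm (Option κ), f (σ * Equiv.swap none r) :=
    (Fintype.sum_equiv (Equiv.mulRight (Equiv.swap none r)) _ _ (fun σ => rfl)).symm
  have h2 : ∑ σ : Equiv.Perm (Option κ), f (σ * Equiv.swap none r)
      = ∑ p : Option κ × Equiv.Perm κ,
          f (Equiv.Perm.decomposeOption.symm p * Equiv.swap none r) :=
    (Fintype.sum_equiv Equiv.Perm.decomposeOption.symm _ _ (fun p => rfl)).symm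
  rw [h1, h2, Fintype.sum_prod_type]
  rfl

/-- The certificate measure. -/
noncomputable def Qm (x : κ → κ → ℝ) (σ : Equiv.Perm κ) : ℝ :=
  (∏ i, x i (σ i)) * Real.exp (-∑ i, ell Finset.univ (x i) (σ i))

lemma Qm_nonneg (x : κ → κ → ℝ) (hx : ∀ i j, 0 ≤ x i j) (σ : Equiv.Perm κ) : 0 ≤ Qm x σ :=
  mul_nonneg (Finset.prod_nonneg fun i _ => hx _ _) (Real.exp_pos _).le

/-- The same with the element `r` first in the order. -/
noncomputable def Br (x : Option κ → Option κ → ℝ) (r : Option κ) (σ : Equiv.Perm (Option κ)) : ℝ :=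
  x r (σ r) / (∑ k, x r k) * ((∏ i ∈ Finset.univ.erase r, x i (σ i)) *
    Real.exp (-∑ i ∈ Finset.univ.erase r, ell (Finset.univ.erase (σ r)) (x i) (σ i)))

lemma Br_nonneg (x : Option κ → Option κ → ℝ) (hx : ∀ i j, 0 ≤ x i j) (r : Option κ)
    (σ : Equiv.Perm (Option κ)) : 0 ≤ Br x r σ :=
  mul_nonneg (div_nonneg (hx _ _) (Finset.sum_nonneg fun k _ => hx _ _))
    (mul_nonneg (Finset.prod_nonneg fun i _ => hx _ _) (Real.exp_pos _).le)

lemma Br_ins (x : Option κ → Option κ → ℝ) (r c : Option κ) (τ : Equiv.Perm κ) :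
    Br x r (ins r c τ) = x r c / (∑ k, x r k) * Qm (fun i j => x (emb r i) (emb c j)) τ := by
  unfold Br Qm
  rw [ins_r, ← map_emb r, Finset.prod_map, Finset.sum_map]
  have h : ∀ i, ell (Finset.univ.erase c) (x (emb r i)) (emb c (τ i))
      = ell Finset.univ (fun j => x (emb r i) (emb c j)) (τ i) := by
    intro i
    rw [← map_emb c, ell_map]
  simp only [ins_emb, h]

lemma Qm_le (x : Option κ → Option κ → ℝ) (hx : ∀ i j, 0 ≤ x i j) (σ : Equiv.Perm (Option κ)) :
    Qm x σ ≤ 1 / (Fintype.card (Option κ) : ℝ) * ∑ r, Br x r σ := by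
  set n : ℝ := (Fintype.card (Option κ) : ℝ) with hn
  have hn0 : 0 < n := by rw [hn]; exact_mod_cast Fintype.card_pos
  by_cases hz : ∃ i, x i (σ i) = 0
  · obtain ⟨i, hi⟩ := hz
    have : Qm x σ = 0 := by
      unfold Qm
      rw [Finset.prod_eq_zero (Finset.mem_univ i) hi, zero_mul]
    rw [this]
    exact mul_nonneg (by positivity) (Finset.sum_nonneg fun r _ => Br_nonneg x hx r σ)
  push Not at hz
  have hpos : ∀ i, 0 < x i (σ i) := fun i => lt_of_le_of_ne (hx _ _) (Ne.symm (hz i))
  have hS : ∀ i, 0 < ∑ k, x i k := fun i =>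
    lt_of_lt_of_le (hpos i) (Finset.single_le_sum (fun k _ => hx i k) (Finset.mem_univ (σ i)))
  set A : Option κ → ℝ := fun r => Real.log (x r (σ r)) - Real.log (∑ k, x r k)
    + ∑ i ∈ Finset.univ.erase r, (Real.log (x i (σ i))
      - ell (Finset.univ.erase (σ r)) (x i) (σ i)) with hA
  have hBr : ∀ r, Br x r σ = Real.exp (A r) := by
    intro r
    have hprod : ∏ i ∈ Finset.univ.erase r, x i (σ i)
        = Real.exp (∑ i ∈ Finset.univ.erase r, Real.log (x i (σ i))) := by
      rw [Real.exp_sum]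
      exact Finset.prod_congr rfl fun i _ => (Real.exp_log (hpos i)).symm
    unfold Br
    simp only [hA]
    rw [Real.exp_add, Real.exp_sub, Real.exp_log (hpos r), Real.exp_log (hS r),
      Finset.sum_sub_distrib, sub_eq_add_neg (∑ i ∈ Finset.univ.erase r, Real.log (x i (σ i))),
      Real.exp_add, ← hprod]
  have hQ : Qm x σ = Real.exp (∑ i, (Real.log (x i (σ i)) - ell Finset.univ (x i) (σ i))) := by
    unfold Qm
    rw [Finset.sum_sub_distrib, sub_eq_add_neg, Real.exp_add, Real.exp_sum]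
    congr 1
    exact Finset.prod_congr rfl fun i _ => (Real.exp_log (hpos i)).symm
  -- the average of `A`
  have havg : ∑ i, (Real.log (x i (σ i)) - ell Finset.univ (x i) (σ i))
      = ∑ r, (1 / n) * A r := by
    have h1 : ∀ i, ell Finset.univ (x i) (σ i) = 1 / n * (Real.log (∑ k, x i k)
        + ∑ r ∈ Finset.univ.erase i, ell (Finset.univ.erase (σ r)) (x i) (σ i)) := by
      intro i
      rw [ell_rec Finset.univ (x i) (σ i) (Finset.mem_univ _), Finset.card_univ, hn]
      congr 2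
      refine (Finset.sum_bij (fun r _ => σ r) ?_ ?_ ?_ ?_).symm
      · intro r hr
        rw [Finset.mem_erase] at hr ⊢
        exact ⟨fun h => hr.1 (σ.injective h), Finset.mem_univ _⟩
      · intro a _ b _ h
        exact σ.injective h
      · intro c hc
        rw [Finset.mem_erase] at hc
        refine ⟨σ.symm c, ?_, by simp⟩
        rw [Finset.mem_erase]
        refine ⟨fun h => hc.1 (by rw [← h]; simp), Finset.mem_univ _⟩
      · intro r _
        rfl
    have h2 : ∀ f : Option κ → Option κ → ℝ,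
        ∑ r, ∑ i ∈ Finset.univ.erase r, f i r = ∑ i, ∑ r ∈ Finset.univ.erase i, f i r := by
      intro f
      refine Finset.sum_comm' ?_
      intro a b
      simp only [Finset.mem_univ, Finset.mem_erase, ne_eq, and_true, true_and]
      exact ⟨fun h => fun h' => h h'.symm, fun h => fun h' => h h'.symm⟩
    have h3 : ∀ r, ∑ i ∈ Finset.univ.erase r, Real.log (x i (σ i))
        = (∑ i, Real.log (x i (σ i))) - Real.log (x r (σ r)) := by
      intro r
      rw [← Finset.add_sum_erase Finset.univ (fun i => Real.log (x i (σ i))) (Finset.mem_univ r)]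
      ring
    rw [Finset.sum_sub_distrib, ← Finset.mul_sum, Finset.sum_congr rfl fun i _ => h1 i,
      ← Finset.mul_sum, Finset.sum_add_distrib]
    simp only [hA]
    rw [Finset.sum_add_distrib, Finset.sum_sub_distrib]
    simp only [Finset.sum_sub_distrib, h3]
    rw [h2 (fun i r => ell (Finset.univ.erase (σ r)) (x i) (σ i)), Finset.sum_const,
      Finset.card_univ, nsmul_eq_mul, ← hn]
    field_simp
    ring
  rw [hQ, havg, Finset.mul_sum]
  have hconv := convexOn_exp.map_sum_le (t := (Finset.univ : Finset (Option κ)))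
    (w := fun _ => 1 / n) (p := A) (fun _ _ => by positivity)
    (by rw [Finset.sum_const, Finset.card_univ, nsmul_eq_mul, ← hn]; field_simp)
    (fun _ _ => Set.mem_univ _)
  simp only [smul_eq_mul] at hconv
  refine hconv.trans (le_of_eq ?_)
  exact Finset.sum_congr rfl fun r _ => by rw [hBr]

lemma sum_Br_le (x : Option κ → Option κ → ℝ) (hx : ∀ i j, 0 ≤ x i j)
    (ih : ∀ y : κ → κ → ℝ, (∀ i j, 0 ≤ y i j) → ∑ τ, Qm y τ ≤ 1) (r : Option κ) :
    ∑ σ, Br x r σ ≤ 1 := by
  rw [sum_ins r]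
  have h1 : ∀ c : Option κ, ∑ τ : Equiv.Perm κ, Br x r (ins r c τ) ≤ x r c / ∑ k, x r k := by
    intro c
    rw [Finset.sum_congr rfl fun τ _ => Br_ins x r c τ, ← Finset.mul_sum]
    exact mul_le_of_le_one_right
      (div_nonneg (hx _ _) (Finset.sum_nonneg fun k _ => hx _ _)) (ih _ fun i j => hx _ _)
  refine (Finset.sum_le_sum fun c _ => h1 c).trans ?_
  rw [← Finset.sum_div]
  exact div_self_le_one _

lemma step (ih : ∀ y : κ → κ → ℝ, (∀ i j, 0 ≤ y i j) → ∑ τ, Qm y τ ≤ 1)
    (x : Option κ → Option κ → ℝ) (hx : ∀ i j, 0 ≤ x i j) : ∑ σ, Qm x σ ≤ 1 := by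
  have hn0 : 0 < (Fintype.card (Option κ) : ℝ) := by exact_mod_cast Fintype.card_pos
  calc ∑ σ, Qm x σ
      ≤ ∑ σ, 1 / (Fintype.card (Option κ) : ℝ) * ∑ r, Br x r σ :=
        Finset.sum_le_sum fun σ _ => Qm_le x hx σ
    _ = 1 / (Fintype.card (Option κ) : ℝ) * ∑ r, ∑ σ, Br x r σ := by
        rw [← Finset.mul_sum, Finset.sum_comm]
    _ ≤ 1 / (Fintype.card (Option κ) : ℝ) * ∑ _r : Option κ, 1 :=
        mul_le_mul_of_nonneg_left (Finset.sum_le_sum fun r _ => sum_Br_le x hx ih r)
          (by positivity)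
    _ = 1 := by
        rw [Finset.sum_const, Finset.card_univ, nsmul_eq_mul]
        field_simp

lemma Qm_equiv {κ' : Type} [Fintype κ'] [DecidableEq κ'] (e : κ' ≃ κ) (x : κ → κ → ℝ) :
    ∑ τ : Equiv.Perm κ', Qm (fun i j => x (e i) (e j)) τ = ∑ σ : Equiv.Perm κ, Qm x σ := by
  refine Fintype.sum_equiv (Equiv.permCongr e) _ _ fun τ => ?_
  unfold Qm
  have h1 : ∏ i, x (e i) (e (τ i)) = ∏ i, x i ((Equiv.permCongr e) τ i) :=
    Fintype.prod_equiv e _ _ fun i => by simp [Equiv.permCongr_apply]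
  have h2 : ∑ i, ell Finset.univ (fun j => x (e i) (e j)) (τ i)
      = ∑ i, ell Finset.univ (x i) ((Equiv.permCongr e) τ i) := by
    refine Fintype.sum_equiv e _ _ fun i => ?_
    have h3 := ell_map e.toEmbedding Finset.univ (x (e i)) (τ i)
    rw [Finset.map_univ_equiv] at h3
    simp only [Equiv.coe_toEmbedding] at h3
    rw [← h3]
    simp [Equiv.permCongr_apply]
  rw [h1, h2]

theorem Qm_fin (n : ℕ) : ∀ x : Fin n → Fin n → ℝ, (∀ i j, 0 ≤ x i j) → ∑ σ, Qm x σ ≤ 1 := by
  induction n with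
  | zero =>
    intro x _
    simp [Qm]
  | succ n ih =>
    intro x hx
    have e := (finSuccEquiv n).symm
    rw [← Qm_equiv e x]
    exact step ih _ fun i j => hx _ _

/-- The certificate measure is a sub-probability on the permutations. -/
theorem sum_Qm_le (x : κ → κ → ℝ) (hx : ∀ i j, 0 ≤ x i j) : ∑ σ, Qm x σ ≤ 1 := by
  have e := (Fintype.equivFin κ).symm
  rw [← Qm_equiv e x]
  exact Qm_fin _ _ fun i j => hx _ _

lemma permanent_rows (M : Matrix κ κ ℝ) : M.permanent = ∑ σ : Equiv.Perm κ, ∏ i, M i (σ i) := by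
  rw [← Matrix.permanent_transpose]
  rfl

/-- (T2), maximum form: the entropy bound of Bregman and Radhakrishnan with an arbitrary certificate. -/
theorem permanent_le_exp (M : Matrix κ κ ℝ) (h0 : ∀ i j, 0 ≤ M i j) (x : κ → κ → ℝ)
    (hx0 : ∀ i j, 0 ≤ x i j) (hx : ∀ i j, M i j ≠ 0 → 0 < x i j) (F : κ → ℝ)
    (hF : ∀ i j, M i j ≠ 0 →
      Real.log (M i j) - Real.log (x i j) + ell Finset.univ (x i) j ≤ F i) :
    M.permanent ≤ Real.exp (∑ i, F i) := by
  rw [permanent_rows]
  have h1 : ∀ σ : Equiv.Perm κ, ∏ i, M i (σ i) ≤ Real.exp (∑ i, F i) * Qm x σ := by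
    intro σ
    by_cases hz : ∃ i, M i (σ i) = 0
    · obtain ⟨i, hi⟩ := hz
      rw [Finset.prod_eq_zero (Finset.mem_univ i) hi]
      exact mul_nonneg (Real.exp_pos _).le (Qm_nonneg x hx0 σ)
    push Not at hz
    have hM : ∀ i, 0 < M i (σ i) := fun i => lt_of_le_of_ne (h0 _ _) (Ne.symm (hz i))
    have hX : ∀ i, 0 < x i (σ i) := fun i => hx _ _ (hz i)
    have h2 : ∏ i, M i (σ i) = Real.exp (∑ i, Real.log (M i (σ i))) := by
      rw [Real.exp_sum]
      exact Finset.prod_congr rfl fun i _ => (Real.exp_log (hM i)).symm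
    have h3 : Qm x σ = Real.exp (∑ i, (Real.log (x i (σ i)) - ell Finset.univ (x i) (σ i))) := by
      unfold Qm
      rw [Finset.sum_sub_distrib, sub_eq_add_neg, Real.exp_add, Real.exp_sum]
      congr 1
      exact Finset.prod_congr rfl fun i _ => (Real.exp_log (hX i)).symm
    rw [h2, h3, ← Real.exp_add, ← Finset.sum_add_distrib]
    refine Real.exp_le_exp.mpr (Finset.sum_le_sum fun i _ => ?_)
    have := hF i (σ i) (hz i)
    linarith
  refine (Finset.sum_le_sum fun σ _ => h1 σ).trans ?_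
  rw [← Finset.mul_sum]
  exact mul_le_of_le_one_right (Real.exp_pos _).le (sum_Qm_le x hx0)

/-- The marginals of the permutation weights. -/
noncomputable def pm (M : Matrix κ κ ℝ) (i j : κ) : ℝ :=
  (∑ σ : Equiv.Perm κ, if σ i = j then ∏ k, M k (σ k) else 0) / M.permanent

lemma pm_nonneg (M : Matrix κ κ ℝ) (h0 : ∀ i j, 0 ≤ M i j) (i j : κ) : 0 ≤ pm M i j := by
  unfold pm
  refine div_nonneg (Finset.sum_nonneg fun σ _ => ?_) ?_
  · split_ifs
    · exact Finset.prod_nonneg fun k _ => h0 _ _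
    · exact le_rfl
  · rw [permanent_rows]
    exact Finset.sum_nonneg fun σ _ => Finset.prod_nonneg fun k _ => h0 _ _

lemma sum_pm (M : Matrix κ κ ℝ) (hM : M.permanent ≠ 0) (i : κ) : ∑ j, pm M i j = 1 := by
  unfold pm
  rw [← Finset.sum_div, Finset.sum_comm]
  rw [div_eq_one_iff_eq hM, permanent_rows]
  refine Finset.sum_congr rfl fun σ _ => ?_
  rw [Finset.sum_ite_eq]
  simp

lemma pm_symm (M : Matrix κ κ ℝ) (hs : ∀ i j, M i j = M j i) (i j : κ) : pm M i j = pm M j i := by
  unfold pm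
  congr 1
  refine Fintype.sum_equiv (Equiv.inv (Equiv.Perm κ)) _ _ fun σ => ?_
  have h1 : (σ i = j) ↔ ((Equiv.inv (Equiv.Perm κ)) σ j = i) := by
    simp only [Equiv.inv_apply]
    rw [Equiv.Perm.inv_eq_iff_eq]
    exact ⟨fun h => h.symm, fun h => h.symm⟩
  have h2 : ∏ k, M k (σ k) = ∏ k, M k ((Equiv.inv (Equiv.Perm κ)) σ k) := by
    refine Fintype.prod_equiv σ _ _ fun k => ?_
    have h3 : σ⁻¹ (σ k) = k := by simp
    show M k (σ k) = M (σ k) (σ⁻¹ (σ k))
    rw [h3]
    exact hs _ _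
  by_cases h : σ i = j
  · rw [if_pos h, if_pos (h1.mp h), h2]
  · rw [if_neg h, if_neg (fun h' => h (h1.mpr h'))]

lemma sum_pm_mul (M : Matrix κ κ ℝ) (c : κ → κ → ℝ) :
    ∑ i, ∑ j, pm M i j * c i j
      = (∑ σ : Equiv.Perm κ, (∏ k, M k (σ k)) * ∑ i, c i (σ i)) / M.permanent := by
  unfold pm
  have h1 : ∀ i, ∑ j, (∑ σ : Equiv.Perm κ, if σ i = j then ∏ k, M k (σ k) else 0) / M.permanent
      * c i j = (∑ σ : Equiv.Perm κ, (∏ k, M k (σ k)) * c i (σ i)) / M.permanent := by
    intro i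
    have h2 : ∀ j, (∑ σ : Equiv.Perm κ, if σ i = j then ∏ k, M k (σ k) else 0) / M.permanent
      * c i j = (∑ σ : Equiv.Perm κ, if σ i = j then (∏ k, M k (σ k)) * c i j else 0)
        / M.permanent := by
      intro j
      rw [div_mul_eq_mul_div, Finset.sum_mul]
      congr 1
      refine Finset.sum_congr rfl fun σ _ => ?_
      split_ifs <;> simp
    rw [Finset.sum_congr rfl fun j _ => h2 j, ← Finset.sum_div, Finset.sum_comm]
    congr 1
    refine Finset.sum_congr rfl fun σ _ => ?_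
    rw [Finset.sum_ite_eq]
    simp
  rw [Finset.sum_congr rfl fun i _ => h1 i, ← Finset.sum_div, Finset.sum_comm]
  congr 1
  exact Finset.sum_congr rfl fun σ _ => by rw [Finset.mul_sum]

/-- (T2), entropy form. -/
theorem log_permanent_le (M : Matrix κ κ ℝ) (h0 : ∀ i j, 0 ≤ M i j) (hM : 0 < M.permanent)
    (x : κ → κ → ℝ) (hx0 : ∀ i j, 0 ≤ x i j) (hx : ∀ i j, M i j ≠ 0 → 0 < x i j) :
    Real.log M.permanent ≤ ∑ i, ∑ j, pm M i j *
      (Real.log (M i j) - Real.log (x i j) + ell Finset.univ (x i) j) := by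
  rw [sum_pm_mul, le_div_iff₀ hM]
  have h1 : ∀ σ : Equiv.Perm κ, (∏ k, M k (σ k)) * Real.log M.permanent
      ≤ (∏ k, M k (σ k)) * ∑ i, (Real.log (M i (σ i)) - Real.log (x i (σ i))
          + ell Finset.univ (x i) (σ i)) + (M.permanent * Qm x σ - ∏ k, M k (σ k)) := by
    intro σ
    by_cases hz : ∃ i, M i (σ i) = 0
    · obtain ⟨i, hi⟩ := hz
      rw [Finset.prod_eq_zero (Finset.mem_univ i) hi]
      have := mul_nonneg hM.le (Qm_nonneg x hx0 σ)
      linarith
    push Not at hz
    have hMp : ∀ i, 0 < M i (σ i) := fun i => lt_of_le_of_ne (h0 _ _) (Ne.symm (hz i))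
    have hX : ∀ i, 0 < x i (σ i) := fun i => hx _ _ (hz i)
    set P := ∏ k, M k (σ k) with hP
    have hPp : 0 < P := Finset.prod_pos fun k _ => hMp k
    have hQp : 0 < Qm x σ := mul_pos (Finset.prod_pos fun k _ => hX k) (Real.exp_pos _)
    have h2 : ∑ i, Real.log (M i (σ i)) = Real.log P := by
      rw [hP, Real.log_prod]
      exact fun k _ => (hMp k).ne'
    have h3 : Real.log (Qm x σ) = ∑ i, Real.log (x i (σ i))
        - ∑ i, ell Finset.univ (x i) (σ i) := by
      unfold Qm
      rw [Real.log_mul (Finset.prod_pos fun k _ => hX k).ne' (Real.exp_pos _).ne', Real.log_exp,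
        Real.log_prod]
      · ring
      · exact fun k _ => (hX k).ne'
    have h4 : ∑ i, (Real.log (M i (σ i)) - Real.log (x i (σ i))
        + ell Finset.univ (x i) (σ i)) = Real.log P - Real.log (Qm x σ) := by
      rw [Finset.sum_add_distrib, Finset.sum_sub_distrib, h2, h3]
      ring
    rw [h4]
    have h5 : Real.log (M.permanent * Qm x σ / P) ≤ M.permanent * Qm x σ / P - 1 :=
      Real.log_le_sub_one_of_pos (by positivity)
    rw [Real.log_div (by positivity) hPp.ne', Real.log_mul hM.ne' hQp.ne'] at h5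
    have h6 := mul_le_mul_of_nonneg_left h5 hPp.le
    have h7 : P * (M.permanent * Qm x σ / P - 1) = M.permanent * Qm x σ - P := by
      field_simp
    rw [h7] at h6
    nlinarith
  have h2 := Finset.sum_le_sum fun σ (_ : σ ∈ (Finset.univ : Finset (Equiv.Perm κ))) => h1 σ
  rw [← Finset.sum_mul, ← permanent_rows, Finset.sum_add_distrib, Finset.sum_sub_distrib,
    ← Finset.mul_sum, ← permanent_rows] at h2
  have h3 : M.permanent * ∑ σ, Qm x σ ≤ M.permanent :=
    mul_le_of_le_one_right hM.le (sum_Qm_le x hx0)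
  linarith

end Ent
end Pool.Agent.Lib.MP_6947cd_al
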