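import Pool.Agent.Lib.MP_6947cd_al.Step

set_option autoImplicit false
open scoped Matrix ComplexOrder
open Matrix Finset Polynomial

namespace Pool.Agent.Lib.MP_6947cd_al

variable {κ : Type} [Fintype κ] [DecidableEq κ]

/-- The number of arguments with value `1`. -/
def cnt (g : κ → Fin 2) : ℕ := ∑ i, (g i : ℕ)

omit [DecidableEq κ] in
lemma cnt_comp (g : κ → Fin 2) (σ : Equiv.Perm κ) : cnt (g ∘ σ) = cnt g :=
  Fintype.sum_equiv σ _ _ (fun _ => rfl)

omit [DecidableEq κ] in
lemma cnt_add (g : κ → Fin 2) : cnt g + ∑ i, (1 - (g i : ℕ)) = Fintype.card κ := by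
  unfold cnt
  rw [← Finset.sum_add_distrib]
  have : ∀ i, (g i : ℕ) + (1 - (g i : ℕ)) = 1 := by intro i; have := (g i).isLt; omega
  simp [this]

omit [DecidableEq κ] in
lemma cnt_le (g : κ → Fin 2) : cnt g ≤ Fintype.card κ := by
  have := cnt_add g; omega

/-- The product of the linear forms given by the columns of `W`. -/
noncomputable def lpoly (W : Matrix (Fin 2) κ ℂ) : ℂ[X] := ∏ i, (C (W 0 i) + C (W 1 i) * X)

lemma lpoly_coeff (W : Matrix (Fin 2) κ ℂ) (k : ℕ) :
    (lpoly W).coeff k = ∑ g : κ → Fin 2, if cnt g = k then ∏ i, W (g i) i else 0 := by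
  have h1 : lpoly W = ∑ g : κ → Fin 2, C (∏ i, W (g i) i) * X ^ cnt g := by
    have h2 : lpoly W = ∏ i, ∑ j : Fin 2, C (W j i) * X ^ (j : ℕ) := by
      unfold lpoly
      refine Finset.prod_congr rfl fun i _ => ?_
      simp [Fin.sum_univ_two]
    rw [h2, Finset.prod_univ_sum]
    simp only [Fintype.piFinset_univ]
    refine Finset.sum_congr rfl fun g _ => ?_
    rw [Finset.prod_mul_distrib, Finset.prod_pow_eq_pow_sum, map_prod]
    rfl
  rw [h1, finsetSum_coeff]
  refine Finset.sum_congr rfl fun g _ => ?_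
  rw [coeff_C_mul_X_pow]
  by_cases h : cnt g = k
  · rw [if_pos h, if_pos h.symm]
  · rw [if_neg h, if_neg (fun h' => h h'.symm)]

lemma factorial_mul_coeff (W : Matrix (Fin 2) κ ℂ) (k : ℕ) :
    ((Fintype.card κ).factorial : ℂ) * (lpoly W).coeff k
      = ∑ g : κ → Fin 2 with cnt g = k, selPer W g := by
  classical
  rw [Finset.sum_filter]
  have h1 : ∀ σ : Equiv.Perm κ, (lpoly W).coeff k
      = ∑ g : κ → Fin 2, if cnt g = k then ∏ i, W (g (σ i)) i else 0 := by
    intro σ
    rw [lpoly_coeff]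
    refine (Fintype.sum_equiv (Equiv.arrowCongr σ.symm (Equiv.refl (Fin 2))) _ _ fun g => ?_).symm
    have e : (Equiv.arrowCongr σ.symm (Equiv.refl (Fin 2))) g = g ∘ σ := by
      ext i; simp [Equiv.arrowCongr]
    rw [e, cnt_comp]
    rfl
  calc ((Fintype.card κ).factorial : ℂ) * (lpoly W).coeff k
      = ∑ σ : Equiv.Perm κ, (lpoly W).coeff k := by
        rw [Finset.sum_const, Finset.card_univ, Fintype.card_perm, nsmul_eq_mul]
    _ = ∑ σ : Equiv.Perm κ, ∑ g : κ → Fin 2, if cnt g = k then ∏ i, W (g (σ i)) i else 0 :=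
        Finset.sum_congr rfl fun σ _ => h1 σ
    _ = ∑ g : κ → Fin 2, ∑ σ : Equiv.Perm κ, if cnt g = k then ∏ i, W (g (σ i)) i else 0 :=
        Finset.sum_comm
    _ = ∑ g : κ → Fin 2, if cnt g = k then selPer W g else 0 := by
        refine Finset.sum_congr rfl fun g _ => ?_
        by_cases h : cnt g = k
        · simp only [if_pos h, selPer_eq]
        · simp only [if_neg h, Finset.sum_const_zero]

lemma card_cnt (k : ℕ) : ((Finset.univ : Finset (κ → Fin 2)).filter (fun g => cnt g = k)).card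
    = (Fintype.card κ).choose k := by
  classical
  have h := lpoly_coeff (κ := κ) (fun _ _ => 1) k
  have h2 : lpoly (κ := κ) (fun _ _ => 1) = (1 + X) ^ Fintype.card κ := by
    simp [lpoly]
  rw [h2, coeff_one_add_X_pow] at h
  have h3 : (((Finset.univ : Finset (κ → Fin 2)).filter (fun g => cnt g = k)).card : ℂ)
      = ((Fintype.card κ).choose k : ℂ) := by
    rw [h, ← Finset.sum_filter]
    simp
  exact_mod_cast h3

/-- The permanent of a Gram matrix of rank two is bounded below by (in fact equal to) the Bombieri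
norm of the product of the linear forms. -/
lemma lower1 (W : Matrix (Fin 2) κ ℂ) :
    ∑ k ∈ Finset.range (Fintype.card κ + 1),
      ((k.factorial : ℝ) * ((Fintype.card κ - k).factorial : ℝ)) * ‖(lpoly W).coeff k‖ ^ 2
      ≤ (Wᴴ * W).permanent.re := by
  classical
  set n := Fintype.card κ with hn
  rw [permanent_gram_real, Complex.ofReal_re, ← hn, le_div_iff₀ (by positivity), Finset.sum_mul]
  have h1 : ∑ f : κ → Fin 2, Complex.normSq (selPer W f)
      = ∑ k ∈ Finset.range (n + 1), ∑ f : κ → Fin 2 with cnt f = k,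
          Complex.normSq (selPer W f) := by
    refine (Finset.sum_fiberwise_of_maps_to (fun f _ => ?_) _).symm
    rw [Finset.mem_range]
    have := cnt_le f
    omega
  rw [h1]
  refine Finset.sum_le_sum fun k hk => ?_
  have hk' : k ≤ n := by rw [Finset.mem_range] at hk; omega
  have h2 : ‖((n.factorial : ℝ) : ℂ) * (lpoly W).coeff k‖ ^ 2
      ≤ (n.choose k : ℝ) * ∑ f : κ → Fin 2 with cnt f = k, Complex.normSq (selPer W f) := by
    have h3 := factorial_mul_coeff W k
    rw [← hn] at h3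
    have h4 : ‖((n.factorial : ℝ) : ℂ) * (lpoly W).coeff k‖
        ≤ ∑ f : κ → Fin 2 with cnt f = k, ‖selPer W f‖ := by
      rw [Complex.ofReal_natCast, h3]
      exact norm_sum_le _ _
    have h5 := sq_sum_le_card_mul_sum_sq (s := (Finset.univ : Finset (κ → Fin 2)).filter
      (fun g => cnt g = k)) (f := fun f => ‖selPer W f‖)
    rw [card_cnt, ← hn] at h5
    refine (pow_le_pow_left₀ (norm_nonneg _) h4 2).trans (h5.trans (le_of_eq ?_))
    congr 1
    refine Finset.sum_congr rfl fun f _ => ?_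
    rw [Complex.normSq_eq_norm_sq]
  rw [norm_mul, Complex.norm_real, Real.norm_of_nonneg (by positivity), mul_pow] at h2
  have h6 : (n.choose k : ℝ) * (k.factorial : ℝ) * ((n - k).factorial : ℝ) = (n.factorial : ℝ) := by
    exact_mod_cast Nat.choose_mul_factorial_mul_factorial hk'
  have hf : (0 : ℝ) < (n.factorial : ℝ) := by positivity
  have hkk : (0 : ℝ) < (k.factorial : ℝ) * ((n - k).factorial : ℝ) := by positivity
  have h7 : (n.factorial : ℝ) * ((k.factorial : ℝ) * ((n - k).factorial : ℝ) *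
      ‖(lpoly W).coeff k‖ ^ 2 * (n.factorial : ℝ))
      ≤ (n.factorial : ℝ) * ∑ f : κ → Fin 2 with cnt f = k, Complex.normSq (selPer W f) := by
    calc (n.factorial : ℝ) * ((k.factorial : ℝ) * ((n - k).factorial : ℝ) *
          ‖(lpoly W).coeff k‖ ^ 2 * (n.factorial : ℝ))
        = ((k.factorial : ℝ) * ((n - k).factorial : ℝ)) *
            ((n.factorial : ℝ) ^ 2 * ‖(lpoly W).coeff k‖ ^ 2) := by ring
      _ ≤ ((k.factorial : ℝ) * ((n - k).factorial : ℝ)) *
            ((n.choose k : ℝ) * ∑ f : κ → Fin 2 with cnt f = k, Complex.normSq (selPer W f)) :=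
          mul_le_mul_of_nonneg_left h2 hkk.le
      _ = _ := by rw [← h6]; ring
  exact le_of_mul_le_mul_left h7 hf

/-- The Beta integral at integers. -/
lemma beta_nat (m k : ℕ) : ∫ t in (0 : ℝ)..1, t ^ k * (1 - t) ^ m
    = (k.factorial : ℝ) * (m.factorial : ℝ) / ((k + m + 1).factorial : ℝ) := by
  induction m generalizing k with
  | zero =>
    simp only [pow_zero, mul_one, integral_pow, one_pow, Nat.factorial_zero, Nat.cast_one, add_zero]
    rw [zero_pow (by omega), Nat.factorial_succ]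
    push_cast
    field_simp
    ring
  | succ m ih =>
    have hd : ∀ t : ℝ, HasDerivAt (fun t : ℝ => t ^ (k + 1) * (1 - t) ^ (m + 1))
        ((k + 1 : ℝ) * (t ^ k * (1 - t) ^ (m + 1)) - (m + 1 : ℝ) * (t ^ (k + 1) * (1 - t) ^ m)) t := by
      intro t
      have h1 := hasDerivAt_pow (k + 1) t
      have h2 : HasDerivAt (fun t : ℝ => (1 - t) ^ (m + 1)) (((m + 1 : ℕ) : ℝ) * (1 - t) ^ m * (-1)) t := by
        have h3 : HasDerivAt (fun t : ℝ => 1 - t) (-1) t := (hasDerivAt_id' t).const_sub 1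
        have h5 := h3.fun_pow (m + 1)
        simpa only [Nat.add_sub_cancel] using h5
      have h4 := h1.fun_mul h2
      refine h4.congr_deriv ?_
      simp only [Nat.add_sub_cancel]
      push_cast
      ring
    have hint : ∫ t in (0 : ℝ)..1,
        ((k + 1 : ℝ) * (t ^ k * (1 - t) ^ (m + 1)) - (m + 1 : ℝ) * (t ^ (k + 1) * (1 - t) ^ m)) = 0 := by
      rw [intervalIntegral.integral_eq_sub_of_hasDerivAt (fun t _ => hd t)
        (by apply Continuous.intervalIntegrable; fun_prop)]
      simp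
    rw [intervalIntegral.integral_sub (by apply Continuous.intervalIntegrable; fun_prop)
      (by apply Continuous.intervalIntegrable; fun_prop),
      intervalIntegral.integral_const_mul, intervalIntegral.integral_const_mul, ih (k + 1)] at hint
    have hk : (0 : ℝ) < (k : ℝ) + 1 := by positivity
    have h5 : ∫ t in (0 : ℝ)..1, t ^ k * (1 - t) ^ (m + 1)
        = (m + 1 : ℝ) / (k + 1) * (((k + 1).factorial : ℝ) * (m.factorial : ℝ) /
          ((k + 1 + m + 1).factorial : ℝ)) := by
      field_simp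
      field_simp at hint
      linarith
    rw [h5, show k + (m + 1) + 1 = k + 1 + m + 1 by ring, Nat.factorial_succ k, Nat.factorial_succ m]
    push_cast
    field_simp

/-- The Bombieri norm as an integral. -/
lemma lower2 (W : Matrix (Fin 2) κ ℂ) :
    ((Fintype.card κ + 1).factorial : ℝ) * ∫ t in (0 : ℝ)..1,
      (∑ k ∈ Finset.range (Fintype.card κ + 1),
        ‖(lpoly W).coeff k‖ ^ 2 * (t ^ k * (1 - t) ^ (Fintype.card κ - k)))
      ≤ (Wᴴ * W).permanent.re := by
  refine le_trans (le_of_eq ?_) (lower1 W)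
  set n := Fintype.card κ with hn
  rw [intervalIntegral.integral_finsetSum (fun k _ => by
    apply Continuous.intervalIntegrable; fun_prop), Finset.mul_sum]
  refine Finset.sum_congr rfl fun k hk => ?_
  have hk' : k ≤ n := by rw [Finset.mem_range] at hk; omega
  rw [intervalIntegral.integral_const_mul, beta_nat, show k + (n - k) + 1 = n + 1 by omega]
  have : (0 : ℝ) < ((n + 1).factorial : ℝ) := by positivity
  field_simp

lemma lpoly_scale (W : Matrix (Fin 2) κ ℂ) (x y : ℝ) (k : ℕ) (hk : k ≤ Fintype.card κ) :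
    (lpoly (Matrix.of fun j i => ((if j = 0 then y else x : ℝ) : ℂ) * W j i)).coeff k
      = ((x ^ k * y ^ (Fintype.card κ - k) : ℝ) : ℂ) * (lpoly W).coeff k := by
  rw [lpoly_coeff, lpoly_coeff, Finset.mul_sum]
  refine Finset.sum_congr rfl fun g _ => ?_
  by_cases h : cnt g = k
  · rw [if_pos h, if_pos h]
    simp only [Matrix.of_apply]
    rw [Finset.prod_mul_distrib]
    congr 1
    rw [← Complex.ofReal_prod]
    congr 1
    have h1 : ∀ i, (if g i = 0 then y else x) = x ^ (g i : ℕ) * y ^ (1 - (g i : ℕ)) := by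
      intro i
      rcases Fin.exists_fin_two.mp ⟨g i, rfl⟩ with h2 | h2
      · rw [h2]; simp
      · rw [h2]; simp
    simp_rw [h1]
    rw [Finset.prod_mul_distrib, Finset.prod_pow_eq_pow_sum, Finset.prod_pow_eq_pow_sum]
    have h3 := cnt_add g
    have h4 : ∑ i, (1 - (g i : ℕ)) = Fintype.card κ - k := by rw [← h]; omega
    rw [h4]
    congr 2
  · rw [if_neg h, if_neg h, mul_zero]

lemma mahlerMeasure_lin (a b : ℂ) : (C a + C b * X).mahlerMeasure = max ‖b‖ ‖a‖ := by
  by_cases hb : b = 0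
  · subst hb
    simp
  · rw [add_comm, mahlerMeasure_C_mul_X_add_C hb]

omit [DecidableEq κ] in
lemma mahlerMeasure_lpoly (W : Matrix (Fin 2) κ ℂ) :
    (lpoly W).mahlerMeasure = ∏ i, max ‖W 1 i‖ ‖W 0 i‖ := by
  unfold lpoly
  have h : ∀ s : Finset κ, (∏ i ∈ s, (C (W 0 i) + C (W 1 i) * X)).mahlerMeasure
      = ∏ i ∈ s, max ‖W 1 i‖ ‖W 0 i‖ := by
    classical
    intro s
    induction s using Finset.induction_on with
    | empty => simp
    | insert a s ha ih =>
      rw [Finset.prod_insert ha, Finset.prod_insert ha, mahlerMeasure_mul, ih, mahlerMeasure_lin]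
  exact h _

/-- Landau's inequality for the rescaled product of linear forms. -/
lemma landau (W : Matrix (Fin 2) κ ℂ) (t : ℝ) (h0 : 0 ≤ t) (h1 : t ≤ 1) :
    ∏ i, max (‖W 1 i‖ ^ 2 * t) (‖W 0 i‖ ^ 2 * (1 - t))
      ≤ ∑ k ∈ Finset.range (Fintype.card κ + 1),
        ‖(lpoly W).coeff k‖ ^ 2 * (t ^ k * (1 - t) ^ (Fintype.card κ - k)) := by
  set n := Fintype.card κ with hn
  set x := Real.sqrt t with hx
  set y := Real.sqrt (1 - t) with hy
  have hx2 : x ^ 2 = t := Real.sq_sqrt h0
  have hy2 : y ^ 2 = 1 - t := Real.sq_sqrt (by linarith)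
  have hx0 : 0 ≤ x := Real.sqrt_nonneg _
  have hy0 : 0 ≤ y := Real.sqrt_nonneg _
  set V : Matrix (Fin 2) κ ℂ := Matrix.of fun j i => ((if j = 0 then y else x : ℝ) : ℂ) * W j i
    with hV
  have h2 := mahlerMeasure_le_sqrt_sum_sq_norm_coeff (lpoly V)
  rw [mahlerMeasure_lpoly] at h2
  have h3 : (∏ i, max ‖V 1 i‖ ‖V 0 i‖) ^ 2 ≤ ∑ i ∈ (lpoly V).support, ‖(lpoly V).coeff i‖ ^ 2 := by
    have h4 : 0 ≤ ∏ i, max ‖V 1 i‖ ‖V 0 i‖ :=
      Finset.prod_nonneg fun i _ => le_max_of_le_left (norm_nonneg _)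
    calc (∏ i, max ‖V 1 i‖ ‖V 0 i‖) ^ 2
        ≤ (√(∑ i ∈ (lpoly V).support, ‖(lpoly V).coeff i‖ ^ 2)) ^ 2 := pow_le_pow_left₀ h4 h2 2
      _ = _ := Real.sq_sqrt (Finset.sum_nonneg fun i _ => by positivity)
  have h5 : ∏ i, max (‖W 1 i‖ ^ 2 * t) (‖W 0 i‖ ^ 2 * (1 - t))
      = (∏ i, max ‖V 1 i‖ ‖V 0 i‖) ^ 2 := by
    rw [← Finset.prod_pow]
    refine Finset.prod_congr rfl fun i _ => ?_
    have e1 : ‖V 1 i‖ = x * ‖W 1 i‖ := by
      simp only [hV, Matrix.of_apply]
      rw [if_neg (by norm_num), norm_mul, Complex.norm_real, Real.norm_of_nonneg hx0]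
    have e0 : ‖V 0 i‖ = y * ‖W 0 i‖ := by
      simp only [hV, Matrix.of_apply]
      rw [if_pos trivial, norm_mul, Complex.norm_real, Real.norm_of_nonneg hy0]
    rw [e1, e0]
    have hm : Monotone (fun z : {z : ℝ // 0 ≤ z} => (z : ℝ) ^ 2) := by
      intro a b hab
      exact pow_le_pow_left₀ a.2 hab 2
    rcases le_total (x * ‖W 1 i‖) (y * ‖W 0 i‖) with h | h
    · rw [max_eq_right h]
      have h' : (x * ‖W 1 i‖) ^ 2 ≤ (y * ‖W 0 i‖) ^ 2 := pow_le_pow_left₀ (by positivity) h 2
      rw [mul_pow, mul_pow, hx2, hy2] at h'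
      rw [max_eq_right (by linarith), mul_pow, hy2]
      ring
    · rw [max_eq_left h]
      have h' : (y * ‖W 0 i‖) ^ 2 ≤ (x * ‖W 1 i‖) ^ 2 := pow_le_pow_left₀ (by positivity) h 2
      rw [mul_pow, mul_pow, hx2, hy2] at h'
      rw [max_eq_left (by linarith), mul_pow, hx2]
      ring
  rw [h5]
  refine h3.trans ?_
  have h6 : (lpoly V).support ⊆ Finset.range (n + 1) := by
    intro k hk
    rw [Finset.mem_range]
    by_contra hlt
    push Not at hlt
    rw [mem_support_iff] at hk
    apply hk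
    rw [lpoly_coeff]
    refine Finset.sum_eq_zero fun g _ => ?_
    rw [if_neg]
    have := cnt_le g
    omega
  refine (Finset.sum_le_sum_of_subset_of_nonneg h6 (fun i _ _ => by positivity)).trans
    (le_of_eq ?_)
  refine Finset.sum_congr rfl fun k hk => ?_
  have hk' : k ≤ Fintype.card κ := by rw [Finset.mem_range] at hk; omega
  rw [hV, lpoly_scale W x y k hk', norm_mul, Complex.norm_real,
    Real.norm_of_nonneg (by positivity), mul_pow, mul_pow, ← pow_mul, ← pow_mul, mul_comm k 2,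
    mul_comm (Fintype.card κ - k) 2, pow_mul, pow_mul, hx2, hy2]
  ring

end Pool.Agent.Lib.MP_6947cd_al
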