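import Pool.Agent.Lib.MP_6947cd_al.Entropic
import Pool.Agent.Lib.MP_6947cd_al.Lower

set_option autoImplicit false
open scoped Matrix
open Matrix Finset

namespace Pool.Agent.Lib.MP_6947cd_al
namespace Ent

variable {α : Type} [DecidableEq α]

/-- Expectation of `g` at a random subset of `S`, every element being kept with probability `u`. -/
noncomputable def bern (u : ℝ) (S : Finset α) (g : Finset α → ℝ) : ℝ :=
  ∑ K ∈ S.powerset, u ^ K.card * (1 - u) ^ (S.card - K.card) * g K

omit [DecidableEq α] in
lemma bern_congr (u : ℝ) (S : Finset α) (g g' : Finset α → ℝ) (h : ∀ K ⊆ S, g K = g' K) :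
    bern u S g = bern u S g' :=
  Finset.sum_congr rfl fun K hK => by rw [h K (Finset.mem_powerset.mp hK)]

omit [DecidableEq α] in
lemma bern_empty (u : ℝ) (g : Finset α → ℝ) : bern u ∅ g = g ∅ := by
  simp [bern]

lemma bern_insert (u : ℝ) (a : α) (S : Finset α) (ha : a ∉ S) (g : Finset α → ℝ) :
    bern u (insert a S) g = (1 - u) * bern u S g + u * bern u S (fun K => g (insert a K)) := by
  unfold bern
  rw [Finset.sum_powerset_insert ha, Finset.mul_sum, Finset.mul_sum]
  congr 1
  · refine Finset.sum_congr rfl fun K hK => ?_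
    have hK' := Finset.mem_powerset.mp hK
    have := Finset.card_le_card hK'
    rw [Finset.card_insert_of_notMem ha, show S.card + 1 - K.card = S.card - K.card + 1 by omega,
      pow_succ]
    ring
  · refine Finset.sum_congr rfl fun K hK => ?_
    have hK' := Finset.mem_powerset.mp hK
    have haK : a ∉ K := fun h => ha (hK' h)
    rw [Finset.card_insert_of_notMem ha, Finset.card_insert_of_notMem haK,
      show S.card + 1 - (K.card + 1) = S.card - K.card by omega, pow_succ]
    ring

lemma bern_union (u : ℝ) (S R : Finset α) (h : Disjoint S R) (g : Finset α → ℝ) :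
    bern u (S ∪ R) g = bern u S (fun K => bern u R (fun K' => g (K ∪ K'))) := by
  induction S using Finset.induction_on generalizing g with
  | empty => simp [bern_empty]
  | insert a S ha ih =>
    rw [Finset.disjoint_insert_left] at h
    have haR : a ∉ S ∪ R := by
      simp only [Finset.mem_union, not_or]
      exact ⟨ha, h.1⟩
    rw [Finset.insert_union, bern_insert u a _ haR, ih h.2, ih h.2, bern_insert u a S ha]
    simp only [Finset.insert_union]

omit [DecidableEq α] in
lemma bern_mono (u : ℝ) (h0 : 0 ≤ u) (h1 : u ≤ 1) (S : Finset α) (g g' : Finset α → ℝ)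
    (h : ∀ K ⊆ S, g K ≤ g' K) : bern u S g ≤ bern u S g' :=
  Finset.sum_le_sum fun K hK => mul_le_mul_of_nonneg_left (h K (Finset.mem_powerset.mp hK))
    (mul_nonneg (pow_nonneg h0 _) (pow_nonneg (sub_nonneg.mpr h1) _))

omit [DecidableEq α] in
lemma bern_const (u : ℝ) (S : Finset α) (c : ℝ) : bern u S (fun _ => c) = c := by
  unfold bern
  rw [← Finset.sum_mul, Finset.sum_pow_mul_eq_add_pow]
  simp

/-- Jensen's inequality for the random sum. -/
lemma bern_log_le (u : ℝ) (h0 : 0 ≤ u) (h1 : u ≤ 1) (y : α → ℝ) (R : Finset α)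
    (hy : ∀ k ∈ R, 0 ≤ y k) : ∀ a : ℝ, 0 < a →
    bern u R (fun K => Real.log (a + ∑ k ∈ K, y k)) ≤ Real.log (a + u * ∑ k ∈ R, y k) := by
  induction R using Finset.induction_on with
  | empty => intro a _; simp [bern_empty]
  | insert c R hc ih =>
    intro a ha
    have hyc := hy c (Finset.mem_insert_self c R)
    have hyR : ∀ k ∈ R, 0 ≤ y k := fun k hk => hy k (Finset.mem_insert_of_mem hk)
    have ih' := ih hyR
    have hR0 : 0 ≤ ∑ k ∈ R, y k := Finset.sum_nonneg hyR
    rw [bern_insert u c R hc]
    have e1 : bern u R (fun K => Real.log (a + ∑ k ∈ insert c K, y k))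
        = bern u R (fun K => Real.log ((a + y c) + ∑ k ∈ K, y k)) := by
      refine bern_congr u R _ _ fun K hK => ?_
      rw [Finset.sum_insert (fun h => hc (hK h)), add_assoc]
    rw [e1, Finset.sum_insert hc]
    have h2 := ih' a ha
    have h3 := ih' (a + y c) (by linarith)
    have p1 : 0 < a + u * ∑ k ∈ R, y k := by positivity
    have p2 : 0 < a + y c + u * ∑ k ∈ R, y k := by positivity
    have h4 := strictConcaveOn_log_Ioi.concaveOn.2 (Set.mem_Ioi.mpr p1) (Set.mem_Ioi.mpr p2)
      (sub_nonneg.mpr h1) h0 (by ring)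
    simp only [smul_eq_mul] at h4
    have h5 : (1 - u) * (a + u * ∑ k ∈ R, y k) + u * (a + y c + u * ∑ k ∈ R, y k)
        = a + u * (y c + ∑ k ∈ R, y k) := by ring
    rw [h5] at h4
    have h6 := mul_le_mul_of_nonneg_left h2 (sub_nonneg.mpr h1)
    have h7 := mul_le_mul_of_nonneg_left h3 h0
    linarith

lemma w_eq (n k : ℕ) (hk : k < n) : w n k = ∫ t in (0 : ℝ)..1, t ^ k * (1 - t) ^ (n - 1 - k) := by
  rw [beta_nat]
  unfold w
  rw [show k + (n - 1 - k) + 1 = n by omega]

/-- The integral form of the availability average. -/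
lemma ell_eq (C : Finset α) (y : α → ℝ) (j : α) (hj : j ∈ C) :
    ell C y j = ∫ u in (0 : ℝ)..1,
      bern u (C.erase j) (fun K => Real.log (y j + ∑ k ∈ K, y k)) := by
  unfold ell bern
  have hD : (C.erase j).card = C.card - 1 := Finset.card_erase_of_mem hj
  have hC : 0 < C.card := Finset.card_pos.mpr ⟨j, hj⟩
  rw [intervalIntegral.integral_finsetSum]
  · refine Finset.sum_congr rfl fun K hK => ?_
    have hK' := Finset.card_le_card (Finset.mem_powerset.mp hK)
    rw [intervalIntegral.integral_mul_const, w_eq C.card K.card (by omega), hD]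
  · intro K _
    exact Continuous.intervalIntegrable (by fun_prop) _ _

omit [DecidableEq α] in
lemma cont_bern (S : Finset α) (g : Finset α → ℝ) : Continuous fun u : ℝ => bern u S g := by
  unfold bern
  fun_prop

omit [DecidableEq α] in
lemma contOn_bern (S : Finset α) (g : ℝ → Finset α → ℝ) (s : Set ℝ)
    (hg : ∀ K ⊆ S, ContinuousOn (fun u => g u K) s) :
    ContinuousOn (fun u : ℝ => bern u S (g u)) s := by
  unfold bern
  refine continuousOn_finsetSum _ fun K hK => ?_
  exact ContinuousOn.mul (by fun_prop) (hg K (Finset.mem_powerset.mp hK))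

/-- Upper bound for the availability average: the random sum over a set `R` of light columns is replaced by
its mean, the columns of `H` are kept random. -/
theorem ell_le_split (C : Finset α) (y : α → ℝ) (j : α) (hj : j ∈ C) (hy : ∀ k ∈ C, 0 ≤ y k)
    (hyj : 0 < y j) (H R : Finset α) (hd : Disjoint H R) (hHR : H ∪ R = C.erase j) :
    ell C y j ≤ ∫ u in (0 : ℝ)..1,
      bern u H (fun K => Real.log (y j + ∑ k ∈ K, y k + u * ∑ k ∈ R, y k)) := by
  rw [ell_eq C y j hj]
  have hyH : ∀ k ∈ H, 0 ≤ y k := fun k hk =>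
    hy k (Finset.mem_of_mem_erase (hHR ▸ Finset.mem_union_left R hk))
  have hyR : ∀ k ∈ R, 0 ≤ y k := fun k hk =>
    hy k (Finset.mem_of_mem_erase (hHR ▸ Finset.mem_union_right H hk))
  have hR0 : 0 ≤ ∑ k ∈ R, y k := Finset.sum_nonneg hyR
  refine intervalIntegral.integral_mono_on zero_le_one
    ((cont_bern _ _).intervalIntegrable _ _) ?_ ?_
  · refine ContinuousOn.intervalIntegrable ?_
    refine contOn_bern H _ _ fun K hK => ?_
    refine ContinuousOn.log (by fun_prop) fun u hu => ?_
    rw [Set.uIcc_of_le zero_le_one] at hu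
    have : 0 ≤ ∑ k ∈ K, y k := Finset.sum_nonneg fun k hk => hyH k (hK hk)
    have := mul_nonneg hu.1 hR0
    linarith
  · intro u hu
    rw [← hHR, bern_union u H R hd]
    refine bern_mono u hu.1 hu.2 H _ _ fun K hK => ?_
    have hK0 : 0 ≤ ∑ k ∈ K, y k := Finset.sum_nonneg fun k hk => hyH k (hK hk)
    have h1 := bern_log_le u hu.1 hu.2 y R hyR (y j + ∑ k ∈ K, y k) (by linarith)
    refine le_trans (le_of_eq ?_) h1
    refine bern_congr u R _ _ fun K' hK' => ?_
    rw [Finset.sum_union (Finset.disjoint_of_subset_left hK (Finset.disjoint_of_subset_right hK' hd)),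
      add_assoc]

/-- The availability average is monotone in the row. -/
lemma ell_mono (C : Finset α) (y y' : α → ℝ) (j : α) (hy : ∀ k ∈ C.erase j, 0 ≤ y k)
    (h : ∀ k ∈ C.erase j, y k ≤ y' k) (hj0 : 0 < y j) (hj : y j ≤ y' j) :
    ell C y j ≤ ell C y' j := by
  unfold ell
  refine Finset.sum_le_sum fun K hK => ?_
  have hK' := Finset.mem_powerset.mp hK
  refine mul_le_mul_of_nonneg_left ?_ (by unfold w; positivity)
  have h0 : 0 ≤ ∑ k ∈ K, y k := Finset.sum_nonneg fun k hk => hy k (hK' hk)
  refine Real.log_le_log (by linarith) (add_le_add hj (Finset.sum_le_sum fun k hk => h k (hK' hk)))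

end Ent
end Pool.Agent.Lib.MP_6947cd_al
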