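import Mathlib

set_option autoImplicit false
open scoped Matrix
open Matrix Finset

namespace Pool.Agent.Lib.MP_6947cd_al

/-- `2 ∑ w ≤ ∏ (1 + w)` for numbers in `[0,1]`. -/
lemma two_sum_le_prod {ι : Type} (s : Finset ι) (w : ι → ℝ) (h0 : ∀ i ∈ s, 0 ≤ w i)
    (h1 : ∀ i ∈ s, w i ≤ 1) :
    2 * ∑ i ∈ s, w i ≤ ∏ i ∈ s, (1 + w i) ∧ 1 + ∑ i ∈ s, w i ≤ ∏ i ∈ s, (1 + w i) := by
  classical
  induction s using Finset.induction_on with
  | empty => simp
  | insert a s ha ih =>
    obtain ⟨i1, i2⟩ := ih (fun i hi => h0 i (Finset.mem_insert_of_mem hi))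
      (fun i hi => h1 i (Finset.mem_insert_of_mem hi))
    have ha0 := h0 a (Finset.mem_insert_self a s)
    have ha1 := h1 a (Finset.mem_insert_self a s)
    have hs0 : 0 ≤ ∑ i ∈ s, w i := Finset.sum_nonneg fun i hi => h0 i (Finset.mem_insert_of_mem hi)
    rw [Finset.sum_insert ha, Finset.prod_insert ha]
    set P := ∏ i ∈ s, (1 + w i)
    set q := ∑ i ∈ s, w i
    constructor
    · by_cases hP : 2 ≤ P
      · nlinarith
      · push Not at hP
        have : q < 1 := by linarith
        nlinarith [mul_nonneg (sub_nonneg.mpr this.le) (sub_nonneg.mpr ha1)]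
    · nlinarith

variable {κ : Type} [Fintype κ] [DecidableEq κ]

/-- Laplace expansion of the permanent along the column `none`. -/
lemma permanent_option {R : Type} [CommSemiring R] (M : Matrix (Option κ) (Option κ) R) :
    M.permanent = ∑ x : Option κ, M x none *
      (Matrix.of fun (i j : κ) => M (Equiv.swap none x (some i)) (some j)).permanent := by
  have h1 : M.permanent
      = ∑ p : Option κ × Equiv.Perm κ,
          ∏ i, M ((Equiv.Perm.decomposeOption.symm p) i) i := by
    unfold permanent
    exact (Fintype.sum_equiv Equiv.Perm.decomposeOption.symm _ _ (fun p => rfl)).symm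
  rw [h1, Fintype.sum_prod_type]
  refine Finset.sum_congr rfl fun x _ => ?_
  unfold permanent
  rw [Finset.mul_sum]
  refine Finset.sum_congr rfl fun τ _ => ?_
  rw [Fintype.prod_option]
  have e0 : (Equiv.Perm.decomposeOption.symm (x, τ)) none = x := by
    simp [Equiv.Perm.decomposeOption_symm_apply]
  rw [e0]
  congr 1

omit [DecidableEq κ] in
/-- The rows different from `x`. -/
lemma prod_swap [DecidableEq κ] (x : Option κ) (f : Option κ → ℝ) :
    f x * ∏ i : κ, f (Equiv.swap none x (some i)) = ∏ y, f y := by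
  have h := Fintype.prod_equiv (Equiv.swap none x) (fun y => f (Equiv.swap none x y)) f (fun y => rfl)
  rw [← h, Fintype.prod_option, Equiv.swap_apply_left]

/-- Minc's bound for the permanent of a matrix with entries in `[0,1]`, on `Option κ`. -/
lemma minc_step (M : Matrix (Option κ) (Option κ) ℝ) (h0 : ∀ i j, 0 ≤ M i j)
    (h1 : ∀ i j, M i j ≤ 1)
    (ih : ∀ N : Matrix κ κ ℝ, (∀ i j, 0 ≤ N i j) → (∀ i j, N i j ≤ 1) →
      N.permanent ≤ ∏ i, (1 + ∑ j, N i j) / 2) :
    M.permanent ≤ ∏ i, (1 + ∑ j, M i j) / 2 := by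
  rw [permanent_option]
  set s : Option κ → ℝ := fun y => ∑ j : κ, M y (some j) with hs
  have hs0 : ∀ y, 0 ≤ s y := fun y => Finset.sum_nonneg fun j _ => h0 _ _
  have hP : 0 < ∏ y, (1 + s y) := Finset.prod_pos fun y _ => by have := hs0 y; linarith
  have h2 : ∀ x : Option κ, M x none *
      (Matrix.of fun (i j : κ) => M (Equiv.swap none x (some i)) (some j)).permanent
      ≤ (M x none / (1 + s x)) * (∏ y, (1 + s y)) * (1 / 2) ^ Fintype.card κ := by
    intro x
    have h3 := ih (Matrix.of fun (i j : κ) => M (Equiv.swap none x (some i)) (some j))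
      (fun i j => h0 _ _) (fun i j => h1 _ _)
    have h4 : ∏ i : κ, (1 + ∑ j : κ, (Matrix.of fun (i j : κ) =>
        M (Equiv.swap none x (some i)) (some j)) i j) / 2
        = (∏ i : κ, (1 + s (Equiv.swap none x (some i)))) * (1 / 2) ^ Fintype.card κ := by
      have : ∀ i : κ, (1 + ∑ j : κ, (Matrix.of fun (i j : κ) =>
        M (Equiv.swap none x (some i)) (some j)) i j) / 2
          = (1 + s (Equiv.swap none x (some i))) * (1 / 2) := by
        intro i; simp only [Matrix.of_apply, hs]; ring
      simp_rw [this]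
      rw [Finset.prod_mul_distrib, Finset.prod_const, Finset.card_univ]
    rw [h4] at h3
    have h5 := prod_swap x (fun y => 1 + s y)
    have hx : 0 < 1 + s x := by have := hs0 x; linarith
    calc M x none * (Matrix.of fun (i j : κ) =>
            M (Equiv.swap none x (some i)) (some j)).permanent
        ≤ M x none * ((∏ i : κ, (1 + s (Equiv.swap none x (some i)))) *
            (1 / 2) ^ Fintype.card κ) := mul_le_mul_of_nonneg_left h3 (h0 _ _)
      _ = (M x none / (1 + s x)) * (∏ y, (1 + s y)) * (1 / 2) ^ Fintype.card κ := by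
          rw [← h5]; field_simp
  have h6 := (two_sum_le_prod (Finset.univ : Finset (Option κ)) (fun x => M x none / (1 + s x))
    (fun x _ => div_nonneg (h0 _ _) (by have := hs0 x; linarith))
    (fun x _ => by
      have := hs0 x
      have := h1 x none
      rw [div_le_one (by linarith)]
      linarith)).1
  have h7 : ∏ x : Option κ, (1 + M x none / (1 + s x)) * (1 + s x) = ∏ x, (1 + ∑ j, M x j) := by
    refine Finset.prod_congr rfl fun x _ => ?_
    have hx : 0 < 1 + s x := by have := hs0 x; linarith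
    rw [Fintype.sum_option]
    field_simp
    simp only [hs]
    ring
  calc ∑ x : Option κ, M x none *
      (Matrix.of fun (i j : κ) => M (Equiv.swap none x (some i)) (some j)).permanent
      ≤ ∑ x : Option κ, (M x none / (1 + s x)) * (∏ y, (1 + s y)) * (1 / 2) ^ Fintype.card κ :=
        Finset.sum_le_sum fun x _ => h2 x
    _ = (2 * ∑ x : Option κ, M x none / (1 + s x)) * (∏ y, (1 + s y)) *
          (1 / 2) ^ (Fintype.card κ + 1) := by
        rw [← Finset.sum_mul, ← Finset.sum_mul, pow_succ]; ring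
    _ ≤ (∏ x : Option κ, (1 + M x none / (1 + s x))) * (∏ y, (1 + s y)) *
          (1 / 2) ^ (Fintype.card κ + 1) := by
        refine mul_le_mul_of_nonneg_right (mul_le_mul_of_nonneg_right h6 hP.le) (by positivity)
    _ = ∏ i, (1 + ∑ j, M i j) / 2 := by
        rw [← Finset.prod_mul_distrib, h7]
        have : ∀ i : Option κ, (1 + ∑ j, M i j) / 2 = (1 + ∑ j, M i j) * (1 / 2) := by
          intro i; ring
        simp_rw [this]
        rw [Finset.prod_mul_distrib, Finset.prod_const, Finset.card_univ, Fintype.card_option]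

lemma permanent_submatrix_equiv' {κ' : Type} [Fintype κ'] [DecidableEq κ'] {R : Type}
    [CommSemiring R] (e : κ' ≃ κ) (M : Matrix κ κ R) :
    (M.submatrix e e).permanent = M.permanent := by
  unfold permanent
  refine Fintype.sum_equiv (Equiv.permCongr e) _ _ fun σ => ?_
  refine Fintype.prod_equiv e _ _ fun i => ?_
  simp [Equiv.permCongr_apply]

/-- Minc's bound for the permanent of a matrix with entries in `[0,1]`. -/
theorem minc (n : ℕ) (M : Matrix (Fin n) (Fin n) ℝ) (h0 : ∀ i j, 0 ≤ M i j)
    (h1 : ∀ i j, M i j ≤ 1) : M.permanent ≤ ∏ i, (1 + ∑ j, M i j) / 2 := by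
  induction n with
  | zero => simp [permanent_isEmpty]
  | succ n ih =>
    have e := (finSuccEquiv n).symm
    have h := minc_step (M.submatrix e e) (fun i j => h0 _ _) (fun i j => h1 _ _) ih
    rw [permanent_submatrix_equiv'] at h
    refine h.trans (le_of_eq ?_)
    refine Fintype.prod_equiv e _ _ fun i => ?_
    congr 2
    exact Fintype.sum_equiv e _ _ fun j => rfl

/-- The trivial bound. -/
lemma permanent_le_factorial (n : ℕ) (M : Matrix (Fin n) (Fin n) ℝ) (h0 : ∀ i j, 0 ≤ M i j)
    (h1 : ∀ i j, M i j ≤ 1) : M.permanent ≤ (n.factorial : ℝ) := by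
  unfold permanent
  calc ∑ σ : Equiv.Perm (Fin n), ∏ i, M (σ i) i ≤ ∑ _σ : Equiv.Perm (Fin n), (1 : ℝ) :=
        Finset.sum_le_sum fun σ _ => Finset.prod_le_one (fun i _ => h0 _ _) (fun i _ => h1 _ _)
    _ = (n.factorial : ℝ) := by simp [Fintype.card_perm]

end Pool.Agent.Lib.MP_6947cd_al
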