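import Pool.Agent.Lib.MP_6947cd_al.Step
import Pool.Agent.Lib.MP_6947cd_al.Upper

/-!
Problem MP_6947cd_al (Chollet).  Permanents of Gram matrices as norms of products of linear forms
for the Fischer inner product on polynomials; creation and annihilation operators; the merging
inequality for two vertices.
-/

set_option autoImplicit false
open scoped Matrix ComplexOrder
open Matrix Finset MvPolynomial

namespace Pool.Agent.Lib.MP_6947cd_al
namespace Fock

variable {ι : Type} [Fintype ι]

/-- the factorial weight of a monomial -/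
noncomputable def fac (d : ι →₀ ℕ) : ℝ := ∏ i, ((d i).factorial : ℝ)

lemma fac_pos (d : ι →₀ ℕ) : 0 < fac d := Finset.prod_pos fun i _ => by positivity

lemma fac_add_single (d : ι →₀ ℕ) (a : ι) :
    fac (d + Finsupp.single a 1) = fac d * (d a + 1) := by
  classical
  unfold fac
  rw [← Finset.mul_prod_erase _ _ (Finset.mem_univ a),
    ← Finset.mul_prod_erase _ (fun i => ((d i).factorial : ℝ)) (Finset.mem_univ a)]
  have h1 : ∏ x ∈ Finset.univ.erase a, (((d + Finsupp.single a 1 : ι →₀ ℕ) x).factorial : ℝ)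
      = ∏ x ∈ Finset.univ.erase a, ((d x).factorial : ℝ) := by
    refine Finset.prod_congr rfl fun x hx => ?_
    have hxa : x ≠ a := Finset.ne_of_mem_erase hx
    simp [hxa.symm]
  rw [h1]
  simp only [Finsupp.add_apply, Finsupp.single_eq_same, Nat.factorial_succ]
  push_cast
  ring

/-- the Fischer product, linear in the second argument -/
noncomputable def ip (p q : MvPolynomial ι ℂ) : ℂ :=
  ∑ d ∈ p.support, (fac d : ℂ) * (star (coeff d p) * coeff d q)

lemma ip_eq (p q : MvPolynomial ι ℂ) (s : Finset (ι →₀ ℕ)) (hs : p.support ⊆ s) :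
    ip p q = ∑ d ∈ s, (fac d : ℂ) * (star (coeff d p) * coeff d q) := by
  unfold ip
  refine Finset.sum_subset hs fun d _ hd => ?_
  rw [notMem_support_iff.mp hd]
  simp

lemma ip_eq' (p q : MvPolynomial ι ℂ) (s : Finset (ι →₀ ℕ)) (hs : q.support ⊆ s) :
    ip p q = ∑ d ∈ s, (fac d : ℂ) * (star (coeff d p) * coeff d q) := by
  classical
  rw [ip_eq p q (p.support ∪ s) Finset.subset_union_left]
  symm
  refine Finset.sum_subset Finset.subset_union_right fun d _ hd => ?_
  have : coeff d q = 0 := notMem_support_iff.mp fun h => hd (hs h)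
  rw [this]
  simp

lemma star_ip (p q : MvPolynomial ι ℂ) : star (ip p q) = ip q p := by
  rw [ip_eq' q p p.support (Finset.Subset.refl _)]
  unfold ip
  rw [star_sum]
  refine Finset.sum_congr rfl fun d _ => ?_
  have h1 : star ((fac d : ℝ) : ℂ) = ((fac d : ℝ) : ℂ) := by
    rw [Complex.star_def, Complex.conj_ofReal]
  rw [star_mul', star_mul', star_star, h1]
  ring

lemma ip_add (p q q' : MvPolynomial ι ℂ) : ip p (q + q') = ip p q + ip p q' := by
  unfold ip
  rw [← Finset.sum_add_distrib]
  refine Finset.sum_congr rfl fun d _ => ?_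
  rw [coeff_add]
  ring

lemma ip_C_mul (p q : MvPolynomial ι ℂ) (c : ℂ) : ip p (C c * q) = c * ip p q := by
  unfold ip
  rw [Finset.mul_sum]
  refine Finset.sum_congr rfl fun d _ => ?_
  rw [coeff_C_mul]
  ring

lemma ip_zero (p : MvPolynomial ι ℂ) : ip p 0 = 0 := by
  unfold ip; simp

lemma ip_sum {α : Type} (s : Finset α) (p : MvPolynomial ι ℂ) (f : α → MvPolynomial ι ℂ) :
    ip p (∑ x ∈ s, f x) = ∑ x ∈ s, ip p (f x) := by
  classical
  induction s using Finset.induction_on with
  | empty => simp [ip_zero]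
  | insert a s ha ih => rw [Finset.sum_insert ha, Finset.sum_insert ha, ip_add, ih]

lemma add_ip (p p' q : MvPolynomial ι ℂ) : ip (p + p') q = ip p q + ip p' q := by
  rw [← star_ip q (p + p'), ip_add, star_add, star_ip, star_ip]

lemma C_mul_ip (p q : MvPolynomial ι ℂ) (c : ℂ) : ip (C c * p) q = star c * ip p q := by
  rw [← star_ip q (C c * p), ip_C_mul, star_mul', star_ip]

lemma sum_ip {α : Type} (s : Finset α) (q : MvPolynomial ι ℂ) (f : α → MvPolynomial ι ℂ) :
    ip (∑ x ∈ s, f x) q = ∑ x ∈ s, ip (f x) q := by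
  rw [← star_ip q, ip_sum, star_sum]
  exact Finset.sum_congr rfl fun x _ => star_ip _ _

/-- the squared norm -/
noncomputable def nsq (p : MvPolynomial ι ℂ) : ℝ := (ip p p).re

lemma nsq_nonneg (p : MvPolynomial ι ℂ) : 0 ≤ nsq p := by
  unfold nsq ip
  rw [Complex.re_sum]
  refine Finset.sum_nonneg fun d _ => ?_
  rw [Complex.star_def, ← Complex.normSq_eq_conj_mul_self, ← Complex.ofReal_mul, Complex.ofReal_re]
  exact mul_nonneg (fac_pos d).le (Complex.normSq_nonneg _)

lemma ip_self (p : MvPolynomial ι ℂ) : ip p p = (nsq p : ℂ) := by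
  have h := star_ip p p
  rw [Complex.star_def] at h
  exact (Complex.conj_eq_iff_re.mp h).symm

/-- adjointness of multiplication by a variable and differentiation -/
lemma ip_X_mul (a : ι) (p q : MvPolynomial ι ℂ) : ip (X a * p) q = ip p (pderiv a q) := by
  classical
  have key : ∀ (d : ι →₀ ℕ) (c : ℂ), ip (X a * monomial d c) q = ip (monomial d c) (pderiv a q) := by
    intro d c
    have h1 : (X a * monomial d c : MvPolynomial ι ℂ) = monomial (d + Finsupp.single a 1) c := by
      rw [X, monomial_mul, one_mul, add_comm]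
    rw [h1, ip_eq (monomial (d + Finsupp.single a 1) c) q {d + Finsupp.single a 1} support_monomial_subset,
      ip_eq (monomial d c) (pderiv a q) {d} support_monomial_subset, Finset.sum_singleton,
      Finset.sum_singleton, coeff_monomial, coeff_monomial, if_pos rfl, if_pos rfl, fac_add_single,
      coeff_pderiv]
    push_cast
    ring
  have h2 : p = ∑ d ∈ p.support, monomial d (coeff d p) := (support_sum_monomial_coeff p).symm
  rw [h2, Finset.mul_sum, sum_ip, sum_ip]
  exact Finset.sum_congr rfl fun d _ => key d _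

/-- the linear form of a vector -/
noncomputable def lin (v : ι → ℂ) : MvPolynomial ι ℂ := ∑ a, C (v a) * X a

/-- annihilation -/
noncomputable def ann (v : ι → ℂ) : Derivation ℂ (MvPolynomial ι ℂ) (MvPolynomial ι ℂ) :=
  ∑ a, (star (v a)) • pderiv a

lemma ann_apply (v : ι → ℂ) (q : MvPolynomial ι ℂ) :
    ann v q = ∑ a, C (star (v a)) * pderiv a q := by
  unfold ann
  have h : ∀ s : Finset ι, ((∑ a ∈ s, (star (v a)) • pderiv a :
      Derivation ℂ (MvPolynomial ι ℂ) (MvPolynomial ι ℂ))) q
        = ∑ a ∈ s, C (star (v a)) * pderiv a q := by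
    classical
    intro s
    induction s using Finset.induction_on with
    | empty => simp
    | insert a s ha ih =>
      rw [Finset.sum_insert ha, Finset.sum_insert ha, Derivation.add_apply, ih,
        Derivation.smul_apply, C_mul']
  exact h _

/-- the inner product of vectors -/
noncomputable def dot (v w : ι → ℂ) : ℂ := ∑ a, star (v a) * w a

lemma ann_lin (v w : ι → ℂ) : ann v (lin w) = C (dot v w) := by
  classical
  rw [ann_apply]
  unfold lin dot
  rw [map_sum]
  refine Finset.sum_congr rfl fun a _ => ?_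
  rw [map_sum, Finset.sum_eq_single a]
  · rw [pderiv_C_mul, pderiv_X_self, mul_one, C_mul]
  · intro b _ hb
    rw [pderiv_C_mul, pderiv_X_of_ne hb, mul_zero]
  · intro h; exact absurd (Finset.mem_univ a) h

lemma lin_mul_ip (v : ι → ℂ) (p q : MvPolynomial ι ℂ) : ip (lin v * p) q = ip p (ann v q) := by
  rw [ann_apply, ip_sum]
  unfold lin
  rw [Finset.sum_mul, sum_ip]
  refine Finset.sum_congr rfl fun a _ => ?_
  rw [mul_assoc, C_mul_ip, ip_X_mul, ip_C_mul]

lemma ip_lin_mul (v : ι → ℂ) (p q : MvPolynomial ι ℂ) : ip p (lin v * q) = ip (ann v p) q := by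
  rw [← star_ip (lin v * q) p, lin_mul_ip, star_ip]

lemma ann_lin_mul (v w : ι → ℂ) (q : MvPolynomial ι ℂ) :
    ann v (lin w * q) = C (dot v w) * q + lin w * ann v q := by
  rw [Derivation.leibniz, ann_lin, smul_eq_mul, smul_eq_mul]
  ring

lemma ann_prod {κ : Type} [DecidableEq κ] (v : ι → ℂ) (w : κ → ι → ℂ) (s : Finset κ) :
    ann v (∏ k ∈ s, lin (w k)) = ∑ x ∈ s, C (dot v (w x)) * ∏ k ∈ s.erase x, lin (w k) := by
  classical
  induction s using Finset.induction_on with
  | empty => simp
  | insert a s ha ih =>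
    rw [Finset.prod_insert ha, ann_lin_mul, ih, Finset.sum_insert ha, Finset.erase_insert ha]
    congr 1
    rw [Finset.mul_sum]
    refine Finset.sum_congr rfl fun x hx => ?_
    have hxa : a ≠ x := fun h => ha (h ▸ hx)
    rw [Finset.erase_insert_of_ne hxa, Finset.prod_insert (fun h => ha (Finset.mem_of_mem_erase h))]
    ring

lemma prod_swap' {κ : Type} [Fintype κ] [DecidableEq κ] {R : Type} [CommMonoid R] (x : Option κ)
    (f : Option κ → R) :
    ∏ i : κ, f (Equiv.swap none x (some i)) = ∏ y ∈ Finset.univ.erase x, f y := by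
  have h1 : ∏ y ∈ (Finset.univ : Finset (Option κ)).erase none, f (Equiv.swap none x y)
      = ∏ i : κ, f (Equiv.swap none x (some i)) := by
    have : (Finset.univ : Finset (Option κ)).erase none
        = (Finset.univ : Finset κ).map Function.Embedding.some := by
      ext y
      cases y <;> simp
    rw [this, Finset.prod_map]
    rfl
  rw [← h1]
  refine Finset.prod_equiv (Equiv.swap none x) ?_ ?_
  · intro y
    simp only [Finset.mem_erase, Finset.mem_univ, and_true, ne_eq]
    constructor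
    · intro h h2
      apply h
      have := congrArg (Equiv.swap none x) h2
      rw [Equiv.swap_apply_self, Equiv.swap_apply_right] at this
      exact this
    · intro h h2
      rw [h2, Equiv.swap_apply_left] at h
      exact h rfl
  · intro y _
    rfl

lemma ann_prod_option {κ : Type} [Fintype κ] [DecidableEq κ] (v : ι → ℂ) (w : Option κ → ι → ℂ) :
    ann v (∏ k, lin (w k)) = ∑ x, C (dot v (w x)) * ∏ i : κ, lin (w (Equiv.swap none x (some i))) := by
  rw [ann_prod]
  refine Finset.sum_congr rfl fun x _ => ?_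
  rw [prod_swap' x (fun y => lin (w y))]

/-- inner products of products of linear forms are permanents -/
theorem ip_prod (κ : Type) [Fintype κ] : ∀ [DecidableEq κ] (v w : κ → ι → ℂ),
    ip (∏ k, lin (v k)) (∏ k, lin (w k)) = (Matrix.of fun i j => dot (v i) (w j)).permanent := by
  refine Fintype.induction_empty_option (P := fun κ _ => ∀ [DecidableEq κ] (v w : κ → ι → ℂ),
    ip (∏ k, lin (v k)) (∏ k, lin (w k)) = (Matrix.of fun i j => dot (v i) (w j)).permanent)
    ?_ ?_ ?_ κ
  · intro α β _ e ih _ v w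
    let _ : Fintype α := Fintype.ofEquiv β e.symm
    have _ : DecidableEq α := e.decidableEq
    have h := ih (fun a => v (e a)) (fun a => w (e a))
    have h1 : ∏ k : α, lin (v (e k)) = ∏ k : β, lin (v k) := Equiv.prod_comp e (fun k => lin (v k))
    have h2 : ∏ k : α, lin (w (e k)) = ∏ k : β, lin (w k) := Equiv.prod_comp e (fun k => lin (w k))
    have h3 := permanent_submatrix_equiv' e (Matrix.of fun i j => dot (v i) (w j) : Matrix β β ℂ)
    rw [h1, h2] at h
    rw [h, ← h3]
    rfl
  · intro _ v w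
    classical
    simp only [Finset.univ_eq_empty, Finset.prod_empty]
    rw [permanent_isEmpty]
    have h1 : ip (1 : MvPolynomial ι ℂ) 1 = 1 := by
      have h2 : (1 : MvPolynomial ι ℂ) = monomial 0 1 := rfl
      rw [h2, ip_eq (monomial 0 1) (monomial 0 1) {0} support_monomial_subset, Finset.sum_singleton,
        coeff_monomial, if_pos rfl]
      simp [fac]
    exact h1
  · intro κ _ ih inst v w
    classical
    obtain rfl : inst = (fun a b => a.instDecidableEq b) := Subsingleton.elim _ _
    have e1 : ∏ k : Option κ, lin (v k) = lin (v none) * ∏ k : κ, lin (v (some k)) :=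
      Fintype.prod_option _
    rw [e1, lin_mul_ip, ann_prod_option, ip_sum, ← permanent_transpose, permanent_option]
    refine Finset.sum_congr rfl fun x _ => ?_
    rw [ip_C_mul, ih (fun k => v (some k)) (fun i => w (Equiv.swap none x (some i)))]
    congr 1
    rw [← permanent_transpose]
    rfl

/-- permanents of Gram matrices as norms -/
theorem permanent_gram_nsq {κ : Type} [Fintype κ] [DecidableEq κ] (Y : Matrix ι κ ℂ) :
    (Yᴴ * Y).permanent = (nsq (∏ k, lin (fun a => Y a k)) : ℂ) := by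
  rw [← ip_self, ip_prod κ (fun k a => Y a k) (fun k a => Y a k)]
  rfl

lemma ann_smul_add (v v' : ι → ℂ) (α β : ℝ) (q : MvPolynomial ι ℂ) :
    ann (fun a => (α : ℂ) * v a + (β : ℂ) * v' a) q
      = C (α : ℂ) * ann v q + C (β : ℂ) * ann v' q := by
  rw [ann_apply, ann_apply, ann_apply, Finset.mul_sum, Finset.mul_sum, ← Finset.sum_add_distrib]
  refine Finset.sum_congr rfl fun a _ => ?_
  simp only [star_add, star_mul', Complex.star_def, Complex.conj_ofReal, C_add, C_mul]
  ring

lemma nsq_comb (p q : MvPolynomial ι ℂ) (α β : ℝ) :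
    nsq (C (α : ℂ) * p + C (β : ℂ) * q)
      = α ^ 2 * nsq p + β ^ 2 * nsq q + 2 * (α * β) * (ip p q).re := by
  have h := star_ip p q
  have h2 : (ip q p).re = (ip p q).re := by rw [← h]; simp
  unfold nsq
  rw [ip_add, add_ip, add_ip, C_mul_ip, C_mul_ip, C_mul_ip, C_mul_ip]
  simp only [ip_C_mul, Complex.star_def, Complex.conj_ofReal, Complex.add_re, Complex.re_ofReal_mul]
  rw [h2]
  ring

/-- one creation -/
lemma nsq_lin_mul (v : ι → ℂ) (Ψ : MvPolynomial ι ℂ) :
    nsq (lin v * Ψ) = (dot v v).re * nsq Ψ + nsq (ann v Ψ) := by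
  have hd : dot v v = ((dot v v).re : ℂ) := by
    unfold dot
    rw [Complex.re_sum, Complex.ofReal_sum]
    refine Finset.sum_congr rfl fun a _ => ?_
    rw [Complex.star_def, ← Complex.normSq_eq_conj_mul_self, Complex.ofReal_re]
  unfold nsq
  rw [lin_mul_ip, ann_lin_mul, ip_add, ip_C_mul, ip_lin_mul, Complex.add_re]
  rw [hd, Complex.re_ofReal_mul]
  simp

/-- two creations -/
lemma nsq_lin_mul_lin_mul (f e : ι → ℂ) (s : ℝ) (hf : dot f f = 1) (he : dot e e = 1)
    (hfe : dot f e = (s : ℂ)) (Ψ : MvPolynomial ι ℂ) :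
    nsq (lin f * (lin e * Ψ)) = (1 + s ^ 2) * nsq Ψ + nsq (ann f Ψ) + nsq (ann e Ψ)
      + 2 * s * (ip (ann f Ψ) (ann e Ψ)).re + nsq (ann e (ann f Ψ)) := by
  have hef : dot e f = (s : ℂ) := by
    have : dot e f = star (dot f e) := by
      unfold dot
      rw [star_sum]
      refine Finset.sum_congr rfl fun a _ => ?_
      rw [star_mul', star_star, mul_comm]
    rw [this, hfe]
    simp
  have h := star_ip (ann f Ψ) (ann e Ψ)
  have h2 : (ip (ann e Ψ) (ann f Ψ)).re = (ip (ann f Ψ) (ann e Ψ)).re := by rw [← h]; simp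
  have e1 : nsq (lin f * (lin e * Ψ)) = (ip Ψ (ann e (ann f (lin f * (lin e * Ψ))))).re := by
    unfold nsq
    rw [lin_mul_ip, lin_mul_ip]
  have e2 : ann e (ann f (lin f * (lin e * Ψ)))
      = C ((1 + s ^ 2 : ℝ) : ℂ) * Ψ + (lin e * ann e Ψ + lin f * ann f Ψ)
        + C (s : ℂ) * (lin e * ann f Ψ + lin f * ann e Ψ)
        + lin f * (lin e * ann e (ann f Ψ)) := by
    rw [ann_lin_mul, hf, ann_lin_mul, hfe, C_1, one_mul, map_add, ann_lin_mul, he, ann_lin_mul, hef,
      map_add, ann_lin_mul, he]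
    have e3 : ann e (C (s : ℂ) * Ψ) = C (s : ℂ) * ann e Ψ := by
      rw [C_mul', Derivation.map_smul, C_mul']
    rw [e3]
    have e4 : (C ((1 + s ^ 2 : ℝ) : ℂ) : MvPolynomial ι ℂ) = 1 + C (s : ℂ) * C (s : ℂ) := by
      push_cast
      rw [C_add, C_1, C_pow]
      ring
    rw [e4, C_1]
    ring
  rw [e1, e2, ip_add, ip_add, ip_add, ip_C_mul, ip_C_mul, ip_add, ip_add]
  simp only [ip_lin_mul, Complex.add_re, Complex.re_ofReal_mul]
  rw [h2]
  unfold nsq
  ring

/-- THE MERGING INEQUALITY, for vectors. -/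
theorem merge_nsq (f e : ι → ℂ) (s lam α β : ℝ) (hf : dot f f = 1) (he : dot e e = 1)
    (hfe : dot f e = (s : ℂ)) (hu : α ^ 2 + β ^ 2 + 2 * α * β * s = 1)
    (h1 : lam * α ^ 2 ≤ 1) (h2 : lam * β ^ 2 ≤ 1)
    (h3 : (s - lam * (α * β)) ^ 2 ≤ (1 - lam * α ^ 2) * (1 - lam * β ^ 2))
    (Ψ : MvPolynomial ι ℂ) :
    lam * nsq (lin (fun a => (α : ℂ) * f a + (β : ℂ) * e a) * Ψ) + (1 + s ^ 2 - lam) * nsq Ψ
      ≤ nsq (lin f * (lin e * Ψ)) := by
  have hdd : (dot (fun a => (α : ℂ) * f a + (β : ℂ) * e a)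
      (fun a => (α : ℂ) * f a + (β : ℂ) * e a)).re = 1 := by
    have hef : dot e f = (s : ℂ) := by
      have : dot e f = star (dot f e) := by
        unfold dot
        rw [star_sum]
        refine Finset.sum_congr rfl fun a _ => ?_
        rw [star_mul', star_star, mul_comm]
      rw [this, hfe]
      simp
    have : dot (fun a => (α : ℂ) * f a + (β : ℂ) * e a) (fun a => (α : ℂ) * f a + (β : ℂ) * e a)
        = (α : ℂ) * α * dot f f + (β : ℂ) * β * dot e e + (α : ℂ) * β * (dot f e + dot e f) := by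
      unfold dot
      rw [← Finset.sum_add_distrib, Finset.mul_sum, Finset.mul_sum, Finset.mul_sum,
        ← Finset.sum_add_distrib, ← Finset.sum_add_distrib]
      refine Finset.sum_congr rfl fun a _ => ?_
      simp only [star_add, star_mul', Complex.star_def, Complex.conj_ofReal]
      ring
    rw [this, hf, he, hfe, hef]
    have : (α : ℂ) * α * 1 + (β : ℂ) * β * 1 + (α : ℂ) * β * ((s : ℂ) + s)
        = ((α ^ 2 + β ^ 2 + 2 * α * β * s : ℝ) : ℂ) := by
      push_cast
      ring
    rw [this, hu, Complex.ofReal_re]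
  rw [nsq_lin_mul, hdd, ann_smul_add, nsq_comb, nsq_lin_mul_lin_mul f e s hf he hfe]
  have hA := nsq_nonneg (ann e (ann f Ψ))
  -- positivity of the quadratic form
  have hx0 : 0 ≤ 1 - lam * α ^ 2 := by linarith
  have hy0 : 0 ≤ 1 - lam * β ^ 2 := by linarith
  set x := Real.sqrt (1 - lam * α ^ 2) with hx
  set y := Real.sqrt (1 - lam * β ^ 2) with hy
  have hxx : x ^ 2 = 1 - lam * α ^ 2 := Real.sq_sqrt hx0
  have hyy : y ^ 2 = 1 - lam * β ^ 2 := Real.sq_sqrt hy0
  have hx' : 0 ≤ x := Real.sqrt_nonneg _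
  have hy' : 0 ≤ y := Real.sqrt_nonneg _
  have hxy : |s - lam * (α * β)| ≤ x * y :=
    abs_le_of_sq_le_sq (by rw [mul_pow, hxx, hyy]; exact h3) (mul_nonneg hx' hy')
  have hQ1 := nsq_nonneg (C (x : ℂ) * ann f Ψ + C (y : ℂ) * ann e Ψ)
  have hQ2 := nsq_nonneg (C (x : ℂ) * ann f Ψ + C ((-y : ℝ) : ℂ) * ann e Ψ)
  rw [nsq_comb, hxx, hyy] at hQ1
  rw [nsq_comb, neg_sq, hxx, hyy] at hQ2
  obtain ⟨t1, t2⟩ := abs_le.mp hxy
  set G := (ip (ann f Ψ) (ann e Ψ)).re with hG
  rcases le_total 0 G with h0 | h0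
  · nlinarith [mul_nonneg (sub_nonneg.mpr t1) h0]
  · nlinarith [mul_nonneg (sub_nonneg.mpr t2) (neg_nonneg.mpr h0)]

end Fock
end Pool.Agent.Lib.MP_6947cd_al
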