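import Mathlib

set_option autoImplicit false
open MeasureTheory intervalIntegral Set

namespace Pool.Agent.Lib.MP_6947cd_al

lemma int_log (a : ℝ) : ∫ t in a..1, Real.log t = - (a * Real.log a) - 1 + a := by
  rw [integral_log]; simp

lemma intInt_mul_log (a b : ℝ) : IntervalIntegrable (fun s : ℝ => s * Real.log s) volume a b :=
  Real.continuous_mul_log.intervalIntegrable a b

lemma int_mul_log (a : ℝ) (h1 : a ≤ 1) (h0 : 0 ≤ a) :
    ∫ s in a..1, s * Real.log s = -1 / 4 - a ^ 2 * Real.log a / 2 + a ^ 2 / 4 := by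
  have h := integral_eq_sub_of_hasDerivAt_of_le (a := a) (b := 1)
    (f := fun s : ℝ => s * (s * Real.log s) / 2 - s ^ 2 / 4) (f' := fun s => s * Real.log s) h1
    (by
      have := Real.continuous_mul_log
      apply Continuous.continuousOn
      fun_prop)
    (by
      intro x hx
      have hx0 : x ≠ 0 := by have := hx.1; intro h; linarith
      have h2 := (((hasDerivAt_id' x).fun_mul ((hasDerivAt_id' x).fun_mul (Real.hasDerivAt_log hx0))).div_const 2).fun_sub
        ((hasDerivAt_pow 2 x).div_const 4)
      refine h2.congr_deriv ?_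
      field_simp
      ring)
    (intInt_mul_log a 1)
  rw [h]
  simp
  ring

section logmax

/-- The function `log max(b t, a (1 - t))`. -/
noncomputable def lmax (a b t : ℝ) : ℝ := Real.log (max (b * t) (a * (1 - t)))

variable {a b : ℝ}

lemma lmax_left (h0 : 0 ≤ a) (hb : 0 ≤ b) (hab : a + b = 1) {t : ℝ} (ht0 : 0 ≤ t) (ht : t ≤ a) :
    lmax a b t = Real.log a + Real.log (1 - t) := by
  have h1 : b * t ≤ a * (1 - t) := by nlinarith
  unfold lmax
  rw [max_eq_right h1]
  by_cases ha : a = 0
  · have ht' : t = 0 := by rw [ha] at ht; exact le_antisymm ht ht0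
    rw [ha, ht']; simp
  · by_cases h2 : 1 - t = 0
    · have : a = 1 := by linarith
      rw [h2, this]; simp
    · exact Real.log_mul ha h2

lemma lmax_right (h0 : 0 ≤ a) (hb : 0 ≤ b) (hab : a + b = 1) {t : ℝ} (ht1 : t ≤ 1) (ht : a ≤ t) :
    lmax a b t = Real.log b + Real.log t := by
  have h1 : a * (1 - t) ≤ b * t := by nlinarith
  unfold lmax
  rw [max_eq_left h1]
  by_cases hb' : b = 0
  · have ha : a = 1 := by linarith
    have ht' : t = 1 := by rw [ha] at ht; exact le_antisymm ht1 ht
    rw [hb', ht']; simp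
  · by_cases h2 : t = 0
    · have : b = 1 := by linarith
      rw [h2, this]; simp
    · exact Real.log_mul hb' h2

lemma intInt_log_one_sub (x y : ℝ) : IntervalIntegrable (fun t : ℝ => Real.log (1 - t)) volume x y := by
  have h := (intervalIntegrable_log' (a := 1 - x) (b := 1 - y)).comp_sub_left 1
  simpa using h

/-- `lmax` times a continuous weight is integrable on both parts. -/
lemma intInt_left (h0 : 0 ≤ a) (hb : 0 ≤ b) (hab : a + b = 1) (w : ℝ → ℝ) (hw : Continuous w) :
    IntervalIntegrable (fun t => w t * lmax a b t) volume 0 a := by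
  have h : IntervalIntegrable (fun t => w t * (Real.log a + Real.log (1 - t))) volume 0 a :=
    ((intervalIntegrable_const (c := Real.log a)).add (intInt_log_one_sub 0 a)).continuousOn_mul
      hw.continuousOn
  refine h.congr_uIoo ?_
  intro t ht
  rw [uIoo_of_le h0] at ht
  simp only
  rw [lmax_left h0 hb hab ht.1.le ht.2.le]

lemma intInt_right (h0 : 0 ≤ a) (hb : 0 ≤ b) (hab : a + b = 1) (w : ℝ → ℝ) (hw : Continuous w) :
    IntervalIntegrable (fun t => w t * lmax a b t) volume a 1 := by
  have h : IntervalIntegrable (fun t => w t * (Real.log b + Real.log t)) volume a 1 :=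
    ((intervalIntegrable_const (c := Real.log b)).add intervalIntegrable_log').continuousOn_mul
      hw.continuousOn
  refine h.congr_uIoo ?_
  intro t ht
  rw [uIoo_of_le (by linarith)] at ht
  simp only
  rw [lmax_right h0 hb hab ht.2.le ht.1.le]

lemma intInt_lmax (h0 : 0 ≤ a) (hb : 0 ≤ b) (hab : a + b = 1) (w : ℝ → ℝ) (hw : Continuous w) :
    IntervalIntegrable (fun t => w t * lmax a b t) volume 0 1 :=
  (intInt_left h0 hb hab w hw).trans (intInt_right h0 hb hab w hw)

lemma int_split (h0 : 0 ≤ a) (hb : 0 ≤ b) (hab : a + b = 1) (w : ℝ → ℝ) (hw : Continuous w) :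
    ∫ t in (0 : ℝ)..1, w t * lmax a b t
      = (∫ t in (0 : ℝ)..a, w t * (Real.log a + Real.log (1 - t)))
        + ∫ t in a..1, w t * (Real.log b + Real.log t) := by
  rw [← integral_add_adjacent_intervals (intInt_left h0 hb hab w hw) (intInt_right h0 hb hab w hw)]
  congr 1
  · refine integral_congr fun t ht => ?_
    rw [uIcc_of_le h0] at ht
    rw [lmax_left h0 hb hab ht.1 ht.2]
  · refine integral_congr fun t ht => ?_
    rw [uIcc_of_le (by linarith)] at ht
    rw [lmax_right h0 hb hab ht.2 ht.1]

lemma int_lmax (h0 : 0 ≤ a) (hb : 0 ≤ b) (hab : a + b = 1) :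
    ∫ t in (0 : ℝ)..1, (1 : ℝ) * lmax a b t = -1 := by
  rw [int_split h0 hb hab (fun _ => 1) continuous_const]
  simp only [one_mul]
  rw [integral_add intervalIntegrable_const (intInt_log_one_sub 0 a),
    integral_add intervalIntegrable_const intervalIntegrable_log', int_log,
    intervalIntegral.integral_comp_sub_left (fun t => Real.log t) 1]
  simp only [intervalIntegral.integral_const, sub_zero, smul_eq_mul]
  rw [int_log]
  have : b = 1 - a := by linarith
  rw [this]
  ring

lemma int_lmax_w (h0 : 0 ≤ a) (hb : 0 ≤ b) (hab : a + b = 1) :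
    ∫ t in (0 : ℝ)..1, (2 * (1 - t)) * lmax a b t = -1 / 2 - b := by
  rw [int_split h0 hb hab (fun t => 2 * (1 - t)) (by fun_prop)]
  have e1 : ∫ t in (0 : ℝ)..a, 2 * (1 - t) * (Real.log a + Real.log (1 - t))
      = ∫ s in b..1, (2 * Real.log a * s + 2 * (s * Real.log s)) := by
    have := intervalIntegral.integral_comp_sub_left (a := 0) (b := a)
      (fun s => 2 * Real.log a * s + 2 * (s * Real.log s)) 1
    rw [show (1 : ℝ) - a = b by linarith, sub_zero] at this
    rw [← this]
    refine integral_congr fun t _ => ?_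
    ring
  have e2 : ∫ t in a..1, 2 * (1 - t) * (Real.log b + Real.log t)
      = ∫ t in a..1, ((2 * Real.log b * (1 - t) + 2 * Real.log t) - 2 * (t * Real.log t)) := by
    refine integral_congr fun t _ => ?_
    ring
  rw [e1, e2, integral_add (by apply Continuous.intervalIntegrable; fun_prop)
      ((intInt_mul_log b 1).const_mul 2),
    integral_sub (((by apply Continuous.intervalIntegrable; fun_prop :
      IntervalIntegrable (fun t : ℝ => 2 * Real.log b * (1 - t)) volume a 1)).add
      (intervalIntegrable_log'.const_mul 2)) ((intInt_mul_log a 1).const_mul 2),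
    integral_add (by apply Continuous.intervalIntegrable; fun_prop)
      (intervalIntegrable_log'.const_mul 2)]
  simp only [intervalIntegral.integral_const_mul]
  rw [int_mul_log b (by linarith) hb, int_mul_log a (by linarith) h0, int_log,
    integral_sub intervalIntegrable_const intervalIntegrable_id,
    intervalIntegral.integral_const_mul]
  simp only [intervalIntegral.integral_const, smul_eq_mul, integral_id]
  have hb' : b = 1 - a := by linarith
  subst hb'
  ring

end logmax

/-- Jensen's inequality for the exponential function, with weight `w`. -/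
lemma jensen {ι : Type} (s : Finset ι) (G : ℝ → ℝ) (hG : Continuous G) (l : ι → ℝ → ℝ)
    (w lw : ℝ → ℝ) (I : ι → ℝ) (Iw : ℝ) (hw : Continuous w)
    (hw1 : ∫ t in (0 : ℝ)..1, w t = 1)
    (hl : ∀ i ∈ s, IntervalIntegrable (fun t => w t * l i t) volume 0 1)
    (hI : ∀ i ∈ s, ∫ t in (0 : ℝ)..1, w t * l i t = I i)
    (hlw : IntervalIntegrable (fun t => w t * lw t) volume 0 1)
    (hIw : ∫ t in (0 : ℝ)..1, w t * lw t = Iw)
    (hpos : ∀ t ∈ Ioo (0 : ℝ) 1, 0 ≤ w t)
    (hpt : ∀ t ∈ Ioo (0 : ℝ) 1, w t * Real.exp (∑ i ∈ s, l i t - lw t) ≤ G t) :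
    Real.exp (∑ i ∈ s, I i - Iw) ≤ ∫ t in (0 : ℝ)..1, G t := by
  set m := ∑ i ∈ s, I i - Iw with hm
  have hsum : IntervalIntegrable (fun t => ∑ i ∈ s, w t * l i t) volume 0 1 := by
    have := IntervalIntegrable.sum s hl
    refine this.congr_uIoo ?_
    intro t _
    simp
  have hR : IntervalIntegrable
      (fun t => Real.exp m * ((1 - m) * w t + (∑ i ∈ s, w t * l i t - w t * lw t))) volume 0 1 :=
    (((hw.intervalIntegrable 0 1).const_mul (1 - m)).add (hsum.sub hlw)).const_mul _
  have h1 : ∫ t in (0 : ℝ)..1, Real.exp m * ((1 - m) * w t + (∑ i ∈ s, w t * l i t - w t * lw t))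
      = Real.exp m := by
    rw [intervalIntegral.integral_const_mul,
      integral_add ((hw.intervalIntegrable 0 1).const_mul (1 - m)) (hsum.sub hlw),
      integral_sub hsum hlw, intervalIntegral.integral_const_mul, hw1, hIw,
      intervalIntegral.integral_finsetSum hl, Finset.sum_congr rfl hI, ← hm]
    ring
  rw [← h1]
  refine integral_mono_on_of_le_Ioo zero_le_one hR (hG.intervalIntegrable 0 1) ?_
  intro t ht
  refine le_trans ?_ (hpt t ht)
  have h2 := Real.add_one_le_exp (∑ i ∈ s, l i t - lw t - m)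
  have h3 : Real.exp (∑ i ∈ s, l i t - lw t)
      = Real.exp m * Real.exp (∑ i ∈ s, l i t - lw t - m) := by
    rw [← Real.exp_add]; congr 1; ring
  rw [h3]
  have h4 : Real.exp m * ((1 - m) * w t + (∑ i ∈ s, w t * l i t - w t * lw t))
      = w t * (Real.exp m * (∑ i ∈ s, l i t - lw t - m + 1)) := by
    rw [← Finset.mul_sum]; ring
  rw [h4]
  exact mul_le_mul_of_nonneg_left (mul_le_mul_of_nonneg_left h2 (Real.exp_pos m).le) (hpos t ht)

end Pool.Agent.Lib.MP_6947cd_al
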