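import Pool.Agent.Lib.MP_6947cd_al.Chollet
import Pool.Agent.Lib.MP_6947cd_al.Upper

/-!
The two vertex inequality `S(V) ≥ (1 - h) S(V - i) + 2 h S(V - i - j)` for permanents of positive
semidefinite matrices.
-/

set_option autoImplicit false
open scoped Matrix ComplexOrder
open Matrix Finset

namespace Pool.Agent.Lib.MP_6947cd_al
namespace N1

variable {κ : Type} [Fintype κ] [DecidableEq κ]

/-- The number operator. -/
lemma sum_numNone {β : Type} [Fintype β] (ψ : (Option κ → Option β) → ℝ)
    (hψ : ∀ (f : Option κ → Option β) (τ : Equiv.Perm (Option κ)), ψ (f ∘ τ) = ψ f) :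
    ∑ f : Option κ → Option β, (numNone f : ℝ) * ψ f
      = ((Fintype.card κ : ℝ) + 1) * ∑ F : κ → Option β, ψ (fun o => Option.elim o none F) := by
  classical
  have h1 : ∀ j : Option κ, ∑ f : Option κ → Option β,
      (if (f j).isNone then (1 : ℝ) else 0) * ψ f
        = ∑ F : κ → Option β, ψ (fun o => Option.elim o none F) := by
    intro j
    have e := Fintype.sum_equiv
      (Equiv.arrowCongr (Equiv.swap none j) (Equiv.refl (Option β)))
      (fun f : Option κ → Option β => (if (f none).isNone then (1 : ℝ) else 0) * ψ f)
      (fun f : Option κ → Option β => (if (f j).isNone then (1 : ℝ) else 0) * ψ f) ?_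
    · rw [← e]
      have e2 := Fintype.sum_equiv
        (Equiv.piOptionEquivProd (β := fun _ : Option κ => Option β)).symm
        (fun p : Option β × (κ → Option β) =>
          (fun f : Option κ → Option β => (if (f none).isNone then (1 : ℝ) else 0) * ψ f)
            ((Equiv.piOptionEquivProd (β := fun _ : Option κ => Option β)).symm p))
        (fun f : Option κ → Option β => (if (f none).isNone then (1 : ℝ) else 0) * ψ f)
        (fun p => rfl)
      rw [← e2, Fintype.sum_prod_type, Finset.sum_comm]
      refine Finset.sum_congr rfl fun F _ => ?_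
      rw [Finset.sum_eq_single none]
      · have e3 : (Equiv.piOptionEquivProd (β := fun _ : Option κ => Option β)).symm (none, F)
            = fun o => Option.elim o none F := by
          ext o; cases o <;> simp [Equiv.piOptionEquivProd]
        rw [e3]; simp
      · intro x _ hx
        have e4 : ((Equiv.piOptionEquivProd (β := fun _ : Option κ => Option β)).symm (x, F)) none
            = x := by simp [Equiv.piOptionEquivProd]
        beta_reduce
        rw [e4]
        have : x.isNone = false := by
          cases x with
          | none => exact absurd rfl hx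
          | some y => rfl
        rw [this]; simp
      · intro h; exact absurd (Finset.mem_univ _) h
    · intro f
      have e5 : (Equiv.arrowCongr (Equiv.swap none j) (Equiv.refl (Option β))) f
          = f ∘ (Equiv.swap none j) := by
        ext i; simp [Equiv.arrowCongr]
      rw [e5, hψ]
      simp
  have h2 : ∀ f : Option κ → Option β, (numNone f : ℝ) * ψ f
      = ∑ j : Option κ, (if (f j).isNone then (1 : ℝ) else 0) * ψ f := by
    intro f
    rw [← Finset.sum_mul]
    congr 1
    unfold numNone
    push_cast
    rfl
  rw [Finset.sum_congr rfl fun f _ => h2 f, Finset.sum_comm, Finset.sum_congr rfl fun j _ => h1 j,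
    Finset.sum_const, Finset.card_univ, Fintype.card_option, nsmul_eq_mul]
  push_cast
  ring

/-- Gram expansion for two matrices. -/
lemma permanent_gram2 {ι : Type} [Fintype ι] (W Z : Matrix ι κ ℂ) :
    (Wᴴ * Z).permanent = ∑ f : κ → ι, (∏ i, Z (f i) i) * star (selPer W f) := by
  classical
  unfold permanent
  have h1 : ∀ σ : Equiv.Perm κ, ∏ i, (Wᴴ * Z) (σ i) i
      = ∑ f : κ → ι, ∏ i, (star (W (f i) (σ i)) * Z (f i) i) := by
    intro σ
    have : ∀ i, (Wᴴ * Z) (σ i) i = ∑ k : ι, star (W k (σ i)) * Z k i := by
      intro i
      simp [Matrix.mul_apply, Matrix.conjTranspose_apply]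
    simp_rw [this]
    rw [Finset.prod_univ_sum]
    simp
  simp_rw [h1]
  rw [Finset.sum_comm]
  refine Finset.sum_congr rfl fun f _ => ?_
  rw [selPer_eq', star_sum, Finset.mul_sum]
  refine Finset.sum_congr rfl fun σ _ => ?_
  rw [Finset.prod_mul_distrib, star_prod, mul_comm]

/-- Symmetrisation against a symmetric function. -/
lemma symm2 {ι : Type} [Fintype ι] (Z : Matrix ι κ ℂ) (G : (κ → ι) → ℂ)
    (hG : ∀ (f : κ → ι) (τ : Equiv.Perm κ), G (f ∘ τ) = G f) :
    ((Fintype.card κ).factorial : ℂ) * ∑ f : κ → ι, (∏ i, Z (f i) i) * G f
      = ∑ f : κ → ι, selPer Z f * G f := by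
  classical
  have h1 : ∀ τ : Equiv.Perm κ,
      ∑ f : κ → ι, (∏ i, Z (f i) i) * G f = ∑ f : κ → ι, (∏ i, Z (f (τ i)) i) * G f := by
    intro τ
    have := Fintype.sum_equiv (Equiv.arrowCongr τ.symm (Equiv.refl ι))
      (fun f : κ → ι => (∏ i, Z (f (τ i)) i) * G f)
      (fun f : κ → ι => (∏ i, Z (f i) i) * G f) ?_
    · rw [← this]
    · intro f
      have e : (Equiv.arrowCongr τ.symm (Equiv.refl ι)) f = f ∘ τ := by
        ext i; simp [Equiv.arrowCongr]
      rw [e, hG]
      rfl
  have h2 : ((Fintype.card κ).factorial : ℂ) * ∑ f : κ → ι, (∏ i, Z (f i) i) * G f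
      = ∑ τ : Equiv.Perm κ, ∑ f : κ → ι, (∏ i, Z (f (τ i)) i) * G f := by
    rw [← Finset.sum_congr rfl fun τ _ => h1 τ, Finset.sum_const, Finset.card_univ,
      Fintype.card_perm, nsmul_eq_mul]
  rw [h2, Finset.sum_comm]
  refine Finset.sum_congr rfl fun f _ => ?_
  rw [← Finset.sum_mul, ← selPer_eq]

/-- Functions on `Option κ` which start with `none`. -/
def pre {β : Type} (F : κ → Option β) : Option κ → Option β := fun o => Option.elim o none F

lemma selPer_pre_comp {β : Type} (W : Matrix (Option β) (Option κ) ℂ) (F : κ → Option β)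
    (τ : Equiv.Perm κ) : selPer W (pre (F ∘ τ)) = selPer W (pre F) := by
  have e : pre (F ∘ τ) = pre F ∘ (Equiv.optionCongr τ) := by
    ext o; cases o <;> simp [pre]
  rw [e]
  exact selPer_comp W (pre F) (Equiv.optionCongr τ)

/-- Annihilation of a particle in the mode `none`, tested against a product state. -/
lemma mixed {β : Type} [Fintype β] (W : Matrix (Option β) (Option κ) ℂ)
    (Z : Matrix (Option β) κ ℂ) :
    ((Fintype.card κ).factorial : ℂ) * (Wᴴ * bord 1 Z).permanent
      = ∑ F : κ → Option β, selPer Z F * star (selPer W (pre F)) := by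
  classical
  rw [permanent_gram2]
  have e := Fintype.sum_equiv (Equiv.piOptionEquivProd (β := fun _ : Option κ => Option β)).symm
      (fun p : Option β × (κ → Option β) =>
        (fun f : Option κ → Option β => (∏ i, (bord 1 Z) (f i) i) * star (selPer W f))
          ((Equiv.piOptionEquivProd (β := fun _ : Option κ => Option β)).symm p))
      (fun f : Option κ → Option β => (∏ i, (bord 1 Z) (f i) i) * star (selPer W f))
      (fun p => rfl)
  rw [← e, Fintype.sum_prod_type, Finset.sum_comm]
  have h1 : ∀ F : κ → Option β, ∑ x : Option β,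
      (fun f : Option κ → Option β => (∏ i, (bord 1 Z) (f i) i) * star (selPer W f))
          ((Equiv.piOptionEquivProd (β := fun _ : Option κ => Option β)).symm (x, F))
      = (∏ i, Z (F i) i) * star (selPer W (pre F)) := by
    intro F
    rw [Finset.sum_eq_single none]
    · have e3 : (Equiv.piOptionEquivProd (β := fun _ : Option κ => Option β)).symm (none, F)
          = pre F := by
        ext o; cases o <;> simp [Equiv.piOptionEquivProd, pre]
      rw [e3]
      beta_reduce
      rw [Fintype.prod_option]
      have e4 : (bord 1 Z) (pre F none) none = 1 := by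
        show (if (none : Option β).isNone then ((1 : ℝ) : ℂ) else 0) = 1
        simp
      have e5 : ∀ i, (bord 1 Z) (pre F (some i)) (some i) = Z (F i) i := fun i => rfl
      rw [e4, one_mul]
      simp_rw [e5]
    · intro x _ hx
      beta_reduce
      rw [Fintype.prod_option]
      have e6 : (bord 1 Z)
          ((Equiv.piOptionEquivProd (β := fun _ : Option κ => Option β)).symm (x, F) none) none
            = 0 := by
        have e7 : ((Equiv.piOptionEquivProd (β := fun _ : Option κ => Option β)).symm (x, F)) none
            = x := by simp [Equiv.piOptionEquivProd]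
        rw [e7]
        show (if x.isNone then ((1 : ℝ) : ℂ) else 0) = 0
        have : x.isNone = false := by
          cases x with
          | none => exact absurd rfl hx
          | some y => rfl
        rw [this]; simp
      rw [e6, zero_mul, zero_mul]
    · intro h; exact absurd (Finset.mem_univ _) h
  rw [Finset.sum_congr rfl fun F _ => h1 F]
  exact symm2 Z (fun F => star (selPer W (pre F)))
    (fun F τ => by rw [selPer_pre_comp])

/-- Cauchy-Schwarz. -/
lemma cs {α : Type} [Fintype α] (a b : α → ℂ) :
    Complex.normSq (∑ x, a x * star (b x)) ≤ (∑ x, Complex.normSq (a x)) * ∑ x, Complex.normSq (b x) := by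
  have h1 : ‖∑ x, a x * star (b x)‖ ≤ ∑ x, ‖a x‖ * ‖b x‖ := by
    refine (norm_sum_le _ _).trans (le_of_eq ?_)
    refine Finset.sum_congr rfl fun x _ => ?_
    rw [norm_mul, norm_star]
  have h2 := Finset.sum_mul_sq_le_sq_mul_sq Finset.univ (fun x => ‖a x‖) (fun x => ‖b x‖)
  have h3 : Complex.normSq (∑ x, a x * star (b x)) = ‖∑ x, a x * star (b x)‖ ^ 2 :=
    Complex.normSq_eq_norm_sq _
  rw [h3]
  calc ‖∑ x, a x * star (b x)‖ ^ 2 ≤ (∑ x, ‖a x‖ * ‖b x‖) ^ 2 :=
        pow_le_pow_left₀ (norm_nonneg _) h1 2
    _ ≤ _ := h2
    _ = _ := by simp only [Complex.normSq_eq_norm_sq]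

/-- `per A - per N` as a sum of squares. -/
lemma diff_eq {β : Type} [Fintype β] (c : Option κ → ℂ) (Y : Matrix β (Option κ) ℂ)
    (A : Matrix (Option (Option κ)) (Option (Option κ)) ℂ)
    (hnn : A none none = 1) (hsn : ∀ j, A (some j) none = c j)
    (hns : ∀ j, A none (some j) = star (c j))
    (hss : ∀ i j, A (some i) (some j) = (Yᴴ * Y) i j + c i * star (c j)) :
    ((Fintype.card κ).factorial : ℝ) *
      (A.permanent.re - (A.submatrix some some).permanent.re)
      = ∑ F : κ → Option β, Complex.normSq (selPer (ext0 c Y) (pre F)) := by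
  have h1 := permanent_gram_bord 1 c Y A (by rw [hnn]; simp) (fun j => by rw [hsn]; simp)
    (fun j => by rw [hns]; simp) hss
  have h2 := permanent_gram_option c Y 1
  have e : Yᴴ * Y + (((1 : ℝ) ^ 2 : ℝ) : ℂ) • vecMulVec c (star c) = A.submatrix some some := by
    ext i j
    rw [Matrix.add_apply, submatrix_apply, hss, Matrix.smul_apply, vecMulVec_apply]
    simp
  rw [e] at h2
  have h3 := sum_numNone (κ := κ) (fun f => Complex.normSq (selPer (ext0 c Y) f))
    (fun f τ => by rw [selPer_comp])
  have h4 : ((Fintype.card (Option κ)).factorial : ℝ)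
      = ((Fintype.card κ : ℝ) + 1) * ((Fintype.card κ).factorial : ℝ) := by
    rw [Fintype.card_option, Nat.factorial_succ]
    push_cast; ring
  have hpos : (0 : ℝ) < ((Fintype.card κ).factorial : ℝ) := factorial_pos_real
  have hpos2 : (0 : ℝ) < (Fintype.card κ : ℝ) + 1 := by positivity
  rw [h1, h2, h4]
  have h5 : ∑ f : Option κ → Option β, ((numNone f : ℝ) + 1) * Complex.normSq (selPer (ext0 c Y) f)
      = ∑ f : Option κ → Option β, (numNone f : ℝ) * Complex.normSq (selPer (ext0 c Y) f)
        + ∑ f : Option κ → Option β, Complex.normSq (selPer (ext0 c Y) f) := by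
    rw [← Finset.sum_add_distrib]
    refine Finset.sum_congr rfl fun f _ => ?_
    ring
  have h6 : ∑ f : Option κ → Option β, ((1 : ℝ) ^ 2) ^ numNone f *
      Complex.normSq (selPer (ext0 c Y) f)
      = ∑ f : Option κ → Option β, Complex.normSq (selPer (ext0 c Y) f) := by
    refine Finset.sum_congr rfl fun f _ => ?_
    simp
  rw [h5, h6, h3]
  show _ = ∑ F : κ → Option β, Complex.normSq (selPer (ext0 c Y) (fun o => Option.elim o none F))
  field_simp
  ring

/-- Removing the vertex `none`, with the Schur complement: `per M0 ≥ 2 per M - per N`. -/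
lemma schur_ge (N : Matrix (Option κ) (Option κ) ℂ) (hN : N.PosSemidef) (h1 : N none none = 1) :
    2 * (N.submatrix some some).permanent.re - N.permanent.re
      ≤ (Matrix.of fun i j => N (some i) (some j) - N (some i) none * N none (some j)
          : Matrix κ κ ℂ).permanent.re := by
  have hherm : ∀ j, N none (some j) = star (N (some j) none) := by
    intro j
    have := hN.1.apply none (some j)
    rw [← this]
  have hS := schur_corner hN 1 one_ne_zero (by rw [h1]; simp) (fun j => N (some j) none)
    (fun j => by simp)
  obtain ⟨Y, hY⟩ := exists_gram hS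
  have hYij : ∀ i j, (Yᴴ * Y) i j = N (some i) (some j) - N (some i) none * star (N (some j) none) := by
    intro i j; rw [← hY]; rfl
  have g1 := permanent_gram_bord 1 (fun j => N (some j) none) Y N (by rw [h1]; simp)
    (fun j => by simp) (fun j => by rw [hherm]; simp)
    (fun i j => by rw [hYij]; ring)
  have g2 := permanent_gram_option (fun j => N (some j) none) Y 1
  have g3 := permanent_gram_option (fun j => N (some j) none) Y 0
  have e2 : Yᴴ * Y + (((1 : ℝ) ^ 2 : ℝ) : ℂ) • vecMulVec (fun j => N (some j) none)
      (star (fun j => N (some j) none)) = N.submatrix some some := by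
    ext i j
    rw [Matrix.add_apply, submatrix_apply, hYij, Matrix.smul_apply, vecMulVec_apply]
    simp
  have e3 : Yᴴ * Y + (((0 : ℝ) ^ 2 : ℝ) : ℂ) • vecMulVec (fun j => N (some j) none)
      (star (fun j => N (some j) none)) = (Matrix.of fun i j => N (some i) (some j)
        - N (some i) none * N none (some j) : Matrix κ κ ℂ) := by
    ext i j
    rw [Matrix.add_apply, hYij, Matrix.smul_apply, vecMulVec_apply, Matrix.of_apply, hherm]
    simp
  rw [e2] at g2
  rw [e3] at g3
  have hpos : (0 : ℝ) < ((Fintype.card κ).factorial : ℝ) := factorial_pos_real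
  rw [g1, g2, g3]
  rw [one_pow, one_mul, ← mul_div_assoc, ← sub_div]
  refine div_le_div_of_nonneg_right ?_ hpos.le
  rw [Finset.mul_sum, ← Finset.sum_sub_distrib]
  refine Finset.sum_le_sum fun f _ => ?_
  have hn := Complex.normSq_nonneg (selPer (ext0 (fun j => N (some j) none) Y) f)
  rcases Nat.eq_zero_or_pos (numNone f) with h0 | h0
  · rw [h0]; simp; linarith
  · have h0' : (1 : ℝ) ≤ (numNone f : ℝ) := by exact_mod_cast h0
    have e0 : ((0 : ℝ) ^ 2) ^ numNone f = 0 := by
      rw [zero_pow two_ne_zero, zero_pow h0.ne']
    rw [e0]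
    simp only [one_pow]
    nlinarith

/-- The main estimate. -/
lemma core (A : Matrix (Option (Option κ)) (Option (Option κ)) ℂ) (hA : A.PosSemidef)
    (hi : A none none = 1) (hj : A (some none) (some none) = 1) :
    Complex.normSq (A (some none) none) *
      (Matrix.of fun i j => A (some (some i)) (some (some j))
        - A (some (some i)) (some none) * A (some none) (some (some j)) : Matrix κ κ ℂ).permanent.re
      ≤ A.permanent.re - (A.submatrix some some).permanent.re := by
  classical
  set c : Option κ → ℂ := fun j => A (some j) none with hc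
  have hS := schur_corner hA 1 one_ne_zero (by rw [hi]; simp) c (fun j => by simp [hc])
  obtain ⟨Y, hY⟩ := exists_gram hS
  have hns : ∀ j, A none (some j) = star (c j) := by
    intro j
    have := hA.1.apply none (some j)
    rw [← this]
  have hYij : ∀ i j, (Yᴴ * Y) i j = A (some i) (some j) - c i * star (c j) := by
    intro i j; rw [← hY]; rfl
  have hd := diff_eq c Y A hi (fun j => rfl) hns (fun i j => by rw [hYij]; ring)
  set W := ext0 c Y with hW
  -- the Gram matrix of `W`
  have hWW : ∀ a b, (Wᴴ * W) a b = A (some a) (some b) := by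
    intro a b
    rw [Matrix.mul_apply, Fintype.sum_option]
    have h1 := hYij a b
    rw [Matrix.mul_apply] at h1
    simp only [conjTranspose_apply, hW, ext0_none, ext0_some, star_star] at h1 ⊢
    rw [h1]; ring
  set Z : Matrix (Option (Option κ)) κ ℂ :=
    fun x l => W x (some l) - W x none * A (some none) (some (some l)) with hZ
  set M0 : Matrix κ κ ℂ := Matrix.of fun i j => A (some (some i)) (some (some j))
        - A (some (some i)) (some none) * A (some none) (some (some j)) with hM0
  have hherm : ∀ k, star (A (some none) (some (some k))) = A (some (some k)) (some none) := by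
    intro k
    exact hA.1.apply (some (some k)) (some none)
  have hWZ : ∀ a l, ∑ x, star (W x a) * Z x l
      = A (some a) (some (some l)) - A (some a) (some none) * A (some none) (some (some l)) := by
    intro a l
    have h1 := hWW a (some l)
    have h2 := hWW a none
    rw [Matrix.mul_apply] at h1 h2
    simp only [conjTranspose_apply] at h1 h2
    rw [← h1, ← h2, Finset.sum_mul, ← Finset.sum_sub_distrib]
    refine Finset.sum_congr rfl fun x _ => ?_
    rw [hZ]; ring
  have hZZ : Zᴴ * Z = M0 := by
    ext k l
    rw [Matrix.mul_apply]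
    simp only [conjTranspose_apply]
    have h1 : ∀ x, star (Z x k) * Z x l = star (W x (some k)) * Z x l
        - star (A (some none) (some (some k))) * (star (W x none) * Z x l) := by
      intro x
      have : star (Z x k) = star (W x (some k))
          - star (W x none) * star (A (some none) (some (some k))) := by
        rw [hZ]; simp only [star_sub, star_mul']
      rw [this]; ring
    rw [Finset.sum_congr rfl fun x _ => h1 x, Finset.sum_sub_distrib, ← Finset.mul_sum,
      hWZ, hWZ, hj]
    rw [hM0, Matrix.of_apply]
    ring
  have hP : (Wᴴ * bord 1 Z).permanent = c none * M0.permanent := by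
    rw [← permanent_transpose, permanent_option]
    have hrow : ∀ l, (Wᴴ * bord 1 Z) none (some l) = 0 := by
      intro l
      rw [Matrix.mul_apply]
      have : ∀ x, Wᴴ none x * bord 1 Z x (some l) = star (W x none) * Z x l := fun x => rfl
      rw [Finset.sum_congr rfl fun x _ => this x, hWZ, hj]
      ring
    have hcol : (Wᴴ * bord 1 Z) none none = c none := by
      rw [Matrix.mul_apply, Fintype.sum_option]
      have e1 : Wᴴ none none * bord 1 Z none none = c none := by
        show star (W none none) * (if (none : Option (Option κ)).isNone then ((1 : ℝ) : ℂ) else 0)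
          = c none
        simp [hW]
      have e2 : ∀ x, Wᴴ none (some x) * bord 1 Z (some x) none = 0 := by
        intro x
        show star (W (some x) none) *
          (if (some x : Option (Option κ)).isNone then ((1 : ℝ) : ℂ) else 0) = 0
        simp
      rw [e1, Finset.sum_eq_zero fun x _ => e2 x, add_zero]
    rw [Fintype.sum_option]
    have h0 : ∀ x : κ, (Wᴴ * bord 1 Z)ᵀ (some x) none = 0 := fun x => hrow x
    rw [Finset.sum_eq_zero fun x _ => by rw [h0 x, zero_mul], add_zero]
    have h1 : (Wᴴ * bord 1 Z)ᵀ none none = c none := hcol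
    rw [h1]
    congr 1
    rw [← permanent_transpose]
    congr 1
    ext i j
    rw [transpose_apply, Matrix.of_apply, transpose_apply, Equiv.swap_self]
    show (Wᴴ * bord 1 Z) (some i) (some j) = M0 i j
    rw [Matrix.mul_apply]
    have : ∀ x, Wᴴ (some i) x * bord 1 Z x (some j) = star (W x (some i)) * Z x j := fun x => rfl
    rw [Finset.sum_congr rfl fun x _ => this x, hWZ]
    rfl
  have hmix := mixed W Z
  rw [hP] at hmix
  have hcs := cs (fun F : κ → Option (Option κ) => selPer Z F) (fun F => selPer W (pre F))
  rw [← hmix] at hcs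
  have hm0 := permanent_gram_real Z
  rw [hZZ] at hm0
  set s : ℝ := (∑ F : κ → Option (Option κ), Complex.normSq (selPer Z F)) with hs
  set f : ℝ := ((Fintype.card κ).factorial : ℝ) with hf
  have hfpos : 0 < f := factorial_pos_real
  have hm0re : M0.permanent.re = s / f := by rw [hm0, Complex.ofReal_re]
  have hs0 : 0 ≤ s := Finset.sum_nonneg fun F _ => Complex.normSq_nonneg _
  rw [← hd] at hcs
  have hfc : ((Fintype.card κ).factorial : ℂ) = ((f : ℝ) : ℂ) := by rw [hf]; push_cast; rfl
  rw [hfc, hm0, Complex.normSq_mul, Complex.normSq_mul, Complex.normSq_ofReal,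
    Complex.normSq_ofReal] at hcs
  rw [hm0re]
  have hc0 : Complex.normSq (c none) = Complex.normSq (A (some none) none) := rfl
  rw [← hc0]
  set d := A.permanent.re - (A.submatrix some some).permanent.re with hdd
  have hd0 : 0 ≤ d := by
    have h : 0 ≤ f * d := by
      rw [hd]; exact Finset.sum_nonneg fun F _ => Complex.normSq_nonneg _
    exact nonneg_of_mul_nonneg_right h hfpos
  rcases hs0.eq_or_lt with h0 | h0
  · rw [← h0]; simpa using hd0
  · have h1 : f * f * (Complex.normSq (c none) * (s / f * (s / f))) = Complex.normSq (c none) * (s * s) := by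
      field_simp
    rw [h1] at hcs
    have h2 : Complex.normSq (c none) * s ≤ f * d := by
      have : (Complex.normSq (c none) * s) * s ≤ (f * d) * s := by nlinarith
      exact le_of_mul_le_mul_right this h0
    rw [← mul_div_assoc, div_le_iff₀ hfpos]
    linarith

/-- **The two vertex inequality** (form with `Option (Option κ)`). -/
theorem two_vertex (A : Matrix (Option (Option κ)) (Option (Option κ)) ℂ) (hA : A.PosSemidef)
    (hi : A none none = 1) (hj : A (some none) (some none) = 1) :
    (1 - Complex.normSq (A (some none) none)) * (A.submatrix some some).permanent.re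
      + 2 * Complex.normSq (A (some none) none) *
        (A.submatrix (fun k => some (some k)) (fun k => some (some k))).permanent.re
      ≤ A.permanent.re := by
  have h1 := core A hA hi hj
  have hN : (A.submatrix some some).PosSemidef := hA.submatrix some
  have h2 := schur_ge (A.submatrix some some) hN hj
  have e1 : ((A.submatrix some some).submatrix some some)
      = A.submatrix (fun k => some (some k)) (fun k => some (some k)) := by
    rw [submatrix_submatrix]; rfl
  rw [e1] at h2
  have h3 : (Matrix.of fun i j => (A.submatrix some some) (some i) (some j)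
      - (A.submatrix some some) (some i) none * (A.submatrix some some) none (some j)
        : Matrix κ κ ℂ) = (Matrix.of fun i j => A (some (some i)) (some (some j))
        - A (some (some i)) (some none) * A (some none) (some (some j)) : Matrix κ κ ℂ) := rfl
  rw [h3] at h2
  have hn := Complex.normSq_nonneg (A (some none) none)
  nlinarith

end N1
end Pool.Agent.Lib.MP_6947cd_al
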