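import Pool.Agent.Lib.MP_6947cd_al.Fock
import Pool.Agent.Lib.MP_6947cd_al.T.Frame2

/-!
Problem MP_6947cd_al (Chollet).  The merging inequality for permanents of positive semidefinite
matrices: two vertices `i`, `j` are replaced by one unit vector of their span.
-/

set_option autoImplicit false
open scoped Matrix ComplexOrder
open Matrix Finset

namespace Pool.Agent.Lib.MP_6947cd_al
namespace N3

variable {κ : Type} [Fintype κ] [DecidableEq κ]

/-- the compression which merges the first two vertices -/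
noncomputable def cmp (κ : Type) [DecidableEq κ] (α β : ℝ) (ω : ℂ) :
    Matrix (Option (Option κ)) (Option κ) ℂ := fun x y => match y with
  | none => match x with
    | none => (α : ℂ)
    | some none => (β : ℂ) * ω
    | some (some _) => 0
  | some k => if x = some (some k) then 1 else 0

/-- the merged matrix -/
noncomputable def comp (M : Matrix (Option (Option κ)) (Option (Option κ)) ℂ) (α β : ℝ) (ω : ℂ) :
    Matrix (Option κ) (Option κ) ℂ := (cmp κ α β ω)ᴴ * M * cmp κ α β ω

lemma mul_cmp_none {ι : Type} (Y : Matrix ι (Option (Option κ)) ℂ) (α β : ℝ) (ω : ℂ) (a : ι) :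
    (Y * cmp κ α β ω) a none = (α : ℂ) * Y a none + (β : ℂ) * (ω * Y a (some none)) := by
  rw [Matrix.mul_apply, Fintype.sum_option, Fintype.sum_option]
  simp only [cmp, mul_zero, Finset.sum_const_zero, add_zero]
  ring

lemma mul_cmp_some {ι : Type} (Y : Matrix ι (Option (Option κ)) ℂ) (α β : ℝ) (ω : ℂ) (a : ι)
    (k : κ) : (Y * cmp κ α β ω) a (some k) = Y a (some (some k)) := by
  rw [Matrix.mul_apply, Finset.sum_eq_single (some (some k))]
  · simp [cmp]
  · intro x _ hx
    simp [cmp, hx]
  · intro h; exact absurd (Finset.mem_univ _) h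

/-- THE MERGING INEQUALITY, form with `Option (Option κ)`. -/
theorem merge (A : Matrix (Option (Option κ)) (Option (Option κ)) ℂ) (hA : A.PosSemidef)
    (hi : A none none = 1) (hj : A (some none) (some none) = 1) (ω : ℂ) (s lam α β : ℝ)
    (hω : star ω * ω = 1) (hs : ω * A none (some none) = (s : ℂ))
    (hu : α ^ 2 + β ^ 2 + 2 * α * β * s = 1)
    (h1 : lam * α ^ 2 ≤ 1) (h2 : lam * β ^ 2 ≤ 1)
    (h3 : (s - lam * (α * β)) ^ 2 ≤ (1 - lam * α ^ 2) * (1 - lam * β ^ 2)) :
    lam * (comp A α β ω).permanent.re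
      + (1 + s ^ 2 - lam) *
        (A.submatrix (fun k => some (some k)) (fun k => some (some k))).permanent.re
      ≤ A.permanent.re := by
  unfold comp
  obtain ⟨Y, rfl⟩ := exists_gram hA
  set f : Option (Option κ) → ℂ := fun a => Y a none with hf
  set e : Option (Option κ) → ℂ := fun a => ω * Y a (some none) with he
  set Ψ := ∏ k : κ, Fock.lin (fun a => Y a (some (some k))) with hΨ
  have hff : Fock.dot f f = 1 := by
    rw [← hi, Matrix.mul_apply]; rfl
  have hee : Fock.dot e e = 1 := by
    have h : Fock.dot e e = star ω * ω * (Yᴴ * Y) (some none) (some none) := by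
      rw [Matrix.mul_apply, Finset.mul_sum]
      unfold Fock.dot
      refine Finset.sum_congr rfl fun a _ => ?_
      rw [he, conjTranspose_apply]
      simp only [star_mul']
      ring
    rw [h, hj, hω, mul_one]
  have hfe : Fock.dot f e = (s : ℂ) := by
    rw [← hs, Matrix.mul_apply, Finset.mul_sum]
    unfold Fock.dot
    refine Finset.sum_congr rfl fun a _ => ?_
    rw [he, hf, conjTranspose_apply]
    ring
  have key := Fock.merge_nsq f e s lam α β hff hee hfe hu h1 h2 h3 Ψ
  -- the permanents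
  have p1 : ((cmp κ α β ω)ᴴ * (Yᴴ * Y) * cmp κ α β ω).permanent.re
      = Fock.nsq (Fock.lin (fun a => (α : ℂ) * f a + (β : ℂ) * e a) * Ψ) := by
    have e1 : (cmp κ α β ω)ᴴ * (Yᴴ * Y) * cmp κ α β ω
        = (Y * cmp κ α β ω)ᴴ * (Y * cmp κ α β ω) := by
      rw [conjTranspose_mul]
      simp only [Matrix.mul_assoc]
    rw [e1, Fock.permanent_gram_nsq, Complex.ofReal_re, Fintype.prod_option]
    congr 2
    · congr 1
      funext a
      exact mul_cmp_none Y α β ω a
    · refine Finset.prod_congr rfl fun k _ => ?_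
      congr 1
      funext a
      exact mul_cmp_some Y α β ω a k
  have p2 : ((Yᴴ * Y).submatrix (fun k : κ => some (some k)) (fun k => some (some k))).permanent.re
      = Fock.nsq Ψ := by
    have e1 : (Yᴴ * Y).submatrix (fun k : κ => some (some k)) (fun k => some (some k))
        = (Y.submatrix id (fun k : κ => some (some k)))ᴴ * Y.submatrix id (fun k : κ => some (some k)) := by
      rw [conjTranspose_submatrix]
      rfl
    rw [e1, Fock.permanent_gram_nsq, Complex.ofReal_re]
    rfl
  have p3 : (Yᴴ * Y).permanent.re = Fock.nsq (Fock.lin f * (Fock.lin e * Ψ)) := by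
    have e1 : Fock.lin e = MvPolynomial.C ω * Fock.lin (fun a => Y a (some none)) := by
      unfold Fock.lin
      rw [Finset.mul_sum]
      refine Finset.sum_congr rfl fun a _ => ?_
      rw [he, MvPolynomial.C_mul, mul_assoc]
    have e2 : Fock.lin f * (Fock.lin e * Ψ)
        = MvPolynomial.C ω * (Fock.lin f * (Fock.lin (fun a => Y a (some none)) * Ψ)) := by
      rw [e1]; ring
    have e3 : Fock.nsq (Fock.lin f * (Fock.lin e * Ψ))
        = Fock.nsq (Fock.lin f * (Fock.lin (fun a => Y a (some none)) * Ψ)) := by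
      unfold Fock.nsq
      rw [e2, Fock.ip_C_mul, Fock.C_mul_ip, ← mul_assoc, mul_comm ω (star ω), hω, one_mul]
    rw [e3, Fock.permanent_gram_nsq, Complex.ofReal_re, Fintype.prod_option, Fintype.prod_option]
  rw [p1, p2, p3]
  exact key

/-- the determinant of three vertices -/
lemma three_vertex {n : ℕ} (A : Matrix (Fin n) (Fin n) ℂ) (hA : A.PosSemidef) (hd : ∀ i, A i i = 1)
    (i j k : Fin n) (ω : ℂ) (s : ℝ) (hω : star ω * ω = 1) (hs : ω * A i j = (s : ℂ)) :
    ‖A i k‖ ^ 2 + ‖A j k‖ ^ 2 ≤ 1 - s ^ 2 + 2 * s * (star (A i k) * (star ω * A j k)).re := by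
  set v : Fin 3 → Fin n := ![i, j, k] with hv
  have v0 : v 0 = i := rfl
  have v1 : v 1 = j := rfl
  have v2 : v 2 = k := rfl
  have hM : (A.submatrix v v).PosSemidef := hA.submatrix _
  have hdet := hM.det_nonneg
  have hherm : ∀ a b, A b a = star (A a b) := fun a b => (hA.1.apply b a).symm
  have hij : A i j = star ω * s := by
    rw [← hs, ← mul_assoc, hω, one_mul]
  have hji : A j i = ω * s := by
    rw [hherm i j, hij, star_mul', star_star, Complex.star_def, Complex.conj_ofReal]
  rw [Matrix.det_fin_three] at hdet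
  simp only [submatrix_apply, v0, v1, v2, hd, one_mul, mul_one] at hdet
  rw [hherm j k, hherm i k, hij, hji] at hdet
  set z := A i k
  set w := A j k
  have hz : z * star z = ((‖z‖ ^ 2 : ℝ) : ℂ) := by
    rw [Complex.star_def, Complex.mul_conj, Complex.normSq_eq_norm_sq]
  have hw : w * star w = ((‖w‖ ^ 2 : ℝ) : ℂ) := by
    rw [Complex.star_def, Complex.mul_conj, Complex.normSq_eq_norm_sq]
  have h := (Complex.le_def.mp hdet).1
  set T := star z * (star ω * w) with hT
  have hTs : star T = z * (ω * star w) := by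
    rw [hT, star_mul', star_mul', star_star, star_star]
  have hre : (star T).re = T.re := by rw [Complex.star_def, Complex.conj_re]
  have h2 : (1 : ℂ) - w * star w - star ω * s * (ω * s) + star ω * s * w * star z
      + z * (ω * s) * star w - z * star z
      = ((1 - ‖w‖ ^ 2 - s ^ 2 - ‖z‖ ^ 2 : ℝ) : ℂ) + (s : ℂ) * T + (s : ℂ) * star T := by
    rw [hTs, hT]
    push_cast
    have e1 : star ω * (s : ℂ) * (ω * s) = (s : ℂ) ^ 2 := by
      calc star ω * (s : ℂ) * (ω * s) = (star ω * ω) * (s : ℂ) ^ 2 := by ring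
        _ = _ := by rw [hω, one_mul]
    have hz' : z * star z = ((‖z‖ : ℝ) : ℂ) ^ 2 := by rw [hz]; push_cast; rfl
    have hw' : w * star w = ((‖w‖ : ℝ) : ℂ) ^ 2 := by rw [hw]; push_cast; rfl
    rw [e1, hz', hw']
    ring
  rw [h2] at h
  simp only [Complex.add_re, Complex.re_ofReal_mul, Complex.ofReal_re, hre, Complex.zero_re] at h
  linarith

lemma cmp_mul_none (M : Matrix (Option (Option κ)) (Option (Option κ)) ℂ) (α β : ℝ) (ω : ℂ)
    (x : Option (Option κ)) :
    ((cmp κ α β ω)ᴴ * M) none x = (α : ℂ) * M none x + (β : ℂ) * (star ω * M (some none) x) := by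
  have h : (cmp κ α β ω)ᴴ * M = (Mᴴ * cmp κ α β ω)ᴴ := by
    rw [conjTranspose_mul, conjTranspose_conjTranspose]
  rw [h, conjTranspose_apply, mul_cmp_none, conjTranspose_apply, conjTranspose_apply, star_add,
    star_mul', star_mul', star_mul', star_star, star_star]
  simp only [Complex.star_def, Complex.conj_ofReal]

lemma cmp_mul_some (M : Matrix (Option (Option κ)) (Option (Option κ)) ℂ) (α β : ℝ) (ω : ℂ)
    (x : Option (Option κ)) (k : κ) :
    ((cmp κ α β ω)ᴴ * M) (some k) x = M (some (some k)) x := by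
  have h : (cmp κ α β ω)ᴴ * M = (Mᴴ * cmp κ α β ω)ᴴ := by
    rw [conjTranspose_mul, conjTranspose_conjTranspose]
  rw [h, conjTranspose_apply, mul_cmp_some, conjTranspose_apply, star_star]

lemma comp_none_none (M : Matrix (Option (Option κ)) (Option (Option κ)) ℂ) (α β : ℝ) (ω : ℂ) :
    (comp M α β ω) none none
      = (α : ℂ) ^ 2 * M none none + (β : ℂ) ^ 2 * (star ω * ω) * M (some none) (some none)
        + (α : ℂ) * β * (ω * M none (some none) + star ω * M (some none) none) := by
  unfold comp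
  rw [mul_cmp_none, cmp_mul_none, cmp_mul_none]
  ring

lemma comp_none_some (M : Matrix (Option (Option κ)) (Option (Option κ)) ℂ) (α β : ℝ) (ω : ℂ)
    (k : κ) : (comp M α β ω) none (some k)
      = (α : ℂ) * M none (some (some k)) + (β : ℂ) * (star ω * M (some none) (some (some k))) := by
  unfold comp
  rw [mul_cmp_some, cmp_mul_none]

lemma comp_some_some (M : Matrix (Option (Option κ)) (Option (Option κ)) ℂ) (α β : ℝ) (ω : ℂ)
    (k l : κ) : (comp M α β ω) (some k) (some l)
      = M (some (some k)) (some (some l)) := by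
  unfold comp
  rw [mul_cmp_some, cmp_mul_some]

/-- the phase -/
lemma exists_phase (z : ℂ) : ∃ ω : ℂ, star ω * ω = 1 ∧ ω * z = ((‖z‖ : ℝ) : ℂ) := by
  by_cases hz : z = 0
  · exact ⟨1, by simp, by simp [hz]⟩
  · have hn : (‖z‖ : ℂ) ≠ 0 := by
      exact_mod_cast (norm_pos_iff.mpr hz).ne'
    have h1 : star z * z = ((‖z‖ : ℝ) : ℂ) ^ 2 := by
      rw [Complex.star_def, mul_comm, Complex.mul_conj, Complex.normSq_eq_norm_sq]
      push_cast
      rfl
    refine ⟨star z / (‖z‖ : ℂ), ?_, ?_⟩
    · rw [star_div₀, star_star, Complex.star_def, Complex.conj_ofReal, div_mul_div_comm]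
      rw [← Complex.star_def, mul_comm z, h1]
      field_simp
    · rw [div_mul_eq_mul_div, h1]
      field_simp

open Fr

/-- THE MERGING INEQUALITY in the form used in the frame. -/
theorem merge_fin {n : ℕ} (A : Matrix (Fin n) (Fin n) ℂ) (hA : A.PosSemidef) (hd : ∀ i, A i i = 1)
    (i j : Fin n) (hij : i ≠ j) (α β : ℝ) (h1 : α ^ 2 + β ^ 2 = 1 / (1 + Fr.row A i j))
    (h2 : α * β = ‖A i j‖ / (2 * (1 + Fr.row A i j))) :
    ∃ (C : Matrix (Option ↥(({i, j} : Finset (Fin n))ᶜ)) (Option ↥(({i, j} : Finset (Fin n))ᶜ)) ℂ)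
      (c : Fin n → ℝ), C.PosSemidef ∧ (∀ x, C x x = 1) ∧
      (∀ k l, C (some k) (some l) = A (k : Fin n) (l : Fin n)) ∧
      (∀ k, ‖C none (some k)‖ ^ 2
        = α ^ 2 * Fr.row A i (k : Fin n) + β ^ 2 * Fr.row A j (k : Fin n) + 2 * (α * β) * c k) ∧
      (∀ k, (c k) ^ 2 ≤ Fr.row A i k * Fr.row A j k) ∧
      (∀ k, Fr.row A i k + Fr.row A j k ≤ 1 - Fr.row A i j + 2 * ‖A i j‖ * c k) ∧
      (1 + Fr.row A i j) * C.permanent.re ≤ A.permanent.re := by
  classical
  obtain ⟨ω, hω, hs⟩ := exists_phase (A i j)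
  set s : ℝ := ‖A i j‖ with hsdef
  have hs0 : 0 ≤ s := norm_nonneg _
  have hh : Fr.row A i j = s ^ 2 := rfl
  rw [hh] at h1 h2 ⊢
  have hpos : 0 < 1 + s ^ 2 := by positivity
  set B := A.submatrix (eij i j hij) (eij i j hij) with hB
  have hBp : B.PosSemidef := hA.submatrix _
  have hBi : B none none = 1 := hd i
  have hBj : B (some none) (some none) = 1 := hd j
  have hBij : B none (some none) = A i j := rfl
  have hBji : B (some none) none = A j i := rfl
  have hBk : ∀ k, B none (some (some k)) = A i (k : Fin n) := fun k => rfl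
  have hBk' : ∀ k, B (some none) (some (some k)) = A j (k : Fin n) := fun k => rfl
  have hherm : A j i = star (A i j) := (hA.1.apply j i).symm
  have hu : α ^ 2 + β ^ 2 + 2 * α * β * s = 1 := by
    have : 2 * α * β * s = 2 * (α * β) * s := by ring
    rw [this, h1, h2]
    field_simp
  have hk := merge B hBp hBi hBj ω s (1 + s ^ 2) α β hω (by rw [hBij]; exact hs) hu
    (by
      have : (1 + s ^ 2) * (α ^ 2 + β ^ 2) = 1 := by rw [h1]; field_simp
      nlinarith [mul_nonneg hpos.le (sq_nonneg β)])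
    (by
      have : (1 + s ^ 2) * (α ^ 2 + β ^ 2) = 1 := by rw [h1]; field_simp
      nlinarith [mul_nonneg hpos.le (sq_nonneg α)])
    (by
      have e1 : (1 + s ^ 2) * (α ^ 2 + β ^ 2) = 1 := by rw [h1]; field_simp
      have e2 : 1 - (1 + s ^ 2) * α ^ 2 = (1 + s ^ 2) * β ^ 2 := by linarith
      have e3 : 1 - (1 + s ^ 2) * β ^ 2 = (1 + s ^ 2) * α ^ 2 := by linarith
      have e4 : (1 + s ^ 2) * (α * β) = s / 2 := by rw [h2]; field_simp
      rw [e2, e3, e4]
      have e5 : (1 + s ^ 2) * β ^ 2 * ((1 + s ^ 2) * α ^ 2) = ((1 + s ^ 2) * (α * β)) ^ 2 := by ring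
      rw [e5, e4]
      nlinarith)
  set C := comp B α β ω with hC
  refine ⟨C, fun k => (star (A i k) * (star ω * A j k)).re, hBp.conjTranspose_mul_mul_same _, ?_, ?_,
    ?_, ?_, ?_, ?_⟩
  · rintro (_ | k)
    · rw [hC, comp_none_none, hBi, hBj, hBij, hBji, hherm, hω, hs]
      have e1 : star ω * star (A i j) = (s : ℂ) := by
        rw [← star_mul', hs, Complex.star_def, Complex.conj_ofReal]
      rw [e1]
      have : (α : ℂ) ^ 2 * 1 + (β : ℂ) ^ 2 * 1 * 1 + (α : ℂ) * β * ((s : ℂ) + s)
          = ((α ^ 2 + β ^ 2 + 2 * α * β * s : ℝ) : ℂ) := by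
        push_cast; ring
      rw [this, hu, Complex.ofReal_one]
    · rw [hC, comp_some_some]
      exact hd _
  · intro k l
    rw [hC, comp_some_some]
    rfl
  · intro k
    beta_reduce
    rw [hC, comp_none_some, hBk, hBk']
    set z := A i (k : Fin n)
    set w := A j (k : Fin n)
    have hωn : ‖star ω * w‖ ^ 2 = ‖w‖ ^ 2 := by
      have : ‖ω‖ ^ 2 = 1 := by
        have h := congrArg Complex.re hω
        rw [Complex.star_def, ← Complex.normSq_eq_conj_mul_self, Complex.normSq_eq_norm_sq,
          Complex.ofReal_re, Complex.one_re] at h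
        exact h
      rw [norm_mul, norm_star, mul_pow, this, one_mul]
    have hr1 : Fr.row A i (k : Fin n) = ‖z‖ ^ 2 := rfl
    have hr2 : Fr.row A j (k : Fin n) = ‖w‖ ^ 2 := rfl
    rw [hr1, hr2, ← hωn]
    generalize star ω * w = w'
    have e1 : (star z * w').re = z.re * w'.re + z.im * w'.im := by
      rw [Complex.star_def, Complex.mul_re, Complex.conj_re, Complex.conj_im]
      ring
    have e2 : ((α : ℂ) * z + (β : ℂ) * w').re = α * z.re + β * w'.re := by
      rw [Complex.add_re, Complex.re_ofReal_mul, Complex.re_ofReal_mul]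
    have e3 : ((α : ℂ) * z + (β : ℂ) * w').im = α * z.im + β * w'.im := by
      rw [Complex.add_im, Complex.im_ofReal_mul, Complex.im_ofReal_mul]
    rw [← Complex.normSq_eq_norm_sq, ← Complex.normSq_eq_norm_sq, ← Complex.normSq_eq_norm_sq,
      Complex.normSq_apply, Complex.normSq_apply, Complex.normSq_apply, e1, e2, e3]
    ring
  · intro k
    have h : |(star (A i k) * (star ω * A j k)).re| ≤ ‖A i k‖ * ‖A j k‖ := by
      refine (Complex.abs_re_le_norm _).trans (le_of_eq ?_)
      have : ‖ω‖ = 1 := by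
        have h := congrArg Complex.re hω
        rw [Complex.star_def, ← Complex.normSq_eq_conj_mul_self, Complex.normSq_eq_norm_sq,
          Complex.ofReal_re, Complex.one_re] at h
        nlinarith [norm_nonneg ω]
      rw [norm_mul, norm_mul, norm_star, norm_star, this, one_mul]
    have h3 : Fr.row A i k * Fr.row A j k = (‖A i k‖ * ‖A j k‖) ^ 2 := by
      rw [mul_pow]; rfl
    rw [h3]
    exact sq_le_sq' (abs_le.mp h).1 (abs_le.mp h).2
  · intro k
    exact three_vertex A hA hd i j k ω s hω hs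
  · have e1 : B.permanent = A.permanent := CholB.permanent_reindex _ _
    rw [e1] at hk
    linarith

end N3
end Pool.Agent.Lib.MP_6947cd_al
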