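import Pool.Agent.Lib.MP_6947cd_al.RankTwo

set_option autoImplicit false
open scoped Matrix ComplexOrder
open Matrix Finset

namespace Pool.Agent.Lib.MP_6947cd_al

/-- The orientation of the rows is irrelevant. -/
theorem unit_case' (n : ℕ) (hn : 7 ≤ n) (W : Matrix (Fin 2) (Fin n) ℂ)
    (hW : ∀ i, ‖W 0 i‖ ^ 2 + ‖W 1 i‖ ^ 2 = 1) (horth : ∑ j, W 0 j * star (W 1 j) = 0) :
    ((Wᴴ * W) ⊙ (Wᴴ * W)ᵀ).permanent.re ≤ (Wᴴ * W).permanent.re ^ 2 := by
  by_cases hδ : ∑ i, ‖W 1 i‖ ^ 2 ≤ n / 2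
  · exact unit_case n hn W hW horth hδ
  · push Not at hδ
    set V : Matrix (Fin 2) (Fin n) ℂ := W.submatrix (Equiv.swap 0 1) id with hV
    have e0 : ∀ i, V 0 i = W 1 i := fun i => by
      simp only [hV, submatrix_apply, Equiv.swap_apply_left, id]
    have e1 : ∀ i, V 1 i = W 0 i := fun i => by
      simp only [hV, submatrix_apply, Equiv.swap_apply_right, id]
    have eG : Vᴴ * V = Wᴴ * W := by
      ext i j
      rw [gram_apply, gram_apply, e0, e0, e1, e1, add_comm]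
    have hsum : ∑ i, ‖W 0 i‖ ^ 2 = (n : ℝ) - ∑ i, ‖W 1 i‖ ^ 2 := by
      have : ∑ i, (‖W 0 i‖ ^ 2 + ‖W 1 i‖ ^ 2) = (n : ℝ) := by
        rw [Finset.sum_congr rfl fun i _ => hW i]; simp
      rw [Finset.sum_add_distrib] at this
      linarith
    have h := unit_case n hn V (fun i => by rw [e0, e1, add_comm]; exact hW i)
      (by
        have h2 := congrArg star horth
        rw [star_sum, star_zero] at h2
        rw [← h2]
        refine Finset.sum_congr rfl fun j _ => ?_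
        rw [e0, e1, star_mul', star_star, mul_comm])
      (by
        rw [Finset.sum_congr rfl fun i _ => by rw [e1 i], hsum]
        linarith)
    rwa [eG] at h

lemma permanent_scale {n : ℕ} (c : Fin n → ℂ) (A : Matrix (Fin n) (Fin n) ℂ) :
    (Matrix.of fun i j => c i * c j * A i j : Matrix (Fin n) (Fin n) ℂ).permanent
      = (∏ i, c i) ^ 2 * A.permanent := by
  unfold permanent
  rw [Finset.mul_sum]
  refine Finset.sum_congr rfl fun σ _ => ?_
  simp only [Matrix.of_apply]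
  rw [Finset.prod_mul_distrib, Finset.prod_mul_distrib, Equiv.prod_comp σ c, pow_two]

/-- Chollet's inequality for `B = conj A`, rank at most two. -/
theorem rank_two_conj (n : ℕ) (A : Matrix (Fin n) (Fin n) ℂ) (hA : A.PosSemidef)
    (hr : A.rank ≤ 2) : (A ⊙ Aᵀ).permanent.re ≤ A.permanent.re ^ 2 := by
  by_cases hn : n ≤ 6
  · exact chollet_conj n hn A hA
  by_cases h0 : ∃ i, A i i = 0
  · obtain ⟨i, hi⟩ := h0
    have h1 : (A ⊙ Aᵀ).permanent = 0 := by
      unfold permanent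
      refine Finset.sum_eq_zero fun σ _ => Finset.prod_eq_zero (Finset.mem_univ i) ?_
      rw [hadamard_apply, col_eq_zero hA i hi, zero_mul]
    rw [h1]
    simpa using sq_nonneg _
  push Not at h0
  have hdiag : ∀ i, 0 < (A i i).re ∧ A i i = ((A i i).re : ℂ) := by
    intro i
    obtain ⟨hre, him⟩ := Complex.nonneg_iff.mp (hA.diag_nonneg (i := i))
    have h2 : A i i = ((A i i).re : ℂ) := by
      apply Complex.ext
      · simp
      · simp [← him]
    refine ⟨lt_of_le_of_ne hre fun h => h0 i ?_, h2⟩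
    rw [h2, ← h]; simp
  set s : Fin n → ℝ := fun i => Real.sqrt (A i i).re with hs
  have hspos : ∀ i, 0 < s i := fun i => Real.sqrt_pos.mpr (hdiag i).1
  have hs2 : ∀ i, s i * s i = (A i i).re := fun i => Real.mul_self_sqrt (hdiag i).1.le
  set D : Matrix (Fin n) (Fin n) ℂ := diagonal fun i => (((s i)⁻¹ : ℝ) : ℂ) with hD
  have hA' := hA.conjTranspose_mul_mul_same D
  set A' := Dᴴ * A * D with hA'def
  have hA'apply : ∀ i j, A' i j = (((s i)⁻¹ : ℝ) : ℂ) * A i j * (((s j)⁻¹ : ℝ) : ℂ) := by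
    intro i j
    rw [hA'def, hD, diagonal_conjTranspose, Matrix.mul_diagonal, Matrix.diagonal_mul]
    simp only [Pi.star_apply, Complex.star_def, Complex.conj_ofReal]
  have hr' : A'.rank ≤ 2 :=
    ((rank_mul_le_left _ _).trans (rank_mul_le_right _ _)).trans hr
  obtain ⟨W, hWA, horth⟩ := exists_rank_two A' hA' hr'
  have hunit : ∀ i, ‖W 0 i‖ ^ 2 + ‖W 1 i‖ ^ 2 = 1 := by
    intro i
    have h1 : A' i i = 1 := by
      rw [hA'apply, (hdiag i).2, ← hs2]
      have : ((s i : ℝ) : ℂ) ≠ 0 := by exact_mod_cast (hspos i).ne'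
      push_cast
      field_simp
    rw [hWA, gram_apply] at h1
    have e : ∀ z : ℂ, star z * z = ((‖z‖ ^ 2 : ℝ) : ℂ) := by
      intro z
      rw [Complex.star_def, mul_comm, Complex.mul_conj, Complex.normSq_eq_norm_sq]
    rw [e, e] at h1
    exact_mod_cast h1
  have hmain := unit_case' n (by omega) W hunit horth
  rw [← hWA] at hmain
  have hAs : A = Matrix.of fun i j => (s i : ℂ) * (s j : ℂ) * A' i j := by
    ext i j
    rw [Matrix.of_apply, hA'apply]
    have h1 : ((s i : ℝ) : ℂ) ≠ 0 := by exact_mod_cast (hspos i).ne'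
    have h2 : ((s j : ℝ) : ℂ) ≠ 0 := by exact_mod_cast (hspos j).ne'
    push_cast
    field_simp
  have hp1 : A.permanent.re = (∏ i, s i) ^ 2 * A'.permanent.re := by
    rw [hAs, permanent_scale, ← Complex.ofReal_prod, ← Complex.ofReal_pow, Complex.re_ofReal_mul]
  have hp2 : (A ⊙ Aᵀ).permanent.re = (∏ i, s i ^ 2) ^ 2 * (A' ⊙ A'ᵀ).permanent.re := by
    have : A ⊙ Aᵀ = Matrix.of fun i j => ((s i ^ 2 : ℝ) : ℂ) * ((s j ^ 2 : ℝ) : ℂ) *
        (A' ⊙ A'ᵀ) i j := by
      ext i j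
      rw [hAs]
      simp only [hadamard_apply, transpose_apply, Matrix.of_apply]
      push_cast
      ring
    rw [this, permanent_scale, ← Complex.ofReal_prod, ← Complex.ofReal_pow, Complex.re_ofReal_mul]
  rw [hp1, hp2, mul_pow, Finset.prod_pow]
  exact mul_le_mul_of_nonneg_left hmain (by positivity)

/-- Chollet's reduction for one pair. -/
theorem chollet_of_conj {n : ℕ} (A B : Matrix (Fin n) (Fin n) ℂ) (hA : A.PosSemidef)
    (hB : B.PosSemidef) (h3 : (A ⊙ Aᵀ).permanent.re ≤ A.permanent.re ^ 2)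
    (h4 : (B ⊙ Bᵀ).permanent.re ≤ B.permanent.re ^ 2) :
    (A ⊙ B).permanent ≤ A.permanent * B.permanent := by
  obtain ⟨hA0, hA1⟩ := permanent_nonneg_real hA
  obtain ⟨hB0, hB1⟩ := permanent_nonneg_real hB
  obtain ⟨hAB0, hAB1⟩ := permanent_nonneg_real (hA.hadamard hB)
  rw [hA1, hB1, hAB1]
  norm_cast
  have h1 : (A ⊙ B).permanent.re
      ≤ ∑ σ : Equiv.Perm (Fin n), (∏ i, ‖A (σ i) i‖) * (∏ i, ‖B (σ i) i‖) := by
    calc (A ⊙ B).permanent.re ≤ ‖(A ⊙ B).permanent‖ := Complex.re_le_norm _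
      _ ≤ ∑ σ : Equiv.Perm (Fin n), ‖∏ i, (A ⊙ B) (σ i) i‖ := norm_sum_le _ _
      _ = _ := by
        refine Finset.sum_congr rfl fun σ _ => ?_
        rw [norm_prod, ← Finset.prod_mul_distrib]
        refine Finset.prod_congr rfl fun i _ => ?_
        rw [hadamard_apply, norm_mul]
  have h2 := Finset.sum_mul_sq_le_sq_mul_sq (Finset.univ : Finset (Equiv.Perm (Fin n)))
    (fun σ => ∏ i, ‖A (σ i) i‖) (fun σ => ∏ i, ‖B (σ i) i‖)
  rw [← permanent_hadamard_transpose hA.1, ← permanent_hadamard_transpose hB.1] at h2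
  have h5 : (A ⊙ B).permanent.re ^ 2 ≤ (A.permanent.re * B.permanent.re) ^ 2 := by
    calc (A ⊙ B).permanent.re ^ 2
        ≤ (∑ σ : Equiv.Perm (Fin n), (∏ i, ‖A (σ i) i‖) * (∏ i, ‖B (σ i) i‖)) ^ 2 :=
          pow_le_pow_left₀ hAB0 h1 2
      _ ≤ (A ⊙ Aᵀ).permanent.re * (B ⊙ Bᵀ).permanent.re := h2
      _ ≤ A.permanent.re ^ 2 * B.permanent.re ^ 2 := by
          refine mul_le_mul h3 h4 ?_ (by positivity)
          exact (permanent_nonneg_real (hB.hadamard hB.transpose)).1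
      _ = _ := by ring
  exact le_of_sq_le_sq h5 (by positivity)

end Pool.Agent.Lib.MP_6947cd_al
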