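import Pool.Agent.Lib.MP_6947cd_al.Step

set_option autoImplicit false
open scoped Matrix ComplexOrder
open Matrix Finset

namespace Pool.Agent.Lib.MP_6947cd_al
namespace Lieb

variable {ι κ : Type} [Fintype κ] [DecidableEq κ] [Fintype ι]

omit [DecidableEq κ] [Fintype ι] in
/-- Two subsets of the same size, up to a bijection of their differences. -/
lemma exists_split (p p' : κ → Prop) [DecidablePred p] [DecidablePred p']
    (hc : Fintype.card {a // p a} = Fintype.card {a // p' a}) :
    ∃ (U K : Type) (_ : Fintype U) (_ : Fintype K) (E : U ⊕ (K ⊕ K) ≃ κ),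
      (∀ u, p (E (Sum.inl u)) ↔ p' (E (Sum.inl u))) ∧
      (∀ k, p (E (Sum.inr (Sum.inl k))) ∧ ¬ p' (E (Sum.inr (Sum.inl k)))) ∧
      (∀ k, ¬ p (E (Sum.inr (Sum.inr k))) ∧ p' (E (Sum.inr (Sum.inr k)))) := by
  classical
  have hcard : Fintype.card {a // p a ∧ ¬ p' a} = Fintype.card {a // ¬ p a ∧ p' a} := by
    rw [Fintype.card_subtype, Fintype.card_subtype] at hc ⊢
    have h := Finset.card_sdiff_comm hc
    have e1 : (Finset.univ.filter fun a => p a ∧ ¬ p' a)
        = Finset.univ.filter p \ Finset.univ.filter p' := by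
      ext a; simp
    have e2 : (Finset.univ.filter fun a => ¬ p a ∧ p' a)
        = Finset.univ.filter p' \ Finset.univ.filter p := by
      ext a; simp [and_comm]
    rw [e1, e2, h]
  have e : {a // p a ∧ ¬ p' a} ≃ {a // ¬ p a ∧ p' a} := Fintype.equivOfCardEq hcard
  let f : {a // p a ↔ p' a} ⊕ ({a // p a ∧ ¬ p' a} ⊕ {a // p a ∧ ¬ p' a}) → κ :=
    Sum.elim (fun u => u.1) (Sum.elim (fun k => k.1) (fun k => (e k).1))
  have hf : Function.Bijective f := by
    constructor
    · rintro (u | k | k) (u' | k' | k') h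
      · simpa [f, Subtype.ext_iff] using h
      · have h' : u.1 = k'.1 := h
        have := u.2; have := k'.2; rw [← h'] at this; tauto
      · have h' : u.1 = (e k').1 := h
        have := u.2; have := (e k').2; rw [← h'] at this; tauto
      · have h' : k.1 = u'.1 := h
        have := u'.2; have := k.2; rw [h'] at this; tauto
      · have h' : k.1 = k'.1 := h
        rw [Subtype.ext h']
      · have h' : k.1 = (e k').1 := h
        have := (e k').2; have := k.2; rw [h'] at this; tauto
      · have h' : (e k).1 = u'.1 := h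
        have := u'.2; have := (e k).2; rw [h'] at this; tauto
      · have h' : (e k).1 = k'.1 := h
        have := (e k).2; have := k'.2; rw [← h'] at this; tauto
      · have h' : (e k).1 = (e k').1 := h
        rw [e.injective (Subtype.ext h')]
    · intro a
      by_cases h1 : p a
      · by_cases h2 : p' a
        · exact ⟨Sum.inl ⟨a, by tauto⟩, rfl⟩
        · exact ⟨Sum.inr (Sum.inl ⟨a, h1, h2⟩), rfl⟩
      · by_cases h2 : p' a
        · refine ⟨Sum.inr (Sum.inr (e.symm ⟨a, h1, h2⟩)), ?_⟩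
          simp [f]
        · exact ⟨Sum.inl ⟨a, by tauto⟩, rfl⟩
  refine ⟨_, _, inferInstance, inferInstance, Equiv.ofBijective f hf, ?_, ?_, ?_⟩
  · intro u; exact u.2
  · intro k; exact k.2
  · intro k; exact (e k).2

/-- Positivity of one term of the symmetrisation. -/
lemma term_nonneg (p : κ → Prop) [DecidablePred p] (α β : (κ → ι) → ℂ)
    (hα : ∀ F G : κ → ι, (∀ a, p a → F a = G a) → α F = α G)
    (hβ : ∀ F G : κ → ι, (∀ a, ¬ p a → F a = G a) → β F = β G)
    (hinv : ∀ (F : κ → ι) (g : Equiv.Perm κ), (∀ a, p (g a) ↔ p a) →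
      α (F ∘ g) * β (F ∘ g) = α F * β F)
    (σ : Equiv.Perm κ) :
    0 ≤ (∑ F : κ → ι, (α F * β F) * star (α (F ∘ σ) * β (F ∘ σ))).re := by
  classical
  have hc : Fintype.card {a // p a} = Fintype.card {a // p (σ.symm a)} :=
    Fintype.card_congr (σ.subtypeEquiv fun a => by simp)
  obtain ⟨U, K, _, _, E, hU, hK1, hK2⟩ := exists_split p (fun a => p (σ.symm a)) hc
  -- the involution
  let s0 : Equiv.Perm (U ⊕ (K ⊕ K)) := Equiv.sumCongr (Equiv.refl U) (Equiv.sumComm K K)
  let σ0 : Equiv.Perm κ := (E.symm.trans s0).trans E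
  have hσ0 : ∀ b, p (σ0 b) ↔ p (σ.symm b) := by
    intro b
    obtain ⟨c, rfl⟩ := E.surjective b
    rcases c with u | k | k
    · have : σ0 (E (Sum.inl u)) = E (Sum.inl u) := by simp [σ0, s0]
      rw [this]; exact hU u
    · have : σ0 (E (Sum.inr (Sum.inl k))) = E (Sum.inr (Sum.inr k)) := by simp [σ0, s0]
      rw [this]
      exact ⟨fun h => absurd h (hK2 k).1, fun h => absurd h (hK1 k).2⟩
    · have : σ0 (E (Sum.inr (Sum.inr k))) = E (Sum.inr (Sum.inl k)) := by simp [σ0, s0]
      rw [this]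
      exact ⟨fun _ => (hK2 k).2, fun _ => (hK1 k).1⟩
  have hinv2 : ∀ b, σ0 (σ0 b) = b := by
    intro b
    obtain ⟨c, rfl⟩ := E.surjective b
    rcases c with u | k | k <;> simp [σ0, s0]
  have hg : ∀ F : κ → ι, α (F ∘ σ) * β (F ∘ σ) = α (F ∘ σ0) * β (F ∘ σ0) := by
    intro F
    have e : F ∘ σ = (F ∘ σ0) ∘ ((σ.trans σ0 : Equiv.Perm κ)) := by
      ext a; simp [hinv2]
    rw [e, hinv _ (σ.trans σ0)]
    intro a
    rw [Equiv.trans_apply, hσ0, Equiv.symm_apply_apply]
  -- the functions
  let Fn : (U → ι) → (K → ι) → (K → ι) → (κ → ι) := fun u y z =>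
    (Sum.elim u (Sum.elim y z)) ∘ E.symm
  have hα' : ∀ u y z z', α (Fn u y z) = α (Fn u y z') := by
    intro u y z z'
    refine hα _ _ fun a ha => ?_
    obtain ⟨c, rfl⟩ := E.surjective a
    rcases c with c | c | c
    · simp [Fn]
    · simp [Fn]
    · exact absurd ha (hK2 c).1
  have hβ' : ∀ u y y' z, β (Fn u y z) = β (Fn u y' z) := by
    intro u y y' z
    refine hβ _ _ fun a ha => ?_
    obtain ⟨c, rfl⟩ := E.surjective a
    rcases c with c | c | c
    · simp [Fn]
    · exact absurd (hK1 c).1 ha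
    · simp [Fn]
  have hsw : ∀ u y z, Fn u y z ∘ σ0 = Fn u z y := by
    intro u y z
    ext a
    obtain ⟨c, rfl⟩ := E.surjective a
    rcases c with c | c | c <;> simp [Fn, σ0, s0]
  let eF : (U → ι) × ((K → ι) × (K → ι)) ≃ (κ → ι) :=
    ((Equiv.prodCongr (Equiv.refl _) (Equiv.sumArrowEquivProdArrow K K ι).symm).trans
      (Equiv.sumArrowEquivProdArrow U (K ⊕ K) ι).symm).trans (Equiv.arrowCongr E (Equiv.refl ι))
  have heF : ∀ u y z, eF (u, (y, z)) = Fn u y z := by
    intro u y z
    ext a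
    obtain ⟨c, rfl⟩ := E.surjective a
    rcases c with c | c | c <;> simp [eF, Fn, Equiv.sumArrowEquivProdArrow]
  have key : ∑ F : κ → ι, (α F * β F) * star (α (F ∘ σ) * β (F ∘ σ))
      = ∑ u : U → ι, ((Complex.normSq (∑ y : K → ι, α (Fn u y y) * star (β (Fn u y y))) : ℝ) : ℂ) := by
    rw [← Fintype.sum_equiv eF (fun q => (α (eF q) * β (eF q)) *
      star (α (eF q ∘ σ) * β (eF q ∘ σ))) _ (fun q => rfl), Fintype.sum_prod_type]
    refine Finset.sum_congr rfl fun u _ => ?_
    rw [Fintype.sum_prod_type, Complex.normSq_eq_conj_mul_self, map_sum, Finset.sum_mul_sum,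
      Finset.sum_comm]
    refine Finset.sum_congr rfl fun z _ => Finset.sum_congr rfl fun y _ => ?_
    rw [heF, hg, hsw, hα' u y z y, hβ' u y z z, hα' u z y z, hβ' u z y y]
    simp only [map_mul, star_mul', Complex.star_def, Complex.conj_conj]
    ring
  rw [key, Complex.re_sum]
  refine Finset.sum_nonneg fun u _ => ?_
  rw [Complex.ofReal_re]
  exact Complex.normSq_nonneg _

section main

variable (p : κ → Prop) [DecidablePred p]

omit [Fintype ι] in
/-- The block symmetrisation of a product. -/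
lemma prod_split (W : Matrix ι κ ℂ) (F : κ → ι) :
    selPer (W.submatrix id (Subtype.val : {a // p a} → κ)) (F ∘ Subtype.val)
      * selPer (W.submatrix id (Subtype.val : {a // ¬ p a} → κ)) (F ∘ Subtype.val)
      = ∑ c : Equiv.Perm {a // p a} × Equiv.Perm {a // ¬ p a},
          ∏ k, W (F (Equiv.Perm.subtypeCongr c.1 c.2 k)) k := by
  rw [selPer_eq, selPer_eq, Finset.sum_mul_sum, ← Finset.sum_product']
  refine Finset.sum_congr rfl fun c _ => ?_
  rw [← Fintype.prod_subtype_mul_prod_subtype p]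
  congr 1
  · refine Finset.prod_congr rfl fun i _ => ?_
    rw [Equiv.Perm.subtypeCongr.left_apply_subtype]
    rfl
  · refine Finset.prod_congr rfl fun i _ => ?_
    rw [Equiv.Perm.subtypeCongr.right_apply_subtype]
    rfl

/-- The block symmetrisation. -/
noncomputable def xx (W : Matrix ι κ ℂ) (F : κ → ι) : ℂ :=
  selPer (W.submatrix id (Subtype.val : {a // p a} → κ)) (F ∘ Subtype.val)
      * selPer (W.submatrix id (Subtype.val : {a // ¬ p a} → κ)) (F ∘ Subtype.val)

omit [Fintype ι] in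
lemma xx_inv (W : Matrix ι κ ℂ) (F : κ → ι) (g : Equiv.Perm κ) (hg : ∀ a, p (g a) ↔ p a) :
    xx p W (F ∘ g) = xx p W F := by
  unfold xx
  have e1 : (F ∘ g) ∘ (Subtype.val : {a // p a} → κ)
      = (F ∘ Subtype.val) ∘ (g.subtypePerm hg) := by
    ext a; rfl
  have e2 : (F ∘ g) ∘ (Subtype.val : {a // ¬ p a} → κ)
      = (F ∘ Subtype.val) ∘ (g.subtypePerm (p := fun a => ¬ p a) fun a => not_congr (hg a)) := by
    ext a; rfl
  rw [e1, e2, selPer_comp, selPer_comp]

/-- The order of the block group. -/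
noncomputable def ord : ℕ := Fintype.card (Equiv.Perm {a // p a} × Equiv.Perm {a // ¬ p a})

omit [Fintype ι] in
lemma sum_xx (W : Matrix ι κ ℂ) (F : κ → ι) :
    ∑ σ : Equiv.Perm κ, xx p W (F ∘ σ) = (ord p : ℂ) * selPer W F := by
  have h1 : ∀ σ : Equiv.Perm κ, xx p W (F ∘ σ)
      = ∑ c : Equiv.Perm {a // p a} × Equiv.Perm {a // ¬ p a},
          ∏ k, W (F ((σ * Equiv.Perm.subtypeCongr c.1 c.2) k)) k := by
    intro σ
    unfold xx
    rw [prod_split]
    rfl
  rw [Finset.sum_congr rfl fun σ _ => h1 σ, Finset.sum_comm]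
  have h2 : ∀ c : Equiv.Perm {a // p a} × Equiv.Perm {a // ¬ p a},
      ∑ σ : Equiv.Perm κ, ∏ k, W (F ((σ * Equiv.Perm.subtypeCongr c.1 c.2) k)) k
        = selPer W F := by
    intro c
    rw [selPer_eq]
    exact Fintype.sum_equiv (Equiv.mulRight (Equiv.Perm.subtypeCongr c.1 c.2)) _ _
      (fun σ => rfl)
  rw [Finset.sum_congr rfl fun c _ => h2 c, Finset.sum_const, Finset.card_univ, nsmul_eq_mul]
  rfl

lemma sum_xx_sel (W : Matrix ι κ ℂ) :
    ∑ F : κ → ι, xx p W F * star (selPer W F) = (ord p : ℂ) * (Wᴴ * W).permanent := by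
  have h1 : ∀ F : κ → ι, xx p W F * star (selPer W F)
      = ∑ c : Equiv.Perm {a // p a} × Equiv.Perm {a // ¬ p a},
          (∏ k, W ((F ∘ Equiv.Perm.subtypeCongr c.1 c.2) k) k)
            * star (selPer W (F ∘ Equiv.Perm.subtypeCongr c.1 c.2)) := by
    intro F
    unfold xx
    rw [prod_split, Finset.sum_mul]
    refine Finset.sum_congr rfl fun c _ => ?_
    rw [selPer_comp]
    rfl
  rw [Finset.sum_congr rfl fun F _ => h1 F, Finset.sum_comm]
  have h2 : ∀ c : Equiv.Perm {a // p a} × Equiv.Perm {a // ¬ p a},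
      ∑ F : κ → ι, (∏ k, W ((F ∘ Equiv.Perm.subtypeCongr c.1 c.2) k) k)
            * star (selPer W (F ∘ Equiv.Perm.subtypeCongr c.1 c.2))
        = (Wᴴ * W).permanent := by
    intro c
    rw [permanent_gram]
    refine Fintype.sum_equiv (Equiv.arrowCongr (Equiv.Perm.subtypeCongr c.1 c.2).symm
      (Equiv.refl ι)) _ _ fun F => ?_
    have e : (Equiv.arrowCongr (Equiv.Perm.subtypeCongr c.1 c.2).symm (Equiv.refl ι)) F
        = F ∘ Equiv.Perm.subtypeCongr c.1 c.2 := by
      ext i; simp [Equiv.arrowCongr]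
    rw [e]
  rw [Finset.sum_congr rfl fun c _ => h2 c, Finset.sum_const, Finset.card_univ, nsmul_eq_mul]
  rfl

lemma sum_terms (W : Matrix ι κ ℂ) :
    ∑ σ : Equiv.Perm κ, ∑ F : κ → ι, xx p W F * star (xx p W (F ∘ σ))
      = (ord p : ℂ) ^ 2 * (Wᴴ * W).permanent := by
  rw [Finset.sum_comm]
  have h1 : ∀ F : κ → ι, ∑ σ : Equiv.Perm κ, xx p W F * star (xx p W (F ∘ σ))
      = (ord p : ℂ) * (xx p W F * star (selPer W F)) := by
    intro F
    rw [← Finset.mul_sum, ← star_sum, sum_xx, star_mul']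
    simp
    ring
  rw [Finset.sum_congr rfl fun F _ => h1 F, ← Finset.mul_sum, sum_xx_sel]
  ring

lemma norm_xx (W : Matrix ι κ ℂ) :
    ∑ F : κ → ι, xx p W F * star (xx p W F)
      = (ord p : ℂ) * (((W.submatrix id (Subtype.val : {a // p a} → κ))ᴴ
          * (W.submatrix id (Subtype.val : {a // p a} → κ))).permanent
        * ((W.submatrix id (Subtype.val : {a // ¬ p a} → κ))ᴴ
          * (W.submatrix id (Subtype.val : {a // ¬ p a} → κ))).permanent) := by
  have h1 := permanent_gram_sq (W.submatrix id (Subtype.val : {a // p a} → κ))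
  have h2 := permanent_gram_sq (W.submatrix id (Subtype.val : {a // ¬ p a} → κ))
  have h3 : (ord p : ℂ) = ((Fintype.card {a // p a}).factorial : ℂ)
      * ((Fintype.card {a // ¬ p a}).factorial : ℂ) := by
    unfold ord
    rw [Fintype.card_prod, Fintype.card_perm, Fintype.card_perm]
    push_cast
    ring
  rw [h3, mul_mul_mul_comm, h1, h2]
  push_cast
  rw [Finset.sum_mul_sum, ← Finset.sum_product']
  refine Fintype.sum_equiv (Equiv.piEquivPiSubtypeProd p fun _ => ι) _ _ fun F => ?_
  unfold xx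
  rw [star_mul', Complex.normSq_eq_conj_mul_self, Complex.normSq_eq_conj_mul_self]
  simp only [Equiv.piEquivPiSubtypeProd, Equiv.coe_fn_mk, Complex.star_def]
  have e1 : (F ∘ (Subtype.val : {a // p a} → κ)) = fun x : {a // p a} => F x := rfl
  have e2 : (F ∘ (Subtype.val : {a // ¬ p a} → κ)) = fun x : {a // ¬ p a} => F x := rfl
  rw [e1, e2]
  ring

/-- **Lieb's inequality** for the permanent of a Gram matrix. -/
theorem lieb_gram (W : Matrix ι κ ℂ) :
    ((W.submatrix id (Subtype.val : {a // p a} → κ))ᴴ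
          * (W.submatrix id (Subtype.val : {a // p a} → κ))).permanent.re
        * ((W.submatrix id (Subtype.val : {a // ¬ p a} → κ))ᴴ
          * (W.submatrix id (Subtype.val : {a // ¬ p a} → κ))).permanent.re
      ≤ (Wᴴ * W).permanent.re := by
  classical
  set P1 := ((W.submatrix id (Subtype.val : {a // p a} → κ))ᴴ
          * (W.submatrix id (Subtype.val : {a // p a} → κ))).permanent with hP1
  set P2 := ((W.submatrix id (Subtype.val : {a // ¬ p a} → κ))ᴴ
          * (W.submatrix id (Subtype.val : {a // ¬ p a} → κ))).permanent with hP2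
  have r1 : P1 = ((P1.re : ℝ) : ℂ) := by
    rw [hP1, permanent_gram_real, Complex.ofReal_re]
  have r2 : P2 = ((P2.re : ℝ) : ℂ) := by
    rw [hP2, permanent_gram_real, Complex.ofReal_re]
  have hord : (0 : ℝ) < (ord p : ℝ) := by
    unfold ord; exact_mod_cast Fintype.card_pos
  -- every term is nonnegative
  have hpos : ∀ σ : Equiv.Perm κ, 0 ≤ (∑ F : κ → ι, xx p W F * star (xx p W (F ∘ σ))).re := by
    intro σ
    refine term_nonneg p
      (fun F => selPer (W.submatrix id (Subtype.val : {a // p a} → κ)) (F ∘ Subtype.val))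
      (fun F => selPer (W.submatrix id (Subtype.val : {a // ¬ p a} → κ)) (F ∘ Subtype.val))
      ?_ ?_ ?_ σ
    · intro F G h
      have : F ∘ (Subtype.val : {a // p a} → κ) = G ∘ Subtype.val := by
        ext a; exact h a.1 a.2
      simp only [this]
    · intro F G h
      have : F ∘ (Subtype.val : {a // ¬ p a} → κ) = G ∘ Subtype.val := by
        ext a; exact h a.1 a.2
      simp only [this]
    · intro F g hg
      exact xx_inv p W F g hg
  -- the block terms
  have hblock : ∀ c : Equiv.Perm {a // p a} × Equiv.Perm {a // ¬ p a},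
      (∑ F : κ → ι, xx p W F * star (xx p W (F ∘ Equiv.Perm.subtypeCongr c.1 c.2))).re
        = (ord p : ℝ) * (P1.re * P2.re) := by
    intro c
    have h1 : ∀ F : κ → ι, xx p W (F ∘ Equiv.Perm.subtypeCongr c.1 c.2) = xx p W F := by
      intro F
      refine xx_inv p W F _ fun a => ?_
      by_cases ha : p a
      · rw [Equiv.Perm.subtypeCongr.left_apply _ _ ha]
        exact ⟨fun _ => ha, fun _ => (c.1 ⟨a, ha⟩).2⟩
      · rw [Equiv.Perm.subtypeCongr.right_apply _ _ ha]
        exact ⟨fun h => absurd h (c.2 ⟨a, ha⟩).2, fun h => absurd h ha⟩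
    simp only [h1]
    rw [norm_xx, ← hP1, ← hP2, r1, r2]
    norm_cast
  have hsum := congrArg Complex.re (sum_terms p W)
  rw [Complex.re_sum] at hsum
  have r3 : (Wᴴ * W).permanent = (((Wᴴ * W).permanent.re : ℝ) : ℂ) := by
    rw [permanent_gram_real, Complex.ofReal_re]
  have hR : ((ord p : ℂ) ^ 2 * (Wᴴ * W).permanent).re
      = (ord p : ℝ) ^ 2 * (Wᴴ * W).permanent.re := by
    rw [r3]
    norm_cast
  rw [hR] at hsum
  have hle : (ord p : ℝ) * ((ord p : ℝ) * (P1.re * P2.re))
      ≤ ∑ σ : Equiv.Perm κ, (∑ F : κ → ι, xx p W F * star (xx p W (F ∘ σ))).re := by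
    calc (ord p : ℝ) * ((ord p : ℝ) * (P1.re * P2.re))
        = ∑ c : Equiv.Perm {a // p a} × Equiv.Perm {a // ¬ p a},
          (∑ F : κ → ι, xx p W F * star (xx p W (F ∘ Equiv.Perm.subtypeCongr c.1 c.2))).re := by
          rw [Finset.sum_congr rfl fun c _ => hblock c, Finset.sum_const, Finset.card_univ,
            nsmul_eq_mul]
          rfl
      _ = ∑ σ ∈ (Finset.univ : Finset (Equiv.Perm {a // p a} × Equiv.Perm {a // ¬ p a})).map
            ⟨Equiv.Perm.subtypeCongrHom p, Equiv.Perm.subtypeCongrHom_injective p⟩,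
            (∑ F : κ → ι, xx p W F * star (xx p W (F ∘ σ))).re := by
          rw [Finset.sum_map]
          rfl
      _ ≤ _ := Finset.sum_le_sum_of_subset_of_nonneg (Finset.subset_univ _)
            (fun σ _ _ => hpos σ)
  rw [hsum] at hle
  have h4 : (ord p : ℝ) ^ 2 * (P1.re * P2.re) ≤ (ord p : ℝ) ^ 2 * (Wᴴ * W).permanent.re := by
    linarith [hle, sq (ord p : ℝ), mul_assoc (ord p : ℝ) (ord p : ℝ) (P1.re * P2.re)]
  exact le_of_mul_le_mul_left h4 (by positivity)

omit [Fintype ι] in
/-- **Lieb's inequality**: the permanent of a positive semidefinite matrix is at least the product of the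
permanents of two complementary principal submatrices. -/
theorem lieb (A : Matrix κ κ ℂ) (hA : A.PosSemidef) :
    (Matrix.of fun (i j : {a // p a}) => A i j).permanent.re
      * (Matrix.of fun (i j : {a // ¬ p a}) => A i j).permanent.re ≤ A.permanent.re := by
  obtain ⟨W, rfl⟩ := exists_gram hA
  have h := lieb_gram p W
  exact h

end main

end Lieb
end Pool.Agent.Lib.MP_6947cd_al
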