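import Mathlib

set_option autoImplicit false
open scoped Matrix ComplexOrder
open Matrix Finset

namespace Pool.Agent.Lib.MP_6947cd_al

/-- The permanent of the square matrix whose rows are the rows `f i` of `W`. -/
noncomputable def selPer {ι κ : Type} [Fintype κ] [DecidableEq κ] (W : Matrix ι κ ℂ)
    (f : κ → ι) : ℂ := (W.submatrix f id).permanent

variable {ι κ : Type} [Fintype κ] [DecidableEq κ]

lemma selPer_eq (W : Matrix ι κ ℂ) (f : κ → ι) :
    selPer W f = ∑ σ : Equiv.Perm κ, ∏ i, W (f (σ i)) i := rfl

lemma selPer_eq' (W : Matrix ι κ ℂ) (f : κ → ι) :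
    selPer W f = ∑ σ : Equiv.Perm κ, ∏ i, W (f i) (σ i) := by
  unfold selPer
  rw [← permanent_transpose]
  rfl

lemma selPer_comp (W : Matrix ι κ ℂ) (f : κ → ι) (τ : Equiv.Perm κ) :
    selPer W (f ∘ τ) = selPer W f := by
  unfold selPer
  have := permanent_permute_cols τ (W.submatrix f id)
  rw [submatrix_submatrix] at this
  simpa using this

lemma permanent_gram [Fintype ι] (W : Matrix ι κ ℂ) :
    (Wᴴ * W).permanent = ∑ f : κ → ι, (∏ i, W (f i) i) * star (selPer W f) := by
  classical
  unfold permanent
  have h1 : ∀ σ : Equiv.Perm κ, ∏ i, (Wᴴ * W) (σ i) i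
      = ∑ f : κ → ι, ∏ i, (star (W (f i) (σ i)) * W (f i) i) := by
    intro σ
    have : ∀ i, (Wᴴ * W) (σ i) i = ∑ k : ι, star (W k (σ i)) * W k i := by
      intro i
      simp [Matrix.mul_apply, Matrix.conjTranspose_apply]
    simp_rw [this]
    rw [Finset.prod_univ_sum]
    simp
  simp_rw [h1]
  rw [Finset.sum_comm]
  refine Finset.sum_congr rfl fun f _ => ?_
  rw [selPer_eq', star_sum, Finset.mul_sum]
  refine Finset.sum_congr rfl fun σ _ => ?_
  rw [Finset.prod_mul_distrib, star_prod, mul_comm]

/-- Symmetrisation of a weighted Gram expansion. -/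
lemma weighted_symm [Fintype ι] (W : Matrix ι κ ℂ) (φ : (κ → ι) → ℝ)
    (hφ : ∀ (f : κ → ι) (τ : Equiv.Perm κ), φ (f ∘ τ) = φ f) :
    ((Fintype.card κ).factorial : ℂ) *
        ∑ f : κ → ι, (φ f : ℂ) * ((∏ i, W (f i) i) * star (selPer W f))
      = ((∑ f : κ → ι, φ f * Complex.normSq (selPer W f) : ℝ) : ℂ) := by
  classical
  have h1 : ∀ τ : Equiv.Perm κ,
      ∑ f : κ → ι, (φ f : ℂ) * ((∏ i, W (f i) i) * star (selPer W f))
        = ∑ f : κ → ι, (φ f : ℂ) * ((∏ i, W (f (τ i)) i) * star (selPer W f)) := by
    intro τ
    have := Fintype.sum_equiv (Equiv.arrowCongr τ.symm (Equiv.refl ι))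
      (fun f : κ → ι => (φ f : ℂ) * ((∏ i, W (f (τ i)) i) * star (selPer W f)))
      (fun f : κ → ι => (φ f : ℂ) * ((∏ i, W (f i) i) * star (selPer W f))) ?_
    · rw [← this]
    · intro f
      have e : (Equiv.arrowCongr τ.symm (Equiv.refl ι)) f = f ∘ τ := by
        ext i; simp [Equiv.arrowCongr]
      rw [e, hφ, selPer_comp]
      rfl
  have h2 : ((Fintype.card κ).factorial : ℂ) *
        ∑ f : κ → ι, (φ f : ℂ) * ((∏ i, W (f i) i) * star (selPer W f))
      = ∑ τ : Equiv.Perm κ, ∑ f : κ → ι,
          (φ f : ℂ) * ((∏ i, W (f (τ i)) i) * star (selPer W f)) := by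
    rw [← Finset.sum_congr rfl fun τ _ => h1 τ, Finset.sum_const, Finset.card_univ,
      Fintype.card_perm, nsmul_eq_mul]
  rw [h2, Finset.sum_comm]
  push_cast
  refine Finset.sum_congr rfl fun f _ => ?_
  rw [← Finset.mul_sum, ← Finset.sum_mul, ← selPer_eq, Complex.normSq_eq_conj_mul_self,
    mul_comm (selPer W f)]
  rfl

/-- The permanent of a Gram matrix as a sum of squares. -/
lemma permanent_gram_sq [Fintype ι] (W : Matrix ι κ ℂ) :
    ((Fintype.card κ).factorial : ℂ) * (Wᴴ * W).permanent
      = ((∑ f : κ → ι, Complex.normSq (selPer W f) : ℝ) : ℂ) := by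
  have h := weighted_symm W (fun _ => 1) (fun _ _ => rfl)
  rw [permanent_gram]
  simpa using h

/-- The number of arguments at which `f` is `none`. -/
def numNone {β : Type} (f : κ → Option β) : ℕ := ∑ j, (if (f j).isNone then 1 else 0)

omit [DecidableEq κ] in
lemma numNone_comp {β : Type} (f : κ → Option β) (τ : Equiv.Perm κ) :
    numNone (f ∘ τ) = numNone f := by
  unfold numNone
  exact Fintype.sum_equiv τ _ _ (fun i => rfl)

omit [DecidableEq κ] in
lemma numNone_le {β : Type} (f : κ → Option β) : numNone f ≤ Fintype.card κ := by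
  unfold numNone
  calc ∑ j, (if (f j).isNone then 1 else 0) ≤ ∑ _j : κ, 1 :=
        Finset.sum_le_sum fun j _ => by split_ifs <;> simp
    _ = Fintype.card κ := by simp

/-- The matrix with an additional column `s • e_none`. -/
noncomputable def bord {β : Type} (s : ℝ) (W : Matrix (Option β) κ ℂ) :
    Matrix (Option β) (Option κ) ℂ :=
  fun x j => match j with
    | none => if x.isNone then (s : ℂ) else 0
    | some j => W x j

lemma selPer_bord {β : Type} (s : ℝ) (W : Matrix (Option β) κ ℂ)
    (f : κ → Option β) :
    selPer (bord s W) (fun o => Option.elim o none f)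
      = (s : ℂ) * ((numNone f : ℂ) + 1) * selPer W f := by
  classical
  set g : Option κ → Option β := fun o => Option.elim o none f with hg
  have h1 : selPer (bord s W) g
      = ∑ p : Option κ × Equiv.Perm κ,
          ∏ i, (bord s W) (g ((Equiv.Perm.decomposeOption.symm p) i)) i := by
    rw [selPer_eq]
    exact (Fintype.sum_equiv Equiv.Perm.decomposeOption.symm _ _ (fun p => rfl)).symm
  have h2 : ∀ p : Option κ × Equiv.Perm κ,
      ∏ i, (bord s W) (g ((Equiv.Perm.decomposeOption.symm p) i)) i
        = (if (g p.1).isNone then (s : ℂ) else 0) * ∏ j, W (f (p.2 j)) j := by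
    rintro ⟨x, τ⟩
    rw [Fintype.prod_option]
    have e0 : (Equiv.Perm.decomposeOption.symm (x, τ)) none = x := by
      simp [Equiv.Perm.decomposeOption_symm_apply]
    have e1 : ∀ j, (Equiv.Perm.decomposeOption.symm (x, τ)) (some j)
        = Equiv.swap none x (some (τ j)) := by
      intro j
      simp [Equiv.Perm.decomposeOption_symm_apply]
    rw [e0]
    by_cases hx : (g x).isNone
    · have hx' : g x = none := by simpa using hx
      have : ∀ j, (bord s W) (g ((Equiv.Perm.decomposeOption.symm (x, τ)) (some j))) (some j)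
          = W (f (τ j)) j := by
        intro j
        rw [e1]
        by_cases hj : x = some (τ j)
        · rw [hj, Equiv.swap_apply_right]
          have h3 : g none = none := rfl
          have h4 : g (some (τ j)) = f (τ j) := rfl
          rw [h3]
          rw [hj, h4] at hx'
          rw [hx']
          rfl
        · rw [Equiv.swap_apply_of_ne_of_ne (by simp) (fun h => hj h.symm)]
          rfl
      simp_rw [this]
      rfl
    · have : (bord s W) (g x) none = 0 := by
        show (if (g x).isNone then (s : ℂ) else 0) = 0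
        rw [if_neg hx]
      rw [this, if_neg hx, zero_mul, zero_mul]
  have h5 : ∑ x : Option κ, (if (g x).isNone then (s : ℂ) else 0)
      = (s : ℂ) * ((numNone f : ℂ) + 1) := by
    rw [Fintype.sum_option]
    have h6 : (if (g none).isNone then (s : ℂ) else 0) = s := by
      have h3 : g none = none := rfl
      rw [h3]; simp
    have h7 : ∀ j, (if (g (some j)).isNone then (s : ℂ) else 0)
        = (s : ℂ) * (((if (f j).isNone then 1 else 0 : ℕ)) : ℂ) := by
      intro j
      have h4 : g (some j) = f j := rfl
      rw [h4]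
      split_ifs <;> simp
    rw [h6, Finset.sum_congr rfl fun j _ => h7 j, ← Finset.mul_sum, numNone, Nat.cast_sum]
    ring
  rw [h1, Finset.sum_congr rfl fun p _ => h2 p, Fintype.sum_prod_type, ← h5, Finset.sum_mul]
  refine Finset.sum_congr rfl fun x _ => ?_
  rw [selPer_eq, Finset.mul_sum]

/-- The permanent of a bordered Gram matrix. -/
lemma permanent_bord {β : Type} [Fintype β] (s : ℝ)
    (W : Matrix (Option β) κ ℂ) :
    ((Fintype.card κ).factorial : ℂ) * ((bord s W)ᴴ * bord s W).permanent
      = ((s ^ 2 * ∑ f : κ → Option β,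
          ((numNone f : ℝ) + 1) * Complex.normSq (selPer W f) : ℝ) : ℂ) := by
  classical
  rw [permanent_gram]
  have h1 : ∑ f : Option κ → Option β, (∏ i, (bord s W) (f i) i) * star (selPer (bord s W) f)
      = ∑ f : κ → Option β, (s : ℂ) ^ 2 * ((((numNone f : ℝ) + 1 : ℝ) : ℂ) *
          ((∏ i, W (f i) i) * star (selPer W f))) := by
    have e := Fintype.sum_equiv (Equiv.piOptionEquivProd (β := fun _ : Option κ => Option β)).symm
      (fun p : Option β × (κ → Option β) =>
        (∏ i, (bord s W) ((Equiv.piOptionEquivProd (β := fun _ : Option κ => Option β)).symm p i) i)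
          * star (selPer (bord s W)
            ((Equiv.piOptionEquivProd (β := fun _ : Option κ => Option β)).symm p)))
      (fun f : Option κ → Option β => (∏ i, (bord s W) (f i) i) * star (selPer (bord s W) f))
      (fun p => rfl)
    rw [← e, Fintype.sum_prod_type, Finset.sum_comm]
    refine Finset.sum_congr rfl fun f _ => ?_
    rw [Finset.sum_eq_single none]
    · have e2 : (Equiv.piOptionEquivProd (β := fun _ : Option κ => Option β)).symm (none, f)
          = fun o => Option.elim o none f := by
        ext o; cases o <;> simp [Equiv.piOptionEquivProd]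
      rw [e2, selPer_bord, Fintype.prod_option]
      have e3 : (bord s W) ((fun o : Option κ => Option.elim o none f) none) none = (s : ℂ) := by
        show (if (none : Option β).isNone then (s : ℂ) else 0) = s
        simp
      have e4 : ∀ j, (bord s W) ((fun o : Option κ => Option.elim o none f) (some j)) (some j)
          = W (f j) j := fun j => rfl
      rw [e3]
      simp_rw [e4]
      simp only [star_mul', star_add, star_one, star_natCast, Complex.star_def, Complex.conj_ofReal]
      push_cast
      ring
    · intro x _ hx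
      rw [Fintype.prod_option]
      have e5 : (bord s W)
          ((Equiv.piOptionEquivProd (β := fun _ : Option κ => Option β)).symm (x, f) none) none
            = 0 := by
        show (if (Option.isNone _) then (s : ℂ) else 0) = 0
        rw [if_neg]
        simpa [Equiv.piOptionEquivProd] using hx
      rw [e5]; ring
    · simp
  rw [h1, ← Finset.mul_sum, mul_left_comm,
    weighted_symm W (fun f => (numNone f : ℝ) + 1) (fun f τ => by rw [numNone_comp])]
  push_cast
  rfl

end Pool.Agent.Lib.MP_6947cd_al
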