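import Mathlib

set_option autoImplicit false
open scoped Matrix ComplexOrder
open Matrix Finset

namespace Pool.Agent.Lib.MP_6947cd_al

variable {κ : Type} [Fintype κ] [DecidableEq κ]

/-- A positive semidefinite matrix of rank at most two is a Gram matrix of vectors in `ℂ²`, with
orthogonal rows. -/
lemma exists_rank_two (A : Matrix κ κ ℂ) (hA : A.PosSemidef) (hr : A.rank ≤ 2) :
    ∃ W : Matrix (Fin 2) κ ℂ, A = Wᴴ * W ∧ ∑ j, W 0 j * star (W 1 j) = 0 := by
  classical
  set lam := hA.1.eigenvalues with hlam
  set U : Matrix κ κ ℂ := (hA.1.eigenvectorUnitary : Matrix κ κ ℂ) with hU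
  have hUU : Uᴴ * U = 1 := by
    have := (hA.1.eigenvectorUnitary).2
    rw [mem_unitaryGroup_iff'] at this
    exact this
  have hspec : ∀ i j, A i j = ∑ k, (lam k : ℂ) * (U i k * star (U j k)) := by
    intro i j
    have h := hA.1.spectral_theorem
    rw [Unitary.conjStarAlgAut_apply] at h
    conv_lhs => rw [h]
    rw [Matrix.mul_apply]
    refine Finset.sum_congr rfl fun k _ => ?_
    rw [Matrix.mul_diagonal]
    simp only [Function.comp, star_eq_conjTranspose, conjTranspose_apply]
    show U i k * (lam k : ℂ) * star (U j k) = _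
    ring
  rw [hA.1.rank_eq_card_non_zero_eigs] at hr
  obtain ⟨e⟩ : Nonempty ({i // lam i ≠ 0} ↪ Fin 2) :=
    Function.Embedding.nonempty_of_card_le (by simpa using hr)
  have hnn : ∀ i, 0 ≤ lam i := hA.eigenvalues_nonneg
  set R : {i // lam i ≠ 0} → κ → ℂ := fun i j => (Real.sqrt (lam i) : ℂ) * star (U j i) with hR
  set W : Matrix (Fin 2) κ ℂ := fun k => Function.extend e R 0 k with hW
  have hWe : ∀ i, W (e i) = R i := fun i => e.injective.extend_apply _ _ _
  have hWn : ∀ k, k ∉ Set.range e → W k = 0 := by
    intro k hk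
    simp only [hW]
    rw [Function.extend_apply' _ _ _ (by simpa using hk)]
    rfl
  refine ⟨W, ?_, ?_⟩
  · ext i j
    rw [hspec, Matrix.mul_apply]
    simp only [conjTranspose_apply]
    have h1 : ∑ k : {i // lam i ≠ 0}, star (R k i) * R k j = ∑ k : Fin 2, star (W k i) * W k j := by
      refine Fintype.sum_of_injective e e.injective _ _ (fun k hk => ?_) (fun k => ?_)
      · rw [hWn k hk]; simp
      · rw [hWe]
    rw [← h1]
    have h2 : ∀ k : {i // lam i ≠ 0}, star (R k i) * R k j
        = (lam k : ℂ) * (U i k * star (U j k)) := by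
      intro k
      simp only [hR, star_mul', Complex.star_def, Complex.conj_ofReal, Complex.conj_conj]
      have : (Real.sqrt (lam k) : ℂ) * (Real.sqrt (lam k) : ℂ) = (lam k : ℂ) := by
        rw [← Complex.ofReal_mul, Real.mul_self_sqrt (hnn k)]
      rw [← this]; ring
    rw [Finset.sum_congr rfl fun k _ => h2 k]
    refine (Fintype.sum_of_injective (fun k : {i // lam i ≠ 0} => (k : κ)) Subtype.val_injective
      _ _ (fun k hk => ?_) (fun k => rfl)).symm
    have : lam k = 0 := by
      by_contra hne
      exact hk ⟨⟨k, hne⟩, rfl⟩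
    rw [this]; simp
  · by_cases h0 : (0 : Fin 2) ∈ Set.range e
    · by_cases h1 : (1 : Fin 2) ∈ Set.range e
      · obtain ⟨a, ha⟩ := h0
        obtain ⟨b, hb⟩ := h1
        have hab : (a : κ) ≠ b := by
          intro h
          have : a = b := Subtype.ext h
          rw [this, hb] at ha
          exact absurd ha (by norm_num)
        have h3 : ∑ j, star (U j a) * U j b = 0 := by
          have := congrFun (congrFun hUU a) b
          rw [Matrix.mul_apply, Matrix.one_apply_ne hab] at this
          simpa only [conjTranspose_apply] using this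
        rw [← ha, ← hb]
        simp_rw [hWe]
        simp only [hR, star_mul', Complex.star_def, Complex.conj_ofReal, Complex.conj_conj]
        have h4 : ∀ j, (Real.sqrt (lam a) : ℂ) * (starRingEnd ℂ) (U j a) *
            ((Real.sqrt (lam b) : ℂ) * U j b)
            = (Real.sqrt (lam a) : ℂ) * (Real.sqrt (lam b) : ℂ) * (star (U j a) * U j b) := by
          intro j; rw [Complex.star_def]; ring
        rw [Finset.sum_congr rfl fun j _ => h4 j, ← Finset.mul_sum, h3, mul_zero]
      · rw [hWn 1 h1]; simp
    · rw [hWn 0 h0]; simp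

end Pool.Agent.Lib.MP_6947cd_al
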