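import Pool.Agent.Lib.MP_6947cd_al.Reduce
import Pool.Agent.Lib.MP_6947cd_al.Upper
import Pool.Agent.Lib.MP_6947cd_al.Lower
import Pool.Agent.Lib.MP_6947cd_al.Jensen
import Pool.Agent.Lib.MP_6947cd_al.Spectral

set_option autoImplicit false
open scoped Matrix ComplexOrder
open Matrix Finset

namespace Pool.Agent.Lib.MP_6947cd_al

section lower

variable {κ : Type} [Fintype κ] [DecidableEq κ]

omit [DecidableEq κ] in
lemma prod_max_eq_exp (W : Matrix (Fin 2) κ ℂ) (hW : ∀ i, ‖W 0 i‖ ^ 2 + ‖W 1 i‖ ^ 2 = 1)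
    (t : ℝ) (h0 : 0 < t) (h1 : t < 1) :
    Real.exp (∑ i, lmax (‖W 0 i‖ ^ 2) (‖W 1 i‖ ^ 2) t)
      = ∏ i, max (‖W 1 i‖ ^ 2 * t) (‖W 0 i‖ ^ 2 * (1 - t)) := by
  rw [Real.exp_sum]
  refine Finset.prod_congr rfl fun i _ => ?_
  unfold lmax
  rw [Real.exp_log]
  have h2 := hW i
  by_cases h3 : ‖W 0 i‖ ^ 2 = 0
  · rw [h3, zero_add] at h2
    rw [h2]
    exact lt_max_of_lt_left (by linarith)
  · have h4 : 0 < ‖W 0 i‖ ^ 2 := lt_of_le_of_ne (by positivity) (Ne.symm h3)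
    exact lt_max_of_lt_right (mul_pos h4 (by linarith))

/-- First lower bound: `per ≥ (n+1)! e^{-n}`. -/
lemma lowerA (W : Matrix (Fin 2) κ ℂ) (hW : ∀ i, ‖W 0 i‖ ^ 2 + ‖W 1 i‖ ^ 2 = 1) :
    ((Fintype.card κ + 1).factorial : ℝ) * Real.exp (-(Fintype.card κ : ℝ))
      ≤ (Wᴴ * W).permanent.re := by
  refine le_trans ?_ (lower2 W)
  refine mul_le_mul_of_nonneg_left ?_ (by positivity)
  have h := jensen (Finset.univ : Finset κ)
    (fun t => ∑ k ∈ Finset.range (Fintype.card κ + 1),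
        ‖(lpoly W).coeff k‖ ^ 2 * (t ^ k * (1 - t) ^ (Fintype.card κ - k)))
    (by fun_prop) (fun i t => lmax (‖W 0 i‖ ^ 2) (‖W 1 i‖ ^ 2) t) (fun _ => 1) (fun _ => 0)
    (fun _ => -1) 0 continuous_const (by simp)
    (fun i _ => intInt_lmax (by positivity) (by positivity) (hW i) _ continuous_const)
    (fun i _ => int_lmax (by positivity) (by positivity) (hW i))
    (by simp) (by simp) (fun t _ => zero_le_one)
    (by
      intro t ht
      rw [one_mul, sub_zero, prod_max_eq_exp W hW t ht.1 ht.2]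
      exact landau W t ht.1.le ht.2.le)
  simpa using h

/-- Second lower bound. -/
lemma lowerB (W : Matrix (Fin 2) κ ℂ) (hW : ∀ i, ‖W 0 i‖ ^ 2 + ‖W 1 i‖ ^ 2 = 1) :
    ((Fintype.card κ + 1).factorial : ℝ) *
        Real.exp (-(Fintype.card κ : ℝ) / 2 - ∑ i, ‖W 1 i‖ ^ 2 - (Real.log 2 - 1 / 2))
      ≤ (Wᴴ * W).permanent.re := by
  refine le_trans ?_ (lower2 W)
  refine mul_le_mul_of_nonneg_left ?_ (by positivity)
  have hc : Continuous (fun t : ℝ => 2 * (1 - t)) := by fun_prop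
  have hint : IntervalIntegrable (fun t : ℝ => 2 * (1 - t) * (Real.log 2 + Real.log (1 - t)))
      MeasureTheory.volume 0 1 :=
    (intervalIntegrable_const.add (intInt_log_one_sub 0 1)).continuousOn_mul hc.continuousOn
  have h := jensen (Finset.univ : Finset κ)
    (fun t => ∑ k ∈ Finset.range (Fintype.card κ + 1),
        ‖(lpoly W).coeff k‖ ^ 2 * (t ^ k * (1 - t) ^ (Fintype.card κ - k)))
    (by fun_prop) (fun i t => lmax (‖W 0 i‖ ^ 2) (‖W 1 i‖ ^ 2) t) (fun t => 2 * (1 - t))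
    (fun t => Real.log 2 + Real.log (1 - t))
    (fun i => -1 / 2 - ‖W 1 i‖ ^ 2) (Real.log 2 - 1 / 2) hc
    (by
      have := intervalIntegral.integral_comp_sub_left (a := 0) (b := 1) (fun s : ℝ => 2 * s) 1
      rw [this]
      simp only [sub_self, sub_zero]
      rw [intervalIntegral.integral_const_mul, integral_id]
      norm_num)
    (fun i _ => intInt_lmax (by positivity) (by positivity) (hW i) _ hc)
    (fun i _ => int_lmax_w (by positivity) (by positivity) (hW i))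
    hint
    (by
      have := intervalIntegral.integral_comp_sub_left (a := 0) (b := 1)
        (fun s : ℝ => 2 * Real.log 2 * s + 2 * (s * Real.log s)) 1
      simp only [sub_self, sub_zero] at this
      have e : ∫ t in (0 : ℝ)..1, 2 * (1 - t) * (Real.log 2 + Real.log (1 - t))
          = ∫ t in (0 : ℝ)..1, (2 * Real.log 2 * (1 - t) + 2 * ((1 - t) * Real.log (1 - t))) := by
        refine intervalIntegral.integral_congr fun t _ => ?_
        ring
      rw [e, this, intervalIntegral.integral_add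
        (by apply Continuous.intervalIntegrable; fun_prop) ((intInt_mul_log 0 1).const_mul 2),
        intervalIntegral.integral_const_mul, intervalIntegral.integral_const_mul,
        int_mul_log 0 zero_le_one le_rfl, integral_id]
      ring)
    (fun t ht => by have := ht.2; linarith)
    (by
      intro t ht
      have h1 : (0 : ℝ) < 1 - t := by have := ht.2; linarith
      rw [Real.exp_sub, Real.exp_add, Real.exp_log (by norm_num), Real.exp_log h1,
        prod_max_eq_exp W hW t ht.1 ht.2, mul_div_cancel₀ _ (by positivity)]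
      exact landau W t ht.1.le ht.2.le)
  refine le_trans (le_of_eq ?_) h
  congr 1
  rw [Finset.sum_sub_distrib, Finset.sum_const, Finset.card_univ, nsmul_eq_mul]
  ring

end lower

section upper

variable {n : ℕ} (W : Matrix (Fin 2) (Fin n) ℂ)

lemma gram_apply (i j : Fin n) :
    (Wᴴ * W) i j = star (W 0 i) * W 0 j + star (W 1 i) * W 1 j := by
  rw [Matrix.mul_apply, Fin.sum_univ_two]
  simp only [conjTranspose_apply]

/-- The matrix of squared moduli. -/
noncomputable def sqm : Matrix (Fin n) (Fin n) ℝ := fun i j => ‖(Wᴴ * W) i j‖ ^ 2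

lemma perT_eq : ((Wᴴ * W) ⊙ (Wᴴ * W)ᵀ).permanent.re = (sqm W).permanent := by
  rw [permanent_hadamard_transpose (posSemidef_conjTranspose_mul_self W).1]
  unfold permanent sqm
  refine Finset.sum_congr rfl fun σ _ => ?_
  rw [Finset.prod_pow]

variable (hW : ∀ i, ‖W 0 i‖ ^ 2 + ‖W 1 i‖ ^ 2 = 1)

include hW in
lemma sqm_le_one (i j : Fin n) : sqm W i j ≤ 1 := by
  unfold sqm
  rw [gram_apply]
  have h1 : ‖star (W 0 i) * W 0 j + star (W 1 i) * W 1 j‖
      ≤ ‖W 0 i‖ * ‖W 0 j‖ + ‖W 1 i‖ * ‖W 1 j‖ := by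
    refine (norm_add_le _ _).trans (le_of_eq ?_)
    rw [norm_mul, norm_mul, norm_star, norm_star]
  have h2 : ‖W 0 i‖ * ‖W 0 j‖ + ‖W 1 i‖ * ‖W 1 j‖ ≤ 1 := by
    nlinarith [hW i, hW j, sq_nonneg (‖W 0 i‖ - ‖W 0 j‖), sq_nonneg (‖W 1 i‖ - ‖W 1 j‖)]
  exact pow_le_one₀ (norm_nonneg _) (h1.trans h2)

lemma sqm_nonneg (i j : Fin n) : 0 ≤ sqm W i j := by
  unfold sqm; positivity

include hW in
lemma sum_sqm (horth : ∑ j, W 0 j * star (W 1 j) = 0) :
    ∑ i, ∑ j, sqm W i j = ((n : ℝ) - ∑ i, ‖W 1 i‖ ^ 2) ^ 2 + (∑ i, ‖W 1 i‖ ^ 2) ^ 2 := by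
  have h0 : ∑ i, ‖W 0 i‖ ^ 2 = (n : ℝ) - ∑ i, ‖W 1 i‖ ^ 2 := by
    have : ∑ i, (‖W 0 i‖ ^ 2 + ‖W 1 i‖ ^ 2) = (n : ℝ) := by
      rw [Finset.sum_congr rfl fun i _ => hW i]; simp
    rw [Finset.sum_add_distrib] at this
    linarith
  rw [← h0]
  have key : ∀ i j, ((sqm W i j : ℝ) : ℂ)
      = ((‖W 0 i‖ ^ 2 : ℝ) : ℂ) * ((‖W 0 j‖ ^ 2 : ℝ) : ℂ)
        + ((‖W 1 i‖ ^ 2 : ℝ) : ℂ) * ((‖W 1 j‖ ^ 2 : ℝ) : ℂ)
        + (star (W 0 i) * W 1 i) * (W 0 j * star (W 1 j))
        + (W 0 i * star (W 1 i)) * (star (W 0 j) * W 1 j) := by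
    intro i j
    unfold sqm
    rw [gram_apply]
    have e : ∀ z : ℂ, ((‖z‖ ^ 2 : ℝ) : ℂ) = z * star z := by
      intro z
      rw [Complex.star_def, Complex.mul_conj, Complex.normSq_eq_norm_sq]
    simp only [e, star_add, star_mul', star_star]
    ring
  have h1 : ((∑ i, ∑ j, sqm W i j : ℝ) : ℂ)
      = (((∑ i, ‖W 0 i‖ ^ 2) ^ 2 + (∑ i, ‖W 1 i‖ ^ 2) ^ 2 : ℝ) : ℂ) := by
    rw [Complex.ofReal_sum]
    have h2 : ∀ i, ((∑ j, sqm W i j : ℝ) : ℂ)
        = ((‖W 0 i‖ ^ 2 : ℝ) : ℂ) * ((∑ j, ‖W 0 j‖ ^ 2 : ℝ) : ℂ)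
          + ((‖W 1 i‖ ^ 2 : ℝ) : ℂ) * ((∑ j, ‖W 1 j‖ ^ 2 : ℝ) : ℂ)
          + (W 0 i * star (W 1 i)) * (∑ j, star (W 0 j) * W 1 j) := by
      intro i
      rw [Complex.ofReal_sum, Finset.sum_congr rfl fun j _ => key i j,
        Finset.sum_add_distrib, Finset.sum_add_distrib, Finset.sum_add_distrib,
        ← Finset.mul_sum, ← Finset.mul_sum, ← Finset.mul_sum, ← Finset.mul_sum, horth,
        mul_zero, add_zero, ← Complex.ofReal_sum, ← Complex.ofReal_sum]
    rw [Finset.sum_congr rfl fun i _ => h2 i, Finset.sum_add_distrib, Finset.sum_add_distrib,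
      ← Finset.sum_mul, ← Finset.sum_mul, ← Finset.sum_mul, horth, zero_mul, add_zero,
      ← Complex.ofReal_sum, ← Complex.ofReal_sum]
    push_cast
    ring
  exact_mod_cast h1

/-- Arithmetic-geometric mean inequality. -/
lemma prod_le_avg_pow (hn : 0 < n) (z : Fin n → ℝ) (hz : ∀ i, 0 ≤ z i) :
    ∏ i, z i ≤ ((∑ i, z i) / n) ^ n := by
  have hn' : (0 : ℝ) < n := by exact_mod_cast hn
  have h := Real.geom_mean_le_arith_mean_weighted Finset.univ (fun _ => 1 / (n : ℝ)) z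
    (fun i _ => by positivity) (by simp; field_simp) (fun i _ => hz i)
  rw [Real.finsetProd_rpow _ _ (fun i _ => hz i), ← Finset.mul_sum] at h
  have hP : 0 ≤ ∏ i, z i := Finset.prod_nonneg fun i _ => hz i
  have h2 := pow_le_pow_left₀ (Real.rpow_nonneg hP _) h n
  rw [← Real.rpow_natCast, ← Real.rpow_mul hP, one_div, inv_mul_cancel₀ hn'.ne',
    Real.rpow_one] at h2
  refine h2.trans (le_of_eq ?_)
  congr 1
  field_simp

include hW in
/-- Minc's bound for `per (A ∘ Ā)`. -/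
lemma upperMinc (hn : 0 < n) (horth : ∑ j, W 0 j * star (W 1 j) = 0) :
    (sqm W).permanent
      ≤ ((1 + (((n : ℝ) - ∑ i, ‖W 1 i‖ ^ 2) ^ 2 + (∑ i, ‖W 1 i‖ ^ 2) ^ 2) / n) / 2) ^ n := by
  have hn' : (0 : ℝ) < n := by exact_mod_cast hn
  refine (minc n (sqm W) (sqm_nonneg W) (sqm_le_one W hW)).trans ?_
  refine (prod_le_avg_pow hn _ (fun i => ?_)).trans (le_of_eq ?_)
  · have := Finset.sum_nonneg fun j (_ : j ∈ Finset.univ) => sqm_nonneg W i j
    linarith
  · congr 1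
    rw [← sum_sqm W hW horth, ← Finset.sum_div, Finset.sum_add_distrib]
    simp only [Finset.sum_const, Finset.card_univ, Fintype.card_fin, nsmul_eq_mul, mul_one]
    field_simp

end upper

section numerics

lemma exp_one_pow_le (k : ℕ) : Real.exp k ≤ (2.7182818286 : ℝ) ^ k := by
  have h : Real.exp k = Real.exp 1 ^ k := by rw [← Real.exp_nat_mul, mul_one]
  rw [h]
  exact pow_le_pow_left₀ (Real.exp_pos 1).le Real.exp_one_lt_d9.le k

lemma big_n (n : ℕ) (hn : 11 ≤ n) :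
    (2.7182818286 : ℝ) ^ (2 * n) * (n.factorial : ℝ) ≤ ((n + 1).factorial : ℝ) ^ 2 := by
  induction n, hn using Nat.le_induction with
  | base => norm_num [Nat.factorial]
  | succ n hn ih =>
    have h1 : ((n + 1 + 1).factorial : ℝ) = ((n : ℝ) + 2) * ((n + 1).factorial : ℝ) := by
      rw [Nat.factorial_succ]; push_cast; ring
    have h2 : ((n + 1).factorial : ℝ) = ((n : ℝ) + 1) * (n.factorial : ℝ) := by
      rw [Nat.factorial_succ]; push_cast; ring
    have hn' : (11 : ℝ) ≤ n := by exact_mod_cast hn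
    rw [h1, mul_pow]
    calc (2.7182818286 : ℝ) ^ (2 * (n + 1)) * ((n + 1).factorial : ℝ)
        = ((2.7182818286 : ℝ) ^ 2 * ((n : ℝ) + 1)) *
            ((2.7182818286 : ℝ) ^ (2 * n) * (n.factorial : ℝ)) := by
          rw [h2, show 2 * (n + 1) = 2 * n + 2 by ring, pow_add]; ring
      _ ≤ ((n : ℝ) + 2) ^ 2 * ((n + 1).factorial : ℝ) ^ 2 := by
          refine mul_le_mul ?_ ih (by positivity) (by positivity)
          nlinarith

lemma num1 (n : ℕ) (h7 : 7 ≤ n) (h10 : n < 11) :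
    (n.factorial : ℝ) * (4 * (2.7182818286 : ℝ) ^ (2 * n - 3)) ≤ ((n + 1).factorial : ℝ) ^ 2 := by
  interval_cases n <;> norm_num [Nat.factorial]

lemma num2 (n : ℕ) (h7 : 7 ≤ n) (h10 : n < 11) :
    ((1 + (n : ℝ) / 2 + 2 / n) / 2) ^ n * (2.7182818286 : ℝ) ^ (2 * n)
      ≤ ((n + 1).factorial : ℝ) ^ 2 := by
  interval_cases n <;> norm_num [Nat.factorial]

end numerics

/-- The main estimate for unit vectors with orthogonal rows, the second row being the smaller. -/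
theorem unit_case (n : ℕ) (hn : 7 ≤ n) (W : Matrix (Fin 2) (Fin n) ℂ)
    (hW : ∀ i, ‖W 0 i‖ ^ 2 + ‖W 1 i‖ ^ 2 = 1) (horth : ∑ j, W 0 j * star (W 1 j) = 0)
    (hδ : ∑ i, ‖W 1 i‖ ^ 2 ≤ n / 2) :
    ((Wᴴ * W) ⊙ (Wᴴ * W)ᵀ).permanent.re ≤ (Wᴴ * W).permanent.re ^ 2 := by
  rw [perT_eq]
  set S := (Wᴴ * W).permanent.re with hS
  have hA := lowerA W hW
  have hB := lowerB W hW
  rw [Fintype.card_fin, ← hS] at hA hB
  have hf := permanent_le_factorial n (sqm W) (sqm_nonneg W) (sqm_le_one W hW)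
  have hA2 : ((n + 1).factorial : ℝ) ^ 2 ≤ S ^ 2 * (2.7182818286 : ℝ) ^ (2 * n) := by
    have h1 : ((n + 1).factorial : ℝ) ≤ S * (2.7182818286 : ℝ) ^ n := by
      have h2 := exp_one_pow_le n
      have h3 : Real.exp (-(n : ℝ)) * Real.exp n = 1 := by rw [← Real.exp_add]; simp
      have hS0 : 0 ≤ S := le_trans (by positivity) hA
      calc ((n + 1).factorial : ℝ)
          = ((n + 1).factorial : ℝ) * Real.exp (-(n : ℝ)) * Real.exp n := by
            rw [mul_assoc, h3, mul_one]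
        _ ≤ S * (2.7182818286 : ℝ) ^ n := mul_le_mul hA h2 (Real.exp_pos _).le hS0
    calc ((n + 1).factorial : ℝ) ^ 2 ≤ (S * (2.7182818286 : ℝ) ^ n) ^ 2 :=
          pow_le_pow_left₀ (by positivity) h1 2
      _ = S ^ 2 * (2.7182818286 : ℝ) ^ (2 * n) := by rw [mul_pow, ← pow_mul, mul_comm n 2]
  have hEpos : (0 : ℝ) < (2.7182818286 : ℝ) ^ (2 * n) := by positivity
  by_cases h11 : 11 ≤ n
  · have h1 := big_n n h11
    have h2 : (sqm W).permanent * (2.7182818286 : ℝ) ^ (2 * n)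
        ≤ S ^ 2 * (2.7182818286 : ℝ) ^ (2 * n) := by
      calc (sqm W).permanent * (2.7182818286 : ℝ) ^ (2 * n)
          ≤ (n.factorial : ℝ) * (2.7182818286 : ℝ) ^ (2 * n) :=
            mul_le_mul_of_nonneg_right hf hEpos.le
        _ = (2.7182818286 : ℝ) ^ (2 * n) * (n.factorial : ℝ) := mul_comm _ _
        _ ≤ _ := h1.trans hA2
    exact le_of_mul_le_mul_right h2 hEpos
  push Not at h11
  set d : ℝ := n / 2 - ∑ i, ‖W 1 i‖ ^ 2 with hd
  by_cases hd1 : 1 ≤ d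
  · -- large `δ`
    have hB2 : ((n + 1).factorial : ℝ) ^ 2 ≤ S ^ 2 * (4 * (2.7182818286 : ℝ) ^ (2 * n - 3)) := by
      have h1 : ((n + 1).factorial : ℝ) * Real.exp (3 / 2 - n) / 2 ≤ S := by
        refine le_trans ?_ hB
        rw [mul_div_assoc]
        refine mul_le_mul_of_nonneg_left ?_ (by positivity)
        have h2 : Real.exp (3 / 2 - n) / 2 = Real.exp (3 / 2 - n - Real.log 2) := by
          rw [Real.exp_sub _ (Real.log 2), Real.exp_log (by norm_num)]
        rw [h2]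
        apply Real.exp_le_exp.mpr
        have : ∑ i, ‖W 1 i‖ ^ 2 = n / 2 - d := by rw [hd]; ring
        rw [this]
        linarith
      have hS0 : 0 ≤ S := le_trans (by positivity) h1
      have h3 : Real.exp (3 / 2 - n) ^ 2 * Real.exp ((2 * n - 3 : ℕ) : ℝ) = 1 := by
        rw [← Real.exp_nat_mul, ← Real.exp_add, Nat.cast_sub (by omega)]
        have : ((2 : ℕ) : ℝ) * (3 / 2 - n) + (((2 * n : ℕ) : ℝ) - ((3 : ℕ) : ℝ)) = 0 := by
          push_cast; ring
        rw [this, Real.exp_zero]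
      have h4 : (((n + 1).factorial : ℝ) * Real.exp (3 / 2 - n) / 2) ^ 2 ≤ S ^ 2 :=
        pow_le_pow_left₀ (by positivity) h1 2
      calc ((n + 1).factorial : ℝ) ^ 2
          = (((n + 1).factorial : ℝ) * Real.exp (3 / 2 - n) / 2) ^ 2 *
              (4 * Real.exp ((2 * n - 3 : ℕ) : ℝ)) := by
            have : (((n + 1).factorial : ℝ) * Real.exp (3 / 2 - n) / 2) ^ 2 *
              (4 * Real.exp ((2 * n - 3 : ℕ) : ℝ))
              = ((n + 1).factorial : ℝ) ^ 2 *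
                (Real.exp (3 / 2 - n) ^ 2 * Real.exp ((2 * n - 3 : ℕ) : ℝ)) := by ring
            rw [this, h3, mul_one]
        _ ≤ S ^ 2 * (4 * (2.7182818286 : ℝ) ^ (2 * n - 3)) := by
            refine mul_le_mul h4 ?_ (by positivity) (by positivity)
            exact mul_le_mul_of_nonneg_left (exp_one_pow_le _) (by norm_num)
    have hnum := num1 n hn h11
    have hpos : (0 : ℝ) < 4 * (2.7182818286 : ℝ) ^ (2 * n - 3) := by positivity
    refine hf.trans ?_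
    exact le_of_mul_le_mul_right (hnum.trans hB2) hpos
  · -- small `δ`
    push Not at hd1
    have hd0 : 0 ≤ d := by rw [hd]; linarith
    have hM := upperMinc W hW (by omega) horth
    have hn0 : (0 : ℝ) < n := by exact_mod_cast (by omega : 0 < n)
    have h1 : (1 + (((n : ℝ) - ∑ i, ‖W 1 i‖ ^ 2) ^ 2 + (∑ i, ‖W 1 i‖ ^ 2) ^ 2) / n) / 2
        ≤ (1 + (n : ℝ) / 2 + 2 / n) / 2 := by
      have : ∑ i, ‖W 1 i‖ ^ 2 = n / 2 - d := by rw [hd]; ring
      rw [this]
      have e : (((n : ℝ) - (n / 2 - d)) ^ 2 + (n / 2 - d) ^ 2) / n = n / 2 + 2 * d ^ 2 / n := by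
        field_simp; ring
      rw [e]
      have : 2 * d ^ 2 / n ≤ 2 / n := by
        refine div_le_div_of_nonneg_right ?_ hn0.le
        nlinarith
      linarith
    have h2 : 0 ≤ (1 + (((n : ℝ) - ∑ i, ‖W 1 i‖ ^ 2) ^ 2 + (∑ i, ‖W 1 i‖ ^ 2) ^ 2) / n) / 2 := by
      positivity
    have h3 := hM.trans (pow_le_pow_left₀ h2 h1 n)
    have hnum := num2 n hn h11
    refine h3.trans ?_
    exact le_of_mul_le_mul_right (hnum.trans hA2) hEpos

end Pool.Agent.Lib.MP_6947cd_al
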