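import Pool.Agent.Lib.MP_6947cd_al.Chollet

set_option autoImplicit false
open scoped Matrix ComplexOrder
open Matrix Finset

namespace Pool.Agent.Lib.MP_6947cd_al

variable {κ : Type} [Fintype κ] [DecidableEq κ]

lemma permanent_submatrix_equiv {κ' : Type} [Fintype κ'] [DecidableEq κ'] (e : κ' ≃ κ)
    (M : Matrix κ κ ℂ) : (M.submatrix e e).permanent = M.permanent := by
  unfold permanent
  refine Fintype.sum_equiv (Equiv.permCongr e) _ _ fun σ => ?_
  refine Fintype.prod_equiv e _ _ fun i => ?_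
  simp [Equiv.permCongr_apply]

/-- The permanent of `A ∘ Aᵀ` for Hermitian `A`. -/
lemma permanent_hadamard_transpose {A : Matrix κ κ ℂ} (hA : A.IsHermitian) :
    (A ⊙ Aᵀ).permanent.re = ∑ σ : Equiv.Perm κ, (∏ i, ‖A (σ i) i‖) ^ 2 := by
  have h : (A ⊙ Aᵀ).permanent = ((∑ σ : Equiv.Perm κ, (∏ i, ‖A (σ i) i‖) ^ 2 : ℝ) : ℂ) := by
    unfold permanent
    push_cast
    refine Finset.sum_congr rfl fun σ _ => ?_
    rw [← Finset.prod_pow]
    refine Finset.prod_congr rfl fun i _ => ?_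
    rw [hadamard_apply, transpose_apply, ← hA.apply i (σ i), Complex.star_def, Complex.mul_conj,
      Complex.normSq_eq_norm_sq]
    push_cast
    rfl
  rw [h, Complex.ofReal_re]

/-- Chollet's reduction (with a constant): the case `B = conj A` implies the general one. -/
theorem chollet_reduction (C : ℝ) (hC0 : 0 ≤ C)
    (hC : ∀ A : Matrix κ κ ℂ, A.PosSemidef → (A ⊙ Aᵀ).permanent.re ≤ C * A.permanent.re ^ 2)
    (A B : Matrix κ κ ℂ) (hA : A.PosSemidef) (hB : B.PosSemidef) :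
    (A ⊙ B).permanent ≤ (C : ℂ) * (A.permanent * B.permanent) := by
  obtain ⟨hA0, hA1⟩ := permanent_nonneg_real hA
  obtain ⟨hB0, hB1⟩ := permanent_nonneg_real hB
  obtain ⟨hAB0, hAB1⟩ := permanent_nonneg_real (hA.hadamard hB)
  rw [hA1, hB1, hAB1]
  norm_cast
  have h1 : (A ⊙ B).permanent.re
      ≤ ∑ σ : Equiv.Perm κ, (∏ i, ‖A (σ i) i‖) * (∏ i, ‖B (σ i) i‖) := by
    calc (A ⊙ B).permanent.re ≤ ‖(A ⊙ B).permanent‖ := Complex.re_le_norm _
      _ ≤ ∑ σ : Equiv.Perm κ, ‖∏ i, (A ⊙ B) (σ i) i‖ := norm_sum_le _ _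
      _ = _ := by
        refine Finset.sum_congr rfl fun σ _ => ?_
        rw [norm_prod, ← Finset.prod_mul_distrib]
        refine Finset.prod_congr rfl fun i _ => ?_
        rw [hadamard_apply, norm_mul]
  have h2 := Finset.sum_mul_sq_le_sq_mul_sq (Finset.univ : Finset (Equiv.Perm κ))
    (fun σ => ∏ i, ‖A (σ i) i‖) (fun σ => ∏ i, ‖B (σ i) i‖)
  rw [← permanent_hadamard_transpose hA.1, ← permanent_hadamard_transpose hB.1] at h2
  have h3 := hC A hA
  have h4 := hC B hB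
  have h5 : (A ⊙ B).permanent.re ^ 2 ≤ (C * (A.permanent.re * B.permanent.re)) ^ 2 := by
    calc (A ⊙ B).permanent.re ^ 2
        ≤ (∑ σ : Equiv.Perm κ, (∏ i, ‖A (σ i) i‖) * (∏ i, ‖B (σ i) i‖)) ^ 2 :=
          pow_le_pow_left₀ hAB0 h1 2
      _ ≤ (A ⊙ Aᵀ).permanent.re * (B ⊙ Bᵀ).permanent.re := h2
      _ ≤ (C * A.permanent.re ^ 2) * (C * B.permanent.re ^ 2) := by
          refine mul_le_mul h3 h4 ?_ (by positivity)
          exact (permanent_nonneg_real (hB.hadamard hB.transpose)).1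
      _ = _ := by ring
  exact le_of_sq_le_sq h5 (by positivity)

/-- Transfer of the induction step to `Fin`. -/
theorem step_fin (n : ℕ) (u K L C : ℝ) (hu : 1 ≤ u)
    (hK : ∀ m : ℕ, m ≤ n → (m : ℝ) + 1 ≤ K * (u ^ 2) ^ m)
    (hL : ∀ m : ℕ, m ≤ n → u ^ m ≤ L * ((m : ℝ) + 1))
    (hK0 : 0 ≤ K) (hC0 : 0 ≤ C)
    (hC : ∀ A : Matrix (Fin n) (Fin n) ℂ, A.PosSemidef →
      (A ⊙ Aᵀ).permanent.re ≤ C * A.permanent.re ^ 2)
    (M : Matrix (Fin (n + 1)) (Fin (n + 1)) ℂ) (hM : M.PosSemidef) :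
    (M ⊙ Mᵀ).permanent.re ≤ K * L ^ 2 * C * M.permanent.re ^ 2 := by
  have e := (finSuccEquiv n).symm
  have h := step (κ := Fin n) u K L C hu (by simpa using hK) (by simpa using hL) hK0 hC0 hC
    (M.submatrix e e) (hM.submatrix e)
  rw [permanent_submatrix_equiv] at h
  have h2 : (M.submatrix e e) ⊙ (M.submatrix e e)ᵀ = (M ⊙ Mᵀ).submatrix e e := rfl
  rw [h2, permanent_submatrix_equiv] at h
  exact h

/-- Chollet's inequality for `B = conj A`, orders at most six. -/
theorem chollet_conj (n : ℕ) (hn : n ≤ 6) (A : Matrix (Fin n) (Fin n) ℂ) (hA : A.PosSemidef) :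
    (A ⊙ Aᵀ).permanent.re ≤ A.permanent.re ^ 2 := by
  induction n with
  | zero => simp [permanent_isEmpty]
  | succ n ih =>
    have h := step_fin n (Real.sqrt 2) 1 1 1 (by
        rw [show (1 : ℝ) = Real.sqrt 1 by simp]
        exact Real.sqrt_le_sqrt (by norm_num))
      (by
        intro m _
        rw [Real.sq_sqrt (by norm_num), one_mul]
        have : m + 1 ≤ 2 ^ m := Nat.lt_two_pow_self
        exact_mod_cast this)
      (by
        intro m hm
        have hm5 : m ≤ 5 := by omega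
        have h2 : (Real.sqrt 2 ^ m) ^ 2 ≤ (1 * ((m : ℝ) + 1)) ^ 2 := by
          rw [← pow_mul, mul_comm m 2, pow_mul, Real.sq_sqrt (by norm_num)]
          interval_cases m <;> norm_num
        exact le_of_sq_le_sq h2 (by positivity))
      (by norm_num) (by norm_num) (fun A hA => by
        simpa using ih (by omega) A hA) A hA
    simpa using h

end Pool.Agent.Lib.MP_6947cd_al
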